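import Pool.Agent.G16.Int

/-!
# Group G16: the notions of MP_b4c787 inside a model of set theory

`M` is a type, `E x y` means: `x` is an element of `y`; `w` is the set of natural numbers of `M`.
The Cantor space is `P(w)`; its Borel sets are the elements of the least sigma-algebra containing
the sets `{x ⊆ w | n ∈ x}`.
-/

set_option autoImplicit false

namespace Pool.Agent.G16

open CI

section

universe u

variable {M : Type u} (E : M → M → Prop)

/-- `S` is closed under complements in the space `Y` and under countable unions, and it contains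
all sets `g` with the property `Gen` -/
structure IsSig (w : M) (Y Gen : M → Prop) (S : M) : Prop where
  gen : ∀ g, Gen g → E g S
  compl : ∀ a c, E a S → (∀ x, E x c ↔ Y x ∧ ¬ E x a) → E c S
  union : ∀ f c, IsFn E f w → (∀ i a, Rel E f i a → E a S) →
    (∀ x, E x c ↔ ∃ i a, Rel E f i a ∧ E x a) → E c S

/-- `A` belongs to the sigma-algebra of subsets of `Y` generated by the sets with the property
`Gen` -/
def IsBor (w : M) (Y Gen : M → Prop) (A : M) : Prop := ∀ S, IsSig E w Y Gen S → E A S

/-- the points of the Cantor space are the subsets of `w` -/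
def Y1 (w x : M) : Prop := Sub E x w

/-- the set `{x ⊆ w | n ∈ x}` for some `n` -/
def Gen1 (w g : M) : Prop := ∃ n, E n w ∧ ∀ x, E x g ↔ Sub E x w ∧ E n x

/-- the points of the square of the Cantor space are the pairs of subsets of `w` -/
def Y2 (w p : M) : Prop := ∃ x y, Sub E x w ∧ Sub E y w ∧ IsPair E p x y

/-- the set `{(x, y) | n ∈ x}` or `{(x, y) | n ∈ y}` for some `n` -/
def Gen2 (w g : M) : Prop := ∃ n, E n w ∧
  ((∀ p, E p g ↔ ∃ x y, Sub E x w ∧ Sub E y w ∧ IsPair E p x y ∧ E n x) ∨
    ∀ p, E p g ↔ ∃ x y, Sub E x w ∧ Sub E y w ∧ IsPair E p x y ∧ E n y)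

/-- `A` is a Borel subset of the Cantor space -/
def IsBor1 (w A : M) : Prop := IsBor E w (Y1 E w) (Gen1 E w) A

/-- `A` is a Borel subset of the square of the Cantor space -/
def IsBor2 (w A : M) : Prop := IsBor E w (Y2 E w) (Gen2 E w) A

/-- `V` is a nonempty countable set: the range of a function with domain `w` -/
def IsCtbl (w V : M) : Prop := ∃ f, IsFn E f w ∧ ∀ v, E v V ↔ ∃ i, Rel E f i v

/-- `V` is a countable cover of `X` by sets with the property `Bo`, no member of which
contains `X` -/
def IsBCov (w : M) (Bo : M → Prop) (X V : M) : Prop :=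
  IsCtbl E w V ∧ (∀ v, E v V → Bo v) ∧ (∀ v, E v V → ¬ Sub E X v) ∧
    ∀ x, E x X → ∃ v, E v V ∧ E x v

/-- `V` is moreover an omega-cover: every finite subset of `X` is contained in a member of `V` -/
def IsBOm (w : M) (Bo : M → Prop) (X V : M) : Prop :=
  IsBCov E w Bo X V ∧ ∀ F, IsFinite E w F → Sub E F X → ∃ v, E v V ∧ Sub E F v

/-- `X2` is the square of `X` -/
def IsSq (X X2 : M) : Prop := ∀ p, E p X2 ↔ ∃ x y, E x X ∧ E y X ∧ IsPair E p x y

end

/-- the final statement for MP_b4c787: there is a model of ZFC in which some subset `X` of the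
Cantor space satisfies `S₁(ℬ_Ω, ℬ_Ω)` and its square fails `S₁(ℬ, ℬ)` -/
def FinalB : Prop := ∃ (M : Type 1) (E : M → M → Prop), ZFC E ∧ ∃ w X X2 : M, IsOmega E w ∧
  (∀ x, E x X → Sub E x w) ∧ IsSq E X X2 ∧
  S1 E w (IsBOm E w (IsBor1 E w) X) (IsBOm E w (IsBor1 E w) X) ∧
    ¬ S1 E w (IsBCov E w (IsBor2 E w) X2) (IsBCov E w (IsBor2 E w) X2)

end Pool.Agent.G16
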