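import Pool.Agent.G16.BNam
import Pool.Agent.G16.BDefs

/-!
# Group G16: Borel sets in the two-valued models
-/

set_option autoImplicit false

open Pool.Agent.H46.BorelPow (tv OmegaDistributive)

namespace Pool.Agent.G16

open CI BSet Ordinal

universe v

section

variable {B : Type} [CompleteBooleanAlgebra B] {G : Type v}

/-- the name of a set of ground model points -/
def bgN {K : Type} (ck : K → BSet B) (A : Set K) : BSet B := famN' (I := A) (fun p => ck p.1)

/-- a space whose points are locally ground model points -/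
structure PSys (B : Type) [CompleteBooleanAlgebra B] (K : Type) where
  ck : K → BSet B
  Y : ∀ U : Ult B, MU U → Prop
  dY : Df (G := BSet B) (fun U x => Y U (cl U x))
  ckY : ∀ U p, Y U (cl U (ck p))
  inj : ∀ U p q, cl U (ck p) = cl U (ck q) → p = q
  pt : ∀ (R : ∀ U : Ult B, MU U → Prop) (_ : Df (G := BSet B) (fun U x => R U (cl U x)))
    (b : B) (_ : ∀ U : Ult B, b ∈ U.s → ∀ p, R U (cl U (ck p))) (U : Ult B) (_ : b ∈ U.s)
    (y : MU U) (_ : Y U y), R U y
  J : Type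
  j0 : J
  bas : J → Set K
  Gen : ∀ U : Ult B, MU U → Prop
  dGen : Df (G := BSet B) (fun U x => Gen U (cl U x))
  genOf : ∀ U j, Gen U (cl U (bgN ck (bas j)))
  gen : ∀ (R : ∀ U : Ult B, MU U → Prop) (_ : Df (G := BSet B) (fun U x => R U (cl U x)))
    (b : B) (_ : ∀ U : Ult B, b ∈ U.s → ∀ j, R U (cl U (bgN ck (bas j)))) (U : Ult B)
    (_ : b ∈ U.s) (g : MU U) (_ : Gen U g), R U g

theorem Df_isSig {Y Gen : ∀ U : Ult B, MU U → Prop}
    (hY : Df (G := BSet B) (fun U x => Y U (cl U x)))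
    (hGen : Df (G := BSet B) (fun U x => Gen U (cl U x))) (S : G → BSet B) :
    Df (fun U g => IsSig (EU U) (cl U (oN B ω)) (Y U) (Gen U) (cl U (S g))) := by
  have h : ∀ (U : Ult B) (g : G), IsSig (EU U) (cl U (oN B ω)) (Y U) (Gen U) (cl U (S g)) ↔
      ((∀ x, Gen U x → EU U x (cl U (S g))) ∧
        (∀ a c, EU U a (cl U (S g)) → (∀ x, EU U x c ↔ Y U x ∧ ¬ EU U x a) →
          EU U c (cl U (S g))) ∧
        ∀ f c, IsFn (EU U) f (cl U (oN B ω)) → (∀ i a, Rel (EU U) f i a →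
          EU U a (cl U (S g))) → (∀ x, EU U x c ↔ ∃ i a, Rel (EU U) f i a ∧ EU U x a) →
          EU U c (cl U (S g))) := fun U g =>
    ⟨fun h => ⟨h.gen, h.compl, h.union⟩, fun h => ⟨h.1, h.2.1, h.2.2⟩⟩
  simp only [h]
  refine Df.and (Df.all (Df.imp (hGen.comp fun z : G × BSet B => z.2) (Df.mem _ _)))
    (Df.and (Df.all (Df.all (Df.imp (Df.mem _ _) (Df.imp (Df.all (Df.iff (Df.mem _ _)
      (Df.and ?_ (Df.not (Df.mem _ _))))) (Df.mem _ _)))))
      (Df.all (Df.all (Df.imp (Df.IsFn _ _) (Df.imp (Df.all (Df.all (Df.imp (Df.Rel _ _ _)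
        (Df.mem _ _)))) (Df.imp (Df.all (Df.iff (Df.mem _ _) (Df.ex (Df.ex
          (Df.and (Df.Rel _ _ _) (Df.mem _ _)))))) (Df.mem _ _)))))))
  exact hY.comp fun z : ((G × BSet B) × BSet B) × BSet B => z.2

theorem Df_isBor {Y Gen : ∀ U : Ult B, MU U → Prop}
    (hY : Df (G := BSet B) (fun U x => Y U (cl U x)))
    (hGen : Df (G := BSet B) (fun U x => Gen U (cl U x))) (A : G → BSet B) :
    Df (fun U g => IsBor (EU U) (cl U (oN B ω)) (Y U) (Gen U) (cl U (A g))) := by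
  unfold IsBor
  exact Df.all (Df.imp (Df_isSig hY hGen _) (Df.mem _ _))

/-- two functions with the same standard values have the same pairs -/
theorem b_funeq (v : ℕ → BSet B) (f : BSet B) (b : B)
    (hf : ∀ U : Ult B, b ∈ U.s → IsFn (EU U) (cl U f) (cl U (oN B ω)))
    (hv : ∀ U : Ult B, b ∈ U.s → ∀ (n : ℕ) (y : MU U),
      Rel (EU U) (cl U f) (cl U (oN B n)) y ↔ y = cl U (v n))
    (U : Ult B) (hU : b ∈ U.s) (i y : MU U) :
    Rel (EU U) (cl U f) i y ↔ Rel (EU U) (cl U (bseqN v)) i y := by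
  have key : ∀ i, EU U i (cl U (oN B ω)) → ∀ y, (Rel (EU U) (cl U f) i y ↔
      Rel (EU U) (cl U (bseqN v)) i y) := by
    intro i hi
    refine ball_omega (R := fun U i => ∀ y, (Rel (EU U) (cl U f) i y ↔
      Rel (EU U) (cl U (bseqN v)) i y)) (Df.all (Df.iff (Df.Rel _ _ _) (Df.Rel _ _ _))) b ?_
      U hU i hi
    intro V hV n y
    rw [hv V hV, rel_bseqN]
  constructor
  · intro h
    exact (key i ((hf U hU).dom (zfc U) h) y).1 h
  · intro h
    exact (key i ((isFn_bseqN v U).dom (zfc U) h) y).2 h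

namespace PSys

variable {K : Type} (D : PSys B K)

/-- the name of a set of ground model points -/
def g (A : Set K) : BSet B := bgN D.ck A

theorem beq_ne {p q : K} (h : p ≠ q) : beq (D.ck p) (D.ck q) = ⊥ := by
  by_contra hne
  obtain ⟨U, hU⟩ := exists_ult hne
  exact h (D.inj U p q (cl_eq.2 hU))

theorem mem_g (U : Ult B) (A : Set K) (p : K) :
    EU U (cl U (D.ck p)) (cl U (D.g A)) ↔ p ∈ A := by
  constructor
  · intro h
    by_contra hp
    rw [EU_cl, g, bgN, b_mem_fam] at h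
    apply U.bot
    refine U.mono ?_ h
    refine iSup_le fun q => ?_
    rw [D.beq_ne]
    rintro rfl
    exact hp q.2
  · intro h
    exact mem_famN' (I := A) (fun p => D.ck p.1) U ⟨p, h⟩

theorem ball_g (A : Set K) {R : ∀ U : Ult B, MU U → Prop}
    (hR : Df (G := BSet B) (fun U x => R U (cl U x))) (b : B)
    (hb : ∀ U : Ult B, b ∈ U.s → ∀ p ∈ A, R U (cl U (D.ck p)))
    (U : Ult B) (hU : b ∈ U.s) (y : MU U) (hy : EU U y (cl U (D.g A))) : R U y :=
  b_fam (I := A) (fun p => D.ck p.1) hR b (fun V hV p => hb V hV p.1 p.2) U hU y hy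

theorem g_Y (U : Ult B) (A : Set K) (y : MU U) (hy : EU U y (cl U (D.g A))) : D.Y U y :=
  D.ball_g A (R := D.Y) D.dY ⊤ (fun V _ p _ => D.ckY V p) U U.top y hy

theorem g_compl (U : Ult B) (A : Set K) (x : MU U) :
    EU U x (cl U (D.g Aᶜ)) ↔ D.Y U x ∧ ¬ EU U x (cl U (D.g A)) := by
  have key : ∀ x, D.Y U x → (EU U x (cl U (D.g Aᶜ)) ↔ ¬ EU U x (cl U (D.g A))) := by
    intro x hx
    refine D.pt (fun U x => (EU U x (cl U (D.g Aᶜ)) ↔ ¬ EU U x (cl U (D.g A))))
      (Df.iff (Df.mem _ _) (Df.not (Df.mem _ _))) ⊤ ?_ U U.top x hx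
    intro V _ p
    rw [D.mem_g, D.mem_g]
    exact Iff.rfl
  constructor
  · intro h
    have hY := D.g_Y U _ x h
    exact ⟨hY, (key x hY).1 h⟩
  · rintro ⟨hY, h⟩
    exact (key x hY).2 h

theorem g_iUnion (U : Ult B) (A : ℕ → Set K) (x : MU U) :
    EU U x (cl U (D.g (⋃ n, A n))) ↔
      ∃ i a, Rel (EU U) (cl U (bseqN fun n => D.g (A n))) i a ∧ EU U x a := by
  constructor
  · intro h
    refine D.ball_g _ (R := fun U x => ∃ i a, Rel (EU U) (cl U (bseqN fun n => D.g (A n))) i a ∧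
      EU U x a) (Df.ex (Df.ex (Df.and (Df.Rel _ _ _) (Df.mem _ _)))) ⊤ ?_ U U.top x h
    intro V _ p hp
    obtain ⟨n, hn⟩ := Set.mem_iUnion.1 hp
    exact ⟨cl V (oN B n), cl V (D.g (A n)), (rel_bseqN _ V n _).2 rfl, (D.mem_g V _ p).2 hn⟩
  · rintro ⟨i, a, hia, hxa⟩
    refine b_seqval (R := fun U a => ∀ x, EU U x a → EU U x (cl U (D.g (⋃ n, A n))))
      (Df.all (Df.imp (Df.mem _ _) (Df.mem _ _))) (bseqN fun n => D.g (A n)) ⊤
      (fun V _ => isFn_bseqN _ V) (fun V _ n y hy => ?_) U U.top i a hia x hxa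
    rw [rel_bseqN] at hy
    subst hy
    intro x hx
    refine D.ball_g _ (R := fun U x => EU U x (cl U (D.g (⋃ n, A n)))) (Df.mem _ _) ⊤ ?_ V V.top
      x hx
    intro W _ p hp
    exact (D.mem_g W _ p).2 (Set.mem_iUnion.2 ⟨n, hp⟩)

theorem eq_g (U : Ult B) (A : Set K) (c : MU U) {Q : MU U → Prop}
    (h1 : ∀ x, EU U x c ↔ Q x) (h2 : ∀ x, EU U x (cl U (D.g A)) ↔ Q x) : c = cl U (D.g A) :=
  EU_ext U _ _ fun z => by rw [h1, h2]

/-! ### Borel sets -/

/-- the generated ground model sigma-algebra -/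
def Gm (A : Set K) : Prop := MeasurableSpace.GenerateMeasurable (Set.range D.bas) A

/-- the name of the family of all Borel sets -/
def bo : BSet B := famN' (I := {A : Set K // D.Gm A}) (fun A => D.g A.1)

theorem mem_bo (U : Ult B) {A : Set K} (hA : D.Gm A) : EU U (cl U (D.g A)) (cl U D.bo) :=
  mem_famN' (I := {A : Set K // D.Gm A}) (fun A => D.g A.1) U ⟨A, hA⟩

theorem ball_bo {R : ∀ U : Ult B, MU U → Prop}
    (hR : Df (G := BSet B) (fun U x => R U (cl U x))) (b : B)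
    (hb : ∀ U : Ult B, b ∈ U.s → ∀ A, D.Gm A → R U (cl U (D.g A)))
    (U : Ult B) (hU : b ∈ U.s) (y : MU U) (hy : EU U y (cl U D.bo)) : R U y :=
  b_fam (I := {A : Set K // D.Gm A}) (fun A => D.g A.1) hR b
    (fun V hV A => hb V hV A.1 A.2) U hU y hy

theorem sig_bo (hB : OmegaDistributive B) (U : Ult B) :
    IsSig (EU U) (cl U (oN B ω)) (D.Y U) (D.Gen U) (cl U D.bo) where
  gen := fun x hx => by
    refine D.gen (fun U x => EU U x (cl U D.bo)) (Df.mem _ _) ⊤ (fun V _ j => ?_) U U.top x hx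
    exact D.mem_bo V (MeasurableSpace.GenerateMeasurable.basic _ ⟨j, rfl⟩)
  compl := fun a c ha hc => by
    refine D.ball_bo (R := fun U a => ∀ c, (∀ x, EU U x c ↔ D.Y U x ∧ ¬ EU U x a) →
      EU U c (cl U D.bo)) ?_ ⊤ (fun V _ A hA c hc => ?_) U U.top a ha c hc
    · refine Df.all (Df.imp (Df.all (Df.iff (Df.mem _ _) (Df.and ?_ (Df.not (Df.mem _ _)))))
        (Df.mem _ _))
      exact D.dY.comp fun z : (BSet B × BSet B) × BSet B => z.2
    · rw [D.eq_g V Aᶜ c hc (D.g_compl V A)]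
      exact D.mem_bo V (MeasurableSpace.GenerateMeasurable.compl _ hA)
  union := fun f c hf hfS hc => by
    obtain ⟨f, rfl⟩ := cl_surj U f
    obtain ⟨c, rfl⟩ := cl_surj U c
    obtain ⟨P, hP⟩ := b_get (B := B) (T := fun U => IsFn (EU U) (cl U f) (cl U (oN B ω)) ∧
      (∀ i a, Rel (EU U) (cl U f) i a → EU U a (cl U D.bo)) ∧
      ∀ x, EU U x (cl U c) ↔ ∃ i a, Rel (EU U) (cl U f) i a ∧ EU U x a)
      (Df.and (Df.IsFn _ _) (Df.and (Df.all (Df.all (Df.imp (Df.Rel _ _ _) (Df.mem _ _))))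
        (Df.all (Df.iff (Df.mem _ _) (Df.ex (Df.ex (Df.and (Df.Rel _ _ _) (Df.mem _ _))))))))
    refine b_fun hB (I := {A : Set K // D.Gm A}) (fun A => D.g A.1) f P (fun V hV => ?_)
      (T := fun U => EU U (cl U c) (cl U D.bo)) (Df.mem _ _) (fun h d hd hh V hV => ?_) U
      ((hP U).1 ⟨hf, hfS, hc⟩)
    · exact ⟨((hP V).2 hV).1, ((hP V).2 hV).2.1⟩
    · have h1 : cl V c = cl V (D.g (⋃ n, (h n).1)) := by
        refine D.eq_g V _ _ (fun x => ((hP V).2 (V.mono hd hV)).2.2 x) fun x => ?_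
        rw [D.g_iUnion]
        refine exists_congr fun i => exists_congr fun a => and_congr_left fun _ => ?_
        exact (b_funeq (fun n => D.g (h n).1) f d
          (fun W hW => ((hP W).2 (W.mono hd hW)).1) hh V hV i a).symm
      rw [h1]
      exact D.mem_bo V (MeasurableSpace.GenerateMeasurable.iUnion _ fun n => (h n).2)

/-- every Borel set of the two-valued model is locally a ground model Borel set -/
theorem bor_bo (hB : OmegaDistributive B) (U : Ult B) (A : MU U)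
    (hA : IsBor (EU U) (cl U (oN B ω)) (D.Y U) (D.Gen U) A) : EU U A (cl U D.bo) :=
  hA _ (D.sig_bo hB U)

/-- ground model Borel sets are Borel sets in the two-valued model -/
theorem bor_g (U : Ult B) {A : Set K} (hA : D.Gm A) :
    IsBor (EU U) (cl U (oN B ω)) (D.Y U) (D.Gen U) (cl U (D.g A)) := by
  intro S hS
  obtain ⟨S, rfl⟩ := cl_surj U S
  obtain ⟨P, hP⟩ := b_get (B := B)
    (T := fun U => IsSig (EU U) (cl U (oN B ω)) (D.Y U) (D.Gen U) (cl U S))
    (Df_isSig D.dY D.dGen _)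
  have hgen : ∀ j, ∀ V : Ult B, P ∈ V.s → EU V (cl V (D.g (D.bas j))) (cl V S) := fun j V hV =>
    ((hP V).2 hV).gen _ (D.genOf V j)
  have hcompl : ∀ A : Set K, (∀ V : Ult B, P ∈ V.s → EU V (cl V (D.g A)) (cl V S)) →
      ∀ V : Ult B, P ∈ V.s → EU V (cl V (D.g Aᶜ)) (cl V S) := fun A h V hV =>
    ((hP V).2 hV).compl _ _ (h V hV) (D.g_compl V A)
  have hunion : ∀ A : ℕ → Set K, (∀ n, ∀ V : Ult B, P ∈ V.s → EU V (cl V (D.g (A n))) (cl V S)) →
      ∀ V : Ult B, P ∈ V.s → EU V (cl V (D.g (⋃ n, A n))) (cl V S) := by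
    intro A h V hV
    refine ((hP V).2 hV).union (cl V (bseqN fun n => D.g (A n))) _ (isFn_bseqN _ V) ?_
      (D.g_iUnion V A)
    intro i a hia
    refine b_seqval (R := fun U a => EU U a (cl U S)) (Df.mem _ _) (bseqN fun n => D.g (A n)) P
      (fun W _ => isFn_bseqN _ W) (fun W hW n y hy => ?_) V hV i a hia
    rw [rel_bseqN] at hy
    rw [hy]
    exact h n W hW
  have hall : ∀ V : Ult B, P ∈ V.s → EU V (cl V (D.g A)) (cl V S) := by
    unfold Gm at hA
    induction hA with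
    | basic A hA =>
      obtain ⟨j, rfl⟩ := hA
      exact hgen j
    | empty =>
      have h1 : (∅ : Set K) = (⋃ n : ℕ, if n = 0 then D.bas D.j0 else (D.bas D.j0)ᶜ)ᶜ := by
        symm
        rw [Set.compl_empty_iff, Set.eq_univ_iff_forall]
        intro p
        rw [Set.mem_iUnion]
        by_cases hp : p ∈ D.bas D.j0
        · exact ⟨0, by simpa using hp⟩
        · exact ⟨1, by simpa using hp⟩
      rw [h1]
      refine hcompl _ (hunion _ fun n => ?_)
      by_cases hn : n = 0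
      · simp only [hn, if_true]
        exact hgen D.j0
      · simp only [hn, if_false]
        exact hcompl _ (hgen D.j0)
    | compl A _ ih => exact hcompl A ih
    | iUnion A _ ih => exact hunion A ih
  exact hall U ((hP U).1 hS)

end PSys

end

end Pool.Agent.G16
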