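import Pool.Agent.H46.BorelPow.RO
import Pool.Agent.H46.BorelPow.BVDefs

/-!
# Group G16: truth values for subsets of the Cantor space, and the statements of the forcing part

`B` is a complete Boolean algebra and `X : Pt → B` is a `B`-valued set of points of the Cantor
space.
-/

set_option autoImplicit false

open Set
open TopologicalSpace (Opens)
open Pool.Agent.H46.BorelPow (tv OmegaDistributive)

namespace Pool.Agent.G16

/-- the points of the Cantor space -/
abbrev Pt : Type := ℕ → Bool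

section

variable {B : Type} [CompleteBooleanAlgebra B]

/-- truth value of `X ⊆ U` -/
def vSub (X : Pt → B) (U : Set Pt) : B := ⨅ x, (X x ⇨ tv B (x ∈ U))

/-- truth value of `F ⊆ X` -/
def vFin (X : Pt → B) (F : Finset Pt) : B := ⨅ x ∈ F, X x

/-- truth value of `X ∩ U = X ∩ V` -/
def vSame (X : Pt → B) (U V : Set Pt) : B := ⨅ x, (X x ⇨ tv B (x ∈ U ↔ x ∈ V))

/-- truth value of: the family with members `G i ∩ X` (with truth value `b i`) is an omega-cover
of `X`, that is `X` is no member and every finite subset of `X` is contained in a member -/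
def vOm (X : Pt → B) {I : Type} (G : I → Set Pt) (b : I → B) : B :=
  (⨅ i, (b i ⇨ (vSub X (G i))ᶜ)) ⊓
    ⨅ F : Finset Pt, (vFin X F ⇨ ⨆ i, (b i ⊓ tv B ((↑F : Set Pt) ⊆ G i)))

/-- truth value of: the family of the sets `c n ∩ X` is a cover of `X` -/
def vCov (X : Pt → B) (c : ℕ → Set Pt) : B := (⨅ n, (vSub X (c n))ᶜ) ⊓ vSub X (⋃ n, c n)

/-- the union of the `k`-th block of the sequence `c` for the block function `β` -/
def blk (c : ℕ → Set Pt) (β : ℕ → ℕ) (k : ℕ) : Set Pt := ⋃ n ∈ {n | β n = k}, c n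

/-- block functions: surjective and finite-to-one -/
def BlockFn : Type := {β : ℕ → ℕ // Function.Surjective β ∧ ∀ k, {n | β n = k}.Finite}

/-- a truth value which implies that the family of the sets `c n ∩ X` is omega-groupable -/
def vGp (X : Pt → B) (c : ℕ → Set Pt) : B :=
  vCov X c ⊓ (⨅ n, ⨅ m, ⨅ _ : n ≠ m, (vSame X (c n) (c m))ᶜ) ⊓
    ⨆ β : BlockFn, ((⨅ k, vSub X (blk c β.1 k)) ⊔ vOm X (blk c β.1) (fun _ => ⊤))

/-- the result of the forcing part for MP_ef066b -/
structure FrcO (X : Pt → B) : Prop where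
  dist : OmegaDistributive B
  gp : ∀ 𝒰 : ℕ → Opens Pt → B, (⨅ n, vOm X (fun O : Opens Pt => (O : Set Pt)) (𝒰 n)) ≤
    ⨆ c : ℕ → Opens Pt, ((⨅ n, 𝒰 n (c n)) ⊓ vGp X (fun n => (c n : Set Pt)))
  neg : ∃ Sm : ℕ → Opens Pt → Prop,
    (∀ n, vOm X (fun O : Opens Pt => (O : Set Pt)) (fun O => tv B (Sm n O)) = ⊤) ∧
    ∀ c : ℕ → Opens Pt, (∀ n, Sm n (c n)) →
      vOm X (fun n => (c n : Set Pt)) (fun _ : ℕ => (⊤ : B)) = ⊥

end

/-- the statement of the forcing part for MP_ef066b -/
def FrcOSt : Prop := ∃ (B : Type) (_ : CompleteBooleanAlgebra B) (X : Pt → B),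
  (⊥ : B) ≠ ⊤ ∧ FrcO X

end Pool.Agent.G16
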