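import Pool.Agent.H46.BorelPow.BVCore
import Pool.Agent.G16.Bv

/-!
# Group G16: the forcing part for MP_b4c787 on the Cantor space

The result of `Pool.Agent.H46.BorelPow` is carried from the real line to `Pt = ℕ → Bool` by a
Borel isomorphism.
-/

set_option autoImplicit false

open Pool.Agent.H46.BorelPow

namespace Pool.Agent.G16

section

variable {B : Type} [CompleteBooleanAlgebra B] {α β : Type}

/-- the square of `X` -/
def bvSq (X : Pt → B) (p : Pt × Pt) : B := X p.1 ⊓ X p.2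

theorem bf_sub (e : α ≃ β) (X : α → B) (Y : β → B) (h : ∀ a, Y (e a) = X a) (U : Set β) :
    bvSubset Y U = bvSubset X (e ⁻¹' U) := by
  unfold bvSubset
  rw [← e.iInf_comp]
  refine iInf_congr fun a => ?_
  rw [h]
  rfl

theorem bf_cov (e : α ≃ β) (X : α → B) (Y : β → B) (h : ∀ a, Y (e a) = X a) (V : ℕ → Set β) :
    bvCover Y V = bvCover X (fun m => e ⁻¹' V m) := by
  unfold bvCover
  rw [bf_sub e X Y h, Set.preimage_iUnion]
  congr 1
  exact iInf_congr fun m => by rw [bf_sub e X Y h]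

theorem bf_om (e : α ≃ β) (X : α → B) (Y : β → B) (h : ∀ a, Y (e a) = X a) (V : ℕ → Set β) :
    bvOmegaCover Y V = bvOmegaCover X (fun m => e ⁻¹' V m) := by
  classical
  unfold bvOmegaCover
  rw [bf_cov e X Y h, ← (Equiv.finsetCongr e).iInf_comp]
  congr 1
  refine iInf_congr fun F => ?_
  have h1 : (⨅ x ∈ Equiv.finsetCongr e F, Y x) = ⨅ x ∈ F, X x := by
    rw [← e.iInf_comp]
    refine iInf_congr fun a => ?_
    rw [h]
    have : e a ∈ Equiv.finsetCongr e F ↔ a ∈ F := by simp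
    rw [iInf_congr_Prop this fun _ => rfl]
  rw [h1]
  congr 2
  apply propext
  refine exists_congr fun m => ?_
  constructor
  · intro h2 a ha
    exact h2 (by simpa using ha)
  · intro h2 b hb
    have hb' : e.symm b ∈ F := by simpa using hb
    have h3 : e (e.symm b) ∈ V m := h2 hb'
    rwa [e.apply_symm_apply] at h3

theorem bf_s1 [MeasurableSpace α] [MeasurableSpace β] (e : α ≃ᵐ β)
    (A : (ℕ → Set α) → B) (A' : (ℕ → Set β) → B) (h : ∀ V, A' V = A (fun m => e ⁻¹' V m)) :
    bvS1 A' = bvS1 A := by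
  unfold bvS1
  apply le_antisymm
  · refine le_iInf fun 𝒰 => ?_
    refine (iInf_le _ ⟨fun n m => e.symm ⁻¹' 𝒰.1 n m, fun n m =>
      e.symm.measurable (𝒰.2 n m)⟩).trans (le_of_eq ?_)
    have h1 : ∀ U : Set α, e ⁻¹' (e.symm ⁻¹' U) = U := fun U => by
      ext a
      simp
    simp only [h, h1]
  · refine le_iInf fun 𝒰 => ?_
    refine (iInf_le _ ⟨fun n m => e ⁻¹' 𝒰.1 n m, fun n m =>
      e.measurable (𝒰.2 n m)⟩).trans (le_of_eq ?_)
    simp only [h]

/-- the result of the forcing part for MP_b4c787 -/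
structure FrcB (X : Pt → B) : Prop where
  dist : OmegaDistributive B
  pos : bvS1 (bvOmegaCover X) = ⊤
  neg : bvS1 (bvCover (bvSq X)) = ⊥

end

theorem frcB : ∃ (B : Type) (_ : CompleteBooleanAlgebra B) (X : Pt → B), (⊥ : B) ≠ ⊤ ∧
    FrcB X := by
  obtain ⟨B, inst, hnt, hd, X, hX1, hX2⟩ := bv_main
  have hPt : ¬ Countable Pt := by
    intro h
    have h1 : Cardinal.mk Pt ≤ Cardinal.aleph0 := Cardinal.mk_le_aleph0_iff.2 h
    have h2 : Cardinal.mk Pt = Cardinal.continuum := by
      rw [show Cardinal.mk Pt = Cardinal.mk (ℕ → Bool) from rfl, ← Cardinal.power_def,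
        Cardinal.mk_bool, Cardinal.mk_nat, Cardinal.two_power_aleph0]
    rw [h2] at h1
    exact absurd h1 (not_le.2 Cardinal.aleph0_lt_continuum)
  have hR : ¬ Countable ℝ := by
    intro h
    exact not_countable (α := ℝ) h
  let e : ℝ ≃ᵐ Pt := PolishSpace.measurableEquivOfNotCountable hR hPt
  let e2 : (Fin 2 → ℝ) ≃ᵐ Pt × Pt := MeasurableEquiv.finTwoArrow.trans (e.prodCongr e)
  refine ⟨B, inst, fun x => X (e.symm x), bot_ne_top, hd, ?_, ?_⟩
  · rw [← hX1]
    exact bf_s1 e (bvOmegaCover X) _ (fun V => bf_om e.toEquiv X _ (fun a => by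
      show X (e.symm (e a)) = X a
      rw [e.symm_apply_apply]) V)
  · rw [← hX2 2 le_rfl]
    refine bf_s1 e2 (bvCover (bvPower X 2)) _ (fun V => bf_cov e2.toEquiv (bvPower X 2) _
      (fun v => ?_) V)
    show X (e.symm (e (v 0))) ⊓ X (e.symm (e (v 1))) = ⨅ i, X (v i)
    rw [e.symm_apply_apply, e.symm_apply_apply]
    apply le_antisymm
    · refine le_iInf fun i => ?_
      fin_cases i
      · exact inf_le_left
      · exact inf_le_right
    · exact le_inf (iInf_le _ 0) (iInf_le _ 1)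

end Pool.Agent.G16
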