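import Pool.Agent.CI.Model

/-!
# Group G16: the notions of MP_ef066b inside a model of set theory

`M` is a type, `E x y` means: `x` is an element of `y`; `w` is the set of natural numbers of `M`.
The Cantor space is `P(w)` with the topology generated by the cylinders `{x ⊆ w | x ∩ n = a}`; `X`
is a subset of `P(w)`.
-/

set_option autoImplicit false

namespace Pool.Agent.G16

open CI

section

universe u

variable {M : Type u} (E : M → M → Prop)

/-- `F` is a finite set: the range of a function whose domain is a natural number -/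
def IsFinite (w F : M) : Prop := ∃ n f, E n w ∧ IsFn E f n ∧ ∀ y, E y F ↔ ∃ i, Rel E f i y

/-- `u` is an open subset of the subspace `X` of the Cantor space `P(w)` -/
def OpnIn (w X u : M) : Prop := ∃ O, IsOpn E w O ∧ ∀ x, E x u ↔ E x X ∧ E x O

/-- the union of the family `A` contains `X` -/
def Covers (X A : M) : Prop := ∀ x, E x X → ∃ u, E u A ∧ E x u

/-- `A` is an open cover of `X`; by convention `X` is no member of `A` -/
def IsOpenCover (w X A : M) : Prop :=
  (∀ u, E u A → OpnIn E w X u) ∧ ¬ E X A ∧ Covers E X A

/-- `A` is an open omega-cover of `X`: every finite subset of `X` is contained in a member of `A`;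
by convention `X` is no member of `A` -/
def IsOmegaCover (w X A : M) : Prop :=
  (∀ u, E u A → OpnIn E w X u) ∧ ¬ E X A ∧
    ∀ F, IsFinite E w F → Sub E F X → ∃ u, E u A ∧ Sub E F u

/-- `P` is a partition of `A` into finite sets, indexed by the natural numbers: a function with
domain `w` whose values are nonempty finite sets, pairwise disjoint, with union `A` -/
def IsPartition (w A P : M) : Prop :=
  IsFn E P w ∧ (∀ n v, Rel E P n v → IsFinite E w v ∧ ∃ u, E u v) ∧
    (∀ n m v v' u, Rel E P n v → Rel E P m v' → n ≠ m → ¬ (E u v ∧ E u v')) ∧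
      ∀ u, E u A ↔ ∃ n v, Rel E P n v ∧ E u v

/-- `A` can be partitioned into infinitely many finite covers of `X` -/
def Multifinite (w X A : M) : Prop :=
  ∃ P, IsPartition E w A P ∧ ∀ n v, Rel E P n v → Covers E X v

/-- `s` is the union of `v` -/
def IsUnion (s v : M) : Prop := ∀ x, E x s ↔ ∃ u, E u v ∧ E x u

/-- there is a partition of `A` into finite sets whose unions form an omega-cover of `X` -/
def Groups (w X A : M) : Prop :=
  ∃ P, IsPartition E w A P ∧ ∃ C, (∀ s, E s C ↔ ∃ n v, Rel E P n v ∧ IsUnion E s v) ∧
    IsOmegaCover E w X C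

/-- `A` is an omega-groupable open cover of `X` -/
def IsGpCover (w X A : M) : Prop :=
  IsOpenCover E w X A ∧ (Multifinite E w X A ∨ Groups E w X A)

/-- the selection principle: for every sequence `S` of families with the property `P` there is a
sequence `c` with `c n ∈ S n` for all `n`, such that the set of its terms has the property `Q` -/
def S1 (w : M) (P Q : M → Prop) : Prop :=
  ∀ S, IsFn E S w → (∀ n A, Rel E S n A → P A) →
    ∃ c, IsFn E c w ∧ (∀ n A u, Rel E S n A → Rel E c n u → E u A) ∧
      ∃ R, (∀ u, E u R ↔ ∃ n, Rel E c n u) ∧ Q R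

end

/-- the final statement for MP_ef066b: there is a model of ZFC in which some subset `X` of the
Cantor space satisfies `S₁(Ω, 𝒪^{ω-gp})` but not `S₁(Ω, Ω)` -/
def FinalO : Prop := ∃ (M : Type 1) (E : M → M → Prop), ZFC E ∧ ∃ w X : M, IsOmega E w ∧
  (∀ x, E x X → Sub E x w) ∧ S1 E w (IsOmegaCover E w X) (IsGpCover E w X) ∧
    ¬ S1 E w (IsOmegaCover E w X) (IsOmegaCover E w X)

end Pool.Agent.G16
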