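import Pool.Agent.CI.T.Fam
import Pool.Agent.G16.Int
import Pool.Agent.G16.Bv

/-!
# Group G16: names of ground model points, families and sequences
-/

set_option autoImplicit false

open CI Ordinal
open CI.BSet (beq bmem beq_refl beq_symm tv_le_bmem)
open Pool.Agent.H46.BorelPow (tv OmegaDistributive)

namespace Pool.Agent.G16

universe u v

/-! ### the notions have truth values -/

section

variable {B : Type u} [CompleteBooleanAlgebra B] {G : Type v}

theorem dfIsFinite (w F : G → BSet B) :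
    Df (fun U g => IsFinite (EU U) (cl U (w g)) (cl U (F g))) := by
  unfold IsFinite
  exact Df.ex (Df.ex (Df.and (Df.mem _ _) (Df.and (Df.IsFn _ _)
    (Df.all (Df.iff (Df.mem _ _) (Df.ex (Df.Rel _ _ _)))))))

theorem dfOpnIn (w X y : G → BSet B) :
    Df (fun U g => OpnIn (EU U) (cl U (w g)) (cl U (X g)) (cl U (y g))) := by
  unfold OpnIn
  exact Df.ex (Df.and (Df.IsOpn _ _) (Df.all (Df.iff (Df.mem _ _)
    (Df.and (Df.mem _ _) (Df.mem _ _)))))

theorem dfCovers (X A : G → BSet B) :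
    Df (fun U g => Covers (EU U) (cl U (X g)) (cl U (A g))) := by
  unfold Covers
  exact Df.all (Df.imp (Df.mem _ _) (Df.ex (Df.and (Df.mem _ _) (Df.mem _ _))))

theorem dfIsOpenCover (w X A : G → BSet B) :
    Df (fun U g => IsOpenCover (EU U) (cl U (w g)) (cl U (X g)) (cl U (A g))) := by
  unfold IsOpenCover
  exact Df.and (Df.all (Df.imp (Df.mem _ _) (dfOpnIn _ _ _))) (Df.and (Df.not (Df.mem _ _))
    (dfCovers _ _))

theorem dfIsOmegaCover (w X A : G → BSet B) :
    Df (fun U g => IsOmegaCover (EU U) (cl U (w g)) (cl U (X g)) (cl U (A g))) := by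
  unfold IsOmegaCover
  exact Df.and (Df.all (Df.imp (Df.mem _ _) (dfOpnIn _ _ _))) (Df.and (Df.not (Df.mem _ _))
    (Df.all (Df.imp (dfIsFinite _ _) (Df.imp (Df.Sub _ _) (Df.ex (Df.and (Df.mem _ _)
      (Df.Sub _ _)))))))

theorem dfIsPartition (w A P : G → BSet B) :
    Df (fun U g => IsPartition (EU U) (cl U (w g)) (cl U (A g)) (cl U (P g))) := by
  unfold IsPartition
  refine Df.and (Df.IsFn _ _) (Df.and ?_ (Df.and ?_ ?_))
  · exact Df.all (Df.all (Df.imp (Df.Rel _ _ _) (Df.and (dfIsFinite _ _)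
      (Df.ex (Df.mem _ _)))))
  · exact Df.all (Df.all (Df.all (Df.all (Df.all (Df.imp (Df.Rel _ _ _) (Df.imp (Df.Rel _ _ _)
      (Df.imp (Df.not (Df.eq _ _)) (Df.not (Df.and (Df.mem _ _) (Df.mem _ _))))))))))
  · exact Df.all (Df.iff (Df.mem _ _) (Df.ex (Df.ex (Df.and (Df.Rel _ _ _) (Df.mem _ _)))))

theorem dfMultifinite (w X A : G → BSet B) :
    Df (fun U g => Multifinite (EU U) (cl U (w g)) (cl U (X g)) (cl U (A g))) := by
  unfold Multifinite
  exact Df.ex (Df.and (dfIsPartition _ _ _) (Df.all (Df.all (Df.imp (Df.Rel _ _ _)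
    (dfCovers _ _)))))

theorem dfIsUnion (s v : G → BSet B) :
    Df (fun U g => IsUnion (EU U) (cl U (s g)) (cl U (v g))) := by
  unfold IsUnion
  exact Df.all (Df.iff (Df.mem _ _) (Df.ex (Df.and (Df.mem _ _) (Df.mem _ _))))

theorem dfGroups (w X A : G → BSet B) :
    Df (fun U g => Groups (EU U) (cl U (w g)) (cl U (X g)) (cl U (A g))) := by
  unfold Groups
  exact Df.ex (Df.and (dfIsPartition _ _ _) (Df.ex (Df.and (Df.all (Df.iff (Df.mem _ _)
    (Df.ex (Df.ex (Df.and (Df.Rel _ _ _) (dfIsUnion _ _)))))) (dfIsOmegaCover _ _ _))))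

theorem dfIsGpCover (w X A : G → BSet B) :
    Df (fun U g => IsGpCover (EU U) (cl U (w g)) (cl U (X g)) (cl U (A g))) := by
  unfold IsGpCover
  exact Df.and (dfIsOpenCover _ _ _) (Df.or (dfMultifinite _ _ _) (dfGroups _ _ _))

/-! ### induction principles -/

/-- if `d ≤ ⨆ i, e i` and `T` holds for all ultrafilters which contain `d` and some `e i`, then `T`
holds for all ultrafilters which contain `d` -/
theorem sup_ind {T : Ult B → Prop} (h : Df (G := Unit) (fun U _ => T U)) {ι : Type*} (e : ι → B)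
    (d : B) (hd : d ≤ ⨆ i, e i) (hi : ∀ (i : ι) (U : Ult B), d ∈ U.s → e i ∈ U.s → T U)
    (U : Ult B) (hU : d ∈ U.s) : T U := by
  obtain ⟨P, hP⟩ := Df.get h
  rw [hP U]
  refine U.mono ?_ hU
  have h1 : d ≤ d ⊓ ⨆ i, e i := le_inf le_rfl hd
  refine h1.trans ?_
  rw [inf_iSup_eq]
  refine iSup_le fun i => ?_
  rw [le_iff_ult]
  intro V hV
  rw [V.inf] at hV
  exact (hP V).1 (hi i V hV.1 hV.2)

/-- bounded quantifiers over a name -/
theorem ball_mk {R : ∀ U : Ult B, MU U → Prop} (h : Df (G := BSet B) (fun U x => R U (cl U x)))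
    {I : Type u} (w : I → BSet B) (b : I → B) (d : B)
    (hd : ∀ U : Ult B, d ∈ U.s → ∀ i, b i ∈ U.s → R U (cl U (w i)))
    (U : Ult B) (hU : d ∈ U.s) (y : MU U) (hy : EU U y (cl U (BSet.mk I w b))) : R U y := by
  obtain ⟨y, rfl⟩ := cl_surj U y
  refine sup_ind (T := fun V => R V (cl V y)) (h.comp (fun _ => y))
    (fun i => b i ⊓ beq y (w i)) (d ⊓ bmem y (BSet.mk I w b)) inf_le_right ?_ U
    ((U.inf _ _).2 ⟨hU, hy⟩)
  intro i V hV hi
  rw [V.inf] at hV hi
  rw [cl_eq.2 hi.2]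
  exact hd V hV.1 i hi.1

theorem mem_mk {I : Type u} (w : I → BSet B) (b : I → B) (U : Ult B) (i : I) (h : b i ∈ U.s) :
    EU U (cl U (w i)) (cl U (BSet.mk I w b)) :=
  U.mono (tv_le_bmem (BSet.mk I w b) i) h

/-- two subsets of `ω` with the same standard elements are equal -/
theorem eq_of_nat (d : B) (a b : BSet B)
    (ha : ∀ U : Ult B, d ∈ U.s → Sub (EU U) (cl U a) (cl U (oN B ω)))
    (hb : ∀ U : Ult B, d ∈ U.s → Sub (EU U) (cl U b) (cl U (oN B ω)))
    (h : ∀ U : Ult B, d ∈ U.s → ∀ n : ℕ,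
      (EU U (cl U (oN B n)) (cl U a) ↔ EU U (cl U (oN B n)) (cl U b)))
    (U : Ult B) (hU : d ∈ U.s) : cl U a = cl U b := by
  apply EU_ext
  intro z
  have key : ∀ z, EU U z (cl U (oN B ω)) → (EU U z (cl U a) ↔ EU U z (cl U b)) := by
    intro z hz
    exact ball_omega (R := fun U z => (EU U z (cl U a) ↔ EU U z (cl U b)))
      (Df.iff (Df.mem _ _) (Df.mem _ _)) d h U hU z hz
  constructor
  · intro hz
    exact (key z (ha U hU z hz)).1 hz
  · intro hz
    exact (key z (hb U hU z hz)).2 hz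

end

section

variable {B : Type} [CompleteBooleanAlgebra B]

theorem tv_mem (U : Ult B) (P : Prop) : tv B P ∈ U.s ↔ P := by
  by_cases h : P
  · simp [tv, h, U.top]
  · simp [tv, h, U.bot]

/-- the countable induction principle -/
theorem seq_ind (hD : OmegaDistributive B) {T : Ult B → Prop}
    (h : Df (G := Unit) (fun U _ => T U)) {ι : Type} (e : ℕ → ι → B) (d : B)
    (hd : ∀ n, d ≤ ⨆ i, e n i)
    (hf : ∀ (f : ℕ → ι) (U : Ult B), d ∈ U.s → (⨅ n, e n (f n)) ∈ U.s → T U)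
    (U : Ult B) (hU : d ∈ U.s) : T U :=
  sup_ind h (fun f : ℕ → ι => ⨅ n, e n (f n)) d (by rw [← hD]; exact le_iInf hd) hf U hU

/-! ### names of points -/

/-- the name of a ground model point -/
noncomputable def ck (B : Type) [CompleteBooleanAlgebra B] (p : Pt) : BSet B :=
  rN (fun n => tv B (p n = true))

theorem nat_mem_ck (U : Ult B) (p : Pt) (n : ℕ) :
    EU U (cl U (oN B n)) (cl U (ck B p)) ↔ p n = true := by
  rw [ck, mem_rN, tv_mem]

theorem ck_sub (U : Ult B) (p : Pt) : Sub (EU U) (cl U (ck B p)) (cl U (oN B ω)) := rN_sub U _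

theorem ck_inj (U : Ult B) {p q : Pt} : cl U (ck B p) = cl U (ck B q) ↔ p = q := by
  constructor
  · intro h
    funext n
    have h1 := nat_mem_ck U p n
    rw [h, nat_mem_ck] at h1
    cases hp : p n <;> cases hq : q n <;> simp_all
  · rintro rfl; rfl

theorem beq_ck_ne {p q : Pt} (h : p ≠ q) : beq (ck B p) (ck B q) = ⊥ := by
  by_contra hb
  obtain ⟨U, hU⟩ := exists_ult hb
  exact h ((ck_inj U).1 (cl_eq.2 hU))

/-- every subset of `ω` is locally a ground model point -/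
theorem ball_pt (hD : OmegaDistributive B) {R : ∀ U : Ult B, MU U → Prop}
    (h : Df (G := BSet B) (fun U x => R U (cl U x))) (d : B)
    (hd : ∀ U : Ult B, d ∈ U.s → ∀ p : Pt, R U (cl U (ck B p)))
    (U : Ult B) (hU : d ∈ U.s) (y : MU U) (hy : Sub (EU U) y (cl U (oN B ω))) : R U y := by
  obtain ⟨x, rfl⟩ := exists_rN U y hy
  refine seq_ind hD (T := fun V => R V (cl V (rN x))) (h.comp (fun _ => rN x)) (ι := Bool)
    (fun n i => if i = true then x n else (x n)ᶜ) d ?_ ?_ U hU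
  · intro n
    refine le_top.trans ?_
    rw [← sup_compl_eq_top (x := x n)]
    refine sup_le ?_ ?_
    · exact le_iSup_of_le true (by simp)
    · exact le_iSup_of_le false (by simp)
  · intro p V hV hp
    have h1 : cl V (rN x) = cl V (ck B p) := by
      refine eq_of_nat (⨅ n, if p n = true then x n else (x n)ᶜ) _ _ (fun W _ => rN_sub W _)
        (fun W _ => ck_sub W p) ?_ V hp
      intro W hW n
      rw [mem_rN, nat_mem_ck]
      have h2 := W.mono (iInf_le (fun n => if p n = true then x n else (x n)ᶜ) n) hW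
      by_cases h3 : p n = true
      · simp only [h3, if_true] at h2
        exact ⟨fun _ => h3, fun _ => h2⟩
      · simp only [h3] at h2
        rw [if_neg (by simp), W.compl] at h2
        exact ⟨fun h => absurd h h2, fun h => absurd h h3⟩
    rw [h1]
    exact hd V hV p

/-! ### names of sets of points -/

/-- the name of a set of points -/
noncomputable def ptN (Y : Pt → B) : BSet B := BSet.mk Pt (ck B) Y

theorem mem_ptN (Y : Pt → B) (U : Ult B) (p : Pt) :
    EU U (cl U (ck B p)) (cl U (ptN Y)) ↔ Y p ∈ U.s := by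
  constructor
  · intro h
    have h1 : bmem (ck B p) (ptN Y) = Y p := by
      apply le_antisymm
      · refine iSup_le fun q => ?_
        change Y q ⊓ beq (ck B p) (ck B q) ≤ _
        by_cases hpq : p = q
        · subst hpq; exact inf_le_left
        · rw [beq_ck_ne hpq]; simp
      · exact tv_le_bmem (ptN Y) p
    rw [← h1]
    exact h
  · intro h
    exact mem_mk (ck B) Y U p h

/-- bounded quantifiers over a set of points -/
theorem ball_ptN {R : ∀ U : Ult B, MU U → Prop} (h : Df (G := BSet B) (fun U x => R U (cl U x)))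
    (Y : Pt → B) (d : B) (hd : ∀ U : Ult B, d ∈ U.s → ∀ p, Y p ∈ U.s → R U (cl U (ck B p)))
    (U : Ult B) (hU : d ∈ U.s) (y : MU U) (hy : EU U y (cl U (ptN Y))) : R U y :=
  ball_mk h (ck B) Y d hd U hU y hy

theorem ptN_sub (Y : Pt → B) (U : Ult B) (y : MU U) (hy : EU U y (cl U (ptN Y))) :
    Sub (EU U) y (cl U (oN B ω)) :=
  ball_ptN (R := fun U y => Sub (EU U) y (cl U (oN B ω))) (Df.Sub _ _) Y ⊤
    (fun U _ p _ => ck_sub U p) U U.top y hy

theorem sub_ptN (Y Z : Pt → B) (U : Ult B) :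
    Sub (EU U) (cl U (ptN Y)) (cl U (ptN Z)) ↔ (⨅ p, (Y p ⇨ Z p)) ∈ U.s := by
  constructor
  · intro h
    obtain ⟨e, he⟩ := Df.get (B := B) (P' := fun U => Sub (EU U) (cl U (ptN Y)) (cl U (ptN Z)))
      (Df.Sub _ _)
    refine U.mono (le_iInf fun p => ?_) ((he U).1 h)
    rw [le_himp_iff, le_iff_ult]
    intro V hV
    rw [V.inf] at hV
    rw [← mem_ptN Z V p]
    exact (he V).2 hV.1 _ ((mem_ptN Y V p).2 hV.2)
  · intro h y hy
    refine ball_ptN (R := fun U y => EU U y (cl U (ptN Z))) (Df.mem _ _) Y (⨅ p, (Y p ⇨ Z p)) ?_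
      U h y hy
    intro V hV p hp
    rw [mem_ptN]
    have h1 := V.mono (iInf_le _ p) hV
    rw [V.himp] at h1
    exact h1 hp

theorem eq_ptN (Y Z : Pt → B) (U : Ult B) :
    cl U (ptN Y) = cl U (ptN Z) ↔ (⨅ p, (Y p ⇨ Z p)) ∈ U.s ∧ (⨅ p, (Z p ⇨ Y p)) ∈ U.s := by
  rw [← sub_ptN, ← sub_ptN]
  constructor
  · intro h
    rw [h]
    exact ⟨fun _ h => h, fun _ h => h⟩
  · rintro ⟨h1, h2⟩
    apply EU_ext
    intro z
    exact ⟨h1 z, h2 z⟩

/-- the name of a ground model set of points -/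
noncomputable def gN (B : Type) [CompleteBooleanAlgebra B] (G : Set Pt) : BSet B :=
  ptN (fun p => tv B (p ∈ G))

theorem mem_gN (G : Set Pt) (U : Ult B) (p : Pt) :
    EU U (cl U (ck B p)) (cl U (gN B G)) ↔ p ∈ G := by
  rw [gN, mem_ptN, tv_mem]

/-- the name of the trace of a ground model set `G` on `X` -/
noncomputable def trN (X : Pt → B) (G : Set Pt) : BSet B :=
  ptN (fun p => X p ⊓ tv B (p ∈ G))

theorem mem_trN' (X : Pt → B) (G : Set Pt) (U : Ult B) (p : Pt) :
    EU U (cl U (ck B p)) (cl U (trN X G)) ↔ X p ∈ U.s ∧ p ∈ G := by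
  rw [trN, mem_ptN, U.inf, tv_mem]

/-- the trace is the intersection -/
theorem mem_trN (X : Pt → B) (G : Set Pt) (U : Ult B) (y : MU U) :
    EU U y (cl U (trN X G)) ↔ EU U y (cl U (ptN X)) ∧ EU U y (cl U (gN B G)) := by
  constructor
  · intro h
    refine ball_ptN (R := fun U y => EU U y (cl U (ptN X)) ∧ EU U y (cl U (gN B G)))
      (Df.and (Df.mem _ _) (Df.mem _ _)) _ ⊤ ?_ U U.top y h
    intro V _ p hp
    rw [V.inf, tv_mem] at hp
    exact ⟨(mem_ptN X V p).2 hp.1, (mem_gN G V p).2 hp.2⟩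
  · rintro ⟨h1, h2⟩
    refine ball_ptN (R := fun U y => EU U y (cl U (gN B G)) → EU U y (cl U (trN X G)))
      (Df.imp (Df.mem _ _) (Df.mem _ _)) X ⊤ ?_ U U.top y h1 h2
    intro V _ p hp h3
    rw [mem_gN] at h3
    exact (mem_trN' X G V p).2 ⟨hp, h3⟩

/-! ### families -/

/-- the name of a family indexed by a ground model type -/
noncomputable def fam {I : Type} (w : I → BSet B) (b : I → B) : BSet B := BSet.mk I w b

/-- finite families -/
theorem mem_fam_fin {I : Type} (w : I → BSet B) (T : Finset I) (U : Ult B) (y : MU U) :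
    EU U y (cl U (fam w (fun i => tv B (i ∈ T)))) ↔ ∃ i ∈ T, y = cl U (w i) := by
  classical
  obtain ⟨y, rfl⟩ := cl_surj U y
  rw [EU_cl]
  have h : bmem y (fam w (fun i => tv B (i ∈ T))) = T.sup (fun i => beq y (w i)) := by
    rw [Finset.sup_eq_iSup]
    change (⨆ i, tv B (i ∈ T) ⊓ beq y (w i)) = _
    refine iSup_congr fun i => ?_
    by_cases h : i ∈ T
    · simp [tv, h]
    · simp [tv, h]
  rw [h, U.finset_sup]
  simp only [cl_eq]

/-- finite families are finite sets of the model -/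
theorem isFinite_fam {I : Type} (w : I → BSet B) (T : Finset I) (U : Ult B) :
    IsFinite (EU U) (cl U (oN B ω)) (cl U (fam w (fun i => tv B (i ∈ T)))) := by
  classical
  let e := T.equivFin.symm
  let f : BSet B := relN (I := Fin T.card) (fun _ => ⊤) (fun j => oN B ((j : ℕ) : Ordinal))
    (fun j => w (e j))
  have hrel : ∀ x y : MU U, Rel (EU U) (cl U f) x y ↔
      ∃ j : Fin T.card, x = cl U (oN B ((j : ℕ) : Ordinal)) ∧ y = cl U (w (e j)) := by
    intro x y
    obtain ⟨x, rfl⟩ := cl_surj U x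
    obtain ⟨y, rfl⟩ := cl_surj U y
    rw [rel_relN, U.iSup_fin]
    simp only [top_inf_eq, U.inf, cl_eq]
  refine ⟨cl U (oN B (T.card : Ordinal)), cl U f, nat_mem_omega U _, ⟨?_, ?_⟩, ?_⟩
  · intro p hp
    obtain ⟨s, t, rfl, h⟩ := mem_relN U _ _ _ p hp
    rw [← rel_relN, hrel] at h
    obtain ⟨j, hj, -⟩ := h
    exact ⟨cl U s, cl U t, by rw [hj, EU_oN, Nat.cast_lt]; exact j.2, isPair_opN U s t⟩
  · intro x hx
    obtain ⟨m, hm, rfl⟩ := (EU_nat U _ x).1 hx
    refine ⟨cl U (w (e ⟨m, hm⟩)), (hrel _ _).2 ⟨⟨m, hm⟩, rfl, rfl⟩, ?_⟩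
    intro y hy
    obtain ⟨j, hj, rfl⟩ := (hrel _ _).1 hy
    rw [nat_inj] at hj
    have : (⟨m, hm⟩ : Fin T.card) = j := Fin.ext hj
    rw [this]
  · intro y
    rw [mem_fam_fin]
    constructor
    · rintro ⟨i, hi, rfl⟩
      refine ⟨cl U (oN B (((e.symm ⟨i, hi⟩ : Fin T.card) : ℕ) : Ordinal)),
        (hrel _ _).2 ⟨e.symm ⟨i, hi⟩, rfl, ?_⟩⟩
      rw [e.apply_symm_apply]
    · rintro ⟨i, hi⟩
      obtain ⟨j, -, rfl⟩ := (hrel _ _).1 hi
      exact ⟨e j, (e j).2, rfl⟩

/-! ### sequences -/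

/-- the name of the sequence `w` -/
noncomputable def seqN (w : ℕ → BSet B) : BSet B :=
  relN (I := ℕ) (fun _ => ⊤) (fun n => oN B (n : Ordinal)) w

theorem rel_seqN (w : ℕ → BSet B) (U : Ult B) (n : ℕ) (y : MU U) :
    Rel (EU U) (cl U (seqN w)) (cl U (oN B n)) y ↔ y = cl U (w n) := by
  obtain ⟨y, rfl⟩ := cl_surj U y
  rw [seqN, rel_relN, cl_eq]
  have : (⨆ i : ℕ, (⊤ : B) ⊓ (beq (oN B (n : Ordinal)) (oN B (i : Ordinal)) ⊓ beq y (w i))) =
      beq y (w n) := by
    apply le_antisymm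
    · refine iSup_le fun i => ?_
      by_cases h : n = i
      · subst h
        exact inf_le_right.trans inf_le_right
      · rw [beq_nat_ne h]; simp
    · refine le_iSup_of_le n ?_
      rw [beq_refl]; simp
  rw [this]

theorem isFn_seqN (w : ℕ → BSet B) (U : Ult B) :
    IsFn (EU U) (cl U (seqN w)) (cl U (oN B ω)) := by
  constructor
  · intro p hp
    obtain ⟨s, t, rfl, h⟩ := mem_relN U _ _ _ p hp
    refine ⟨cl U s, cl U t, ?_, isPair_opN U s t⟩
    rw [EU_cl]
    refine U.mono ?_ h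
    refine iSup_le fun i => ?_
    rw [le_iff_ult]
    intro V hV
    rw [V.inf, V.inf, ← cl_eq] at hV
    rw [← EU_cl, hV.2.1]
    exact nat_mem_omega V i
  · intro x hx
    refine ball_omega (R := fun U x => ∃! y, Rel (EU U) (cl U (seqN w)) x y)
      (Df.exu (Df.Rel _ _ _)) ⊤ ?_ U U.top x hx
    intro U _ a
    exact ⟨cl U (w a), (rel_seqN w U a _).2 rfl, fun y hy => (rel_seqN w U a y).1 hy⟩

/-- a property of pairs (argument, value) of the sequence -/
theorem ball_seqN {R : ∀ U : Ult B, MU U → MU U → Prop}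
    (h : Df (G := BSet B × BSet B) (fun U x => R U (cl U x.1) (cl U x.2))) (w : ℕ → BSet B)
    (d : B) (hd : ∀ U : Ult B, d ∈ U.s → ∀ n : ℕ, R U (cl U (oN B n)) (cl U (w n)))
    (U : Ult B) (hU : d ∈ U.s) (x y : MU U) (hy : Rel (EU U) (cl U (seqN w)) x y) : R U x y := by
  have hx := (isFn_seqN w U).dom (zfc U) hy
  refine ball_omega (R := fun U x => ∀ y, Rel (EU U) (cl U (seqN w)) x y → R U x y) ?_ d ?_ U hU
    x hx y hy
  · exact Df.all (Df.imp (Df.Rel _ _ _) h)
  · intro V hV n y hy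
    rw [rel_seqN] at hy
    rw [hy]
    exact hd V hV n

/-- the name of the range of the sequence -/
noncomputable def rgN (w : ℕ → BSet B) : BSet B := fam w (fun _ => ⊤)

theorem mem_rgN (w : ℕ → BSet B) (U : Ult B) (y : MU U) :
    EU U y (cl U (rgN w)) ↔ ∃ n, Rel (EU U) (cl U (seqN w)) n y := by
  constructor
  · intro h
    refine ball_mk (R := fun U y => ∃ n, Rel (EU U) (cl U (seqN w)) n y) (Df.ex (Df.Rel _ _ _)) w
      (fun _ => ⊤) ⊤ ?_ U U.top y h
    intro V _ n _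
    exact ⟨cl V (oN B n), (rel_seqN w V n _).2 rfl⟩
  · rintro ⟨x, hx⟩
    refine ball_seqN (R := fun U _ y => EU U y (cl U (rgN w))) (Df.mem _ _) w ⊤ ?_ U U.top x y hx
    intro V _ n
    exact mem_mk w (fun _ => ⊤) V n V.top

theorem rgN_mem (w : ℕ → BSet B) (U : Ult B) (n : ℕ) : EU U (cl U (w n)) (cl U (rgN w)) :=
  mem_mk w (fun _ => ⊤) U n U.top

/-- bounded quantifiers over the range -/
theorem ball_rgN {R : ∀ U : Ult B, MU U → Prop} (h : Df (G := BSet B) (fun U x => R U (cl U x)))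
    (w : ℕ → BSet B) (d : B) (hd : ∀ U : Ult B, d ∈ U.s → ∀ n : ℕ, R U (cl U (w n)))
    (U : Ult B) (hU : d ∈ U.s) (y : MU U) (hy : EU U y (cl U (rgN w))) : R U y :=
  ball_mk h w (fun _ => ⊤) d (fun V hV n _ => hd V hV n) U hU y hy

/-- a function with domain `ω` which has the values `w n` is the sequence `w` -/
theorem eq_seqN (w : ℕ → BSet B) (f : BSet B) (d : B)
    (hf : ∀ U : Ult B, d ∈ U.s → IsFn (EU U) (cl U f) (cl U (oN B ω)))
    (h : ∀ U : Ult B, d ∈ U.s → ∀ n : ℕ, Rel (EU U) (cl U f) (cl U (oN B n)) (cl U (w n)))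
    (U : Ult B) (hU : d ∈ U.s) : cl U f = cl U (seqN w) := by
  have h1 : ∀ x y, Rel (EU U) (cl U f) x y ↔ Rel (EU U) (cl U (seqN w)) x y := by
    intro x y
    constructor
    · intro hxy
      have hx := (hf U hU).dom (zfc U) hxy
      refine ball_omega (R := fun U x => ∀ y, Rel (EU U) (cl U f) x y →
        Rel (EU U) (cl U (seqN w)) x y) ?_ d ?_ U hU x hx y hxy
      · exact Df.all (Df.imp (Df.Rel _ _ _) (Df.Rel _ _ _))
      · intro V hV n y hy
        rw [rel_seqN]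
        exact ((hf V hV).2 _ (nat_mem_omega V n)).unique hy (h V hV n)
    · intro hxy
      exact ball_seqN (R := fun U x y => Rel (EU U) (cl U f) x y) (Df.Rel _ _ _) w d h U hU x y
        hxy
  apply EU_ext
  intro p
  constructor
  · intro hp
    obtain ⟨x, y, -, hxy⟩ := (hf U hU).1 p hp
    obtain ⟨q, hq, hqf⟩ := (h1 x y).1 ⟨p, hxy, hp⟩
    rw [hxy.uniq (zfc U) hq]
    exact hqf
  · intro hp
    obtain ⟨x, y, -, hxy⟩ := (isFn_seqN w U).1 p hp
    obtain ⟨q, hq, hqf⟩ := (h1 x y).2 ⟨p, hxy, hp⟩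
    rw [hxy.uniq (zfc U) hq]
    exact hqf

/-- every function with domain `ω`, whose values are locally among the names `w n i` (with truth
value `b n i`), is locally the sequence of the names `w n (c n)` for some ground model `c` -/
theorem seq_loc (hD : OmegaDistributive B) {T : Ult B → Prop}
    (hT : Df (G := Unit) (fun U _ => T U)) {ι : Type} (w : ℕ → ι → BSet B) (b : ℕ → ι → B)
    (f : BSet B) (d : B)
    (hf : ∀ U : Ult B, d ∈ U.s → IsFn (EU U) (cl U f) (cl U (oN B ω)))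
    (hv : ∀ (n : ℕ) (U : Ult B), d ∈ U.s → ∀ y, Rel (EU U) (cl U f) (cl U (oN B n)) y →
      EU U y (cl U (fam (w n) (b n))))
    (h : ∀ (c : ℕ → ι) (U : Ult B), d ∈ U.s → (⨅ n, b n (c n)) ∈ U.s →
      cl U f = cl U (seqN (fun n => w n (c n))) → T U)
    (U : Ult B) (hU : d ∈ U.s) : T U := by
  have h1 : ∀ n i, ∃ P : B, ∀ U : Ult B,
      Rel (EU U) (cl U f) (cl U (oN B ((n : ℕ) : Ordinal))) (cl U (w n i)) ↔ P ∈ U.s :=
    fun n i => Df.get (Df.Rel _ _ _)
  choose P hP using h1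
  refine seq_ind hD hT (fun n i => P n i ⊓ b n i) d ?_ ?_ U hU
  · intro n
    obtain ⟨y, hy⟩ := exists_name (R := fun U y => Rel (EU U) (cl U f) (cl U (oN B n)) y)
      (Df.Rel _ _ _) d (fun U hU => ((hf U hU).2 _ (nat_mem_omega U n)).exists)
    rw [le_iff_ult]
    intro V hV
    have h2 : bmem y (fam (w n) (b n)) ∈ V.s := hv n V hV _ (hy V hV)
    refine V.mono ?_ ((V.inf _ _).2 ⟨hV, h2⟩)
    change d ⊓ (⨆ i, b n i ⊓ beq y (w n i)) ≤ _
    rw [inf_iSup_eq]
    refine iSup_le fun i => le_iSup_of_le i ?_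
    rw [le_iff_ult]
    intro W hW
    simp only [W.inf] at hW ⊢
    refine ⟨?_, hW.2.1⟩
    rw [← hP n i W, ← cl_eq.2 hW.2.2]
    exact hy W hW.1
  · intro c V hV hc
    refine h c V hV (V.mono (iInf_mono fun n => inf_le_right) hc) ?_
    refine eq_seqN (fun n => w n (c n)) f (d ⊓ ⨅ n, P n (c n) ⊓ b n (c n)) ?_ ?_ V
      ((V.inf _ _).2 ⟨hV, hc⟩)
    · intro W hW
      rw [W.inf] at hW
      exact hf W hW.1
    · intro W hW n
      rw [W.inf] at hW
      rw [hP]
      exact W.mono ((iInf_le _ n).trans inf_le_left) hW.2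

/-! ### finite subsets of a name of a set of points -/

theorem gN_eq_fam (F : Finset Pt) : gN B (↑F : Set Pt) = fam (ck B) (fun p => tv B (p ∈ F)) := rfl

theorem isFinite_gN (F : Finset Pt) (U : Ult B) :
    IsFinite (EU U) (cl U (oN B ω)) (cl U (gN B (↑F : Set Pt))) := by
  rw [gN_eq_fam]
  exact isFinite_fam _ _ _

theorem vFin_mem (X : Pt → B) (F : Finset Pt) (U : Ult B) :
    vFin X F ∈ U.s ↔ ∀ p ∈ F, X p ∈ U.s := by
  rw [vFin, U.biInf_finset]

theorem sub_gN (X : Pt → B) (F : Finset Pt) (U : Ult B) :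
    Sub (EU U) (cl U (gN B (↑F : Set Pt))) (cl U (ptN X)) ↔ vFin X F ∈ U.s := by
  rw [vFin_mem]
  constructor
  · intro h p hp
    rw [← mem_ptN]
    exact h _ ((mem_gN _ U p).2 hp)
  · intro h y hy
    rw [gN_eq_fam, mem_fam_fin] at hy
    obtain ⟨p, hp, rfl⟩ := hy
    exact (mem_ptN X U p).2 (h p hp)

theorem sub_gN_trN (X : Pt → B) (F : Finset Pt) (G : Set Pt) (U : Ult B) :
    Sub (EU U) (cl U (gN B (↑F : Set Pt))) (cl U (trN X G)) ↔
      vFin X F ∈ U.s ∧ (↑F : Set Pt) ⊆ G := by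
  rw [vFin_mem]
  constructor
  · intro h
    have h1 : ∀ p ∈ F, X p ∈ U.s ∧ p ∈ G := fun p hp => by
      rw [← mem_trN']
      exact h _ ((mem_gN _ U p).2 hp)
    exact ⟨fun p hp => (h1 p hp).1, fun p hp => (h1 p hp).2⟩
  · rintro ⟨h1, h2⟩ y hy
    rw [gN_eq_fam, mem_fam_fin] at hy
    obtain ⟨p, hp, rfl⟩ := hy
    exact (mem_trN' X G U p).2 ⟨h1 p hp, h2 hp⟩

/-- every finite subset of `X` is locally a finite set of ground model points -/
theorem ball_fin (hD : OmegaDistributive B) (X : Pt → B) {R : ∀ U : Ult B, MU U → Prop}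
    (h : Df (G := BSet B) (fun U x => R U (cl U x))) (d : B)
    (hd : ∀ U : Ult B, d ∈ U.s → ∀ F : Finset Pt, vFin X F ∈ U.s → R U (cl U (gN B (↑F : Set Pt))))
    (U : Ult B) (hU : d ∈ U.s) (F : MU U) (hF : IsFinite (EU U) (cl U (oN B ω)) F)
    (hs : Sub (EU U) F (cl U (ptN X))) : R U F := by
  classical
  obtain ⟨n, f, hn, hf, hF⟩ := hF
  refine ball_omega (R := fun U n => ∀ f F, IsFn (EU U) f n →
    (∀ y, EU U y F ↔ ∃ i, Rel (EU U) f i y) → Sub (EU U) F (cl U (ptN X)) → R U F) ?_ d ?_ U hU n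
    hn f F hf hF hs
  · refine Df.all (Df.all (Df.imp (Df.IsFn _ _) (Df.imp (Df.all (Df.iff (Df.mem _ _)
      (Df.ex (Df.Rel _ _ _)))) (Df.imp (Df.Sub _ _) ?_))))
    exact h.comp (fun z : (BSet B × BSet B) × BSet B => z.2)
  · intro U hU m f F hf hF hs
    obtain ⟨f, rfl⟩ := cl_surj U f
    obtain ⟨F, rfl⟩ := cl_surj U F
    obtain ⟨e, he⟩ := Df.get (B := B) (P' := fun U => IsFn (EU U) (cl U f) (cl U (oN B m)) ∧
      (∀ y, EU U y (cl U F) ↔ ∃ i, Rel (EU U) (cl U f) i y) ∧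
      Sub (EU U) (cl U F) (cl U (ptN X)))
      (Df.and (Df.IsFn _ _) (Df.and (Df.all (Df.iff (Df.mem _ _) (Df.ex (Df.Rel _ _ _))))
        (Df.Sub _ _)))
    have h1 : ∀ (i : ℕ) (p : Pt), ∃ P : B, ∀ U : Ult B,
        Rel (EU U) (cl U f) (cl U (oN B ((i : ℕ) : Ordinal))) (cl U (ck B p)) ↔ P ∈ U.s :=
      fun i p => Df.get (Df.Rel _ _ _)
    choose P hP using h1
    refine seq_ind hD (T := fun V => R V (cl V F)) (h.comp (fun _ => F)) (ι := Pt)
      (fun i p => if i < m then P i p ⊓ X p else ⊤) (d ⊓ e) ?_ ?_ U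
      ((U.inf _ _).2 ⟨hU, (he U).1 ⟨hf, hF, hs⟩⟩)
    · intro i
      by_cases hi : i < m
      · simp only [hi, if_true]
        rw [le_iff_ult]
        intro V hV
        rw [V.inf, ← he V] at hV
        obtain ⟨hVd, h2, h3, h4⟩ := hV
        obtain ⟨Q, hQ⟩ := Df.get (B := B) (P' := fun U => ∃ y,
          Rel (EU U) (cl U f) (cl U (oN B ((i : ℕ) : Ordinal))) y ∧ EU U y (cl U (ptN X)))
          (Df.ex (Df.and (Df.Rel _ _ _) (Df.mem _ _)))
        have h5 : Q ∈ V.s := by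
          rw [← hQ V]
          obtain ⟨y, hy, -⟩ := h2.2 (cl V (oN B i)) (by rw [EU_oN, Nat.cast_lt]; exact hi)
          exact ⟨y, hy, h4 y ((h3 y).2 ⟨_, hy⟩)⟩
        refine V.mono ?_ h5
        rw [le_iff_ult]
        intro W hW
        rw [← hQ W] at hW
        obtain ⟨y, hy, hyX⟩ := hW
        obtain ⟨Z, hZ⟩ := Df.get (B := B) (P' := fun U => (⨆ p, P i p ⊓ X p) ∈ U.s)
          (Df.val (fun _ => _))
        refine ball_ptN (R := fun U y => Rel (EU U) (cl U f) (cl U (oN B ((i : ℕ) : Ordinal))) y →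
          (⨆ p, P i p ⊓ X p) ∈ U.s) (Df.imp (Df.Rel _ _ _) (Df.val (fun _ => _))) X ⊤ ?_ W W.top
          y hyX hy
        intro W' _ p hp hr
        exact W'.mono (le_iSup (fun p => P i p ⊓ X p) p)
          ((W'.inf _ _).2 ⟨(hP i p W').1 hr, hp⟩)
      · simp only [hi, if_false]
        refine le_top.trans ?_
        exact le_iSup_of_le (fun _ => false) le_rfl
    · intro c V hV hc
      rw [V.inf, ← he V] at hV
      obtain ⟨hVd, h2, h3, h4⟩ := hV
      have h5 : ∀ i < m, Rel (EU V) (cl V f) (cl V (oN B ((i : ℕ) : Ordinal)))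
          (cl V (ck B (c i))) ∧ X (c i) ∈ V.s := by
        intro i hi
        have h6 := V.mono (iInf_le _ i) hc
        simp only [hi, if_true] at h6
        rw [V.inf, ← hP] at h6
        exact h6
      have h7 : cl V F = cl V (gN B (↑((Finset.range m).image c) : Set Pt)) := by
        apply EU_ext
        intro y
        rw [h3 y, gN_eq_fam, mem_fam_fin]
        constructor
        · rintro ⟨i, hi⟩
          have h8 := h2.dom (zfc V) hi
          obtain ⟨j, hj, rfl⟩ := (EU_nat V m i).1 h8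
          refine ⟨c j, Finset.mem_image.2 ⟨j, Finset.mem_range.2 hj, rfl⟩, ?_⟩
          exact (h2.2 _ h8).unique hi (h5 j hj).1
        · rintro ⟨p, hp, rfl⟩
          obtain ⟨j, hj, rfl⟩ := Finset.mem_image.1 hp
          exact ⟨_, (h5 j (Finset.mem_range.1 hj)).1⟩
      rw [h7]
      refine hd V hVd _ ?_
      rw [vFin_mem]
      intro p hp
      obtain ⟨j, hj, rfl⟩ := Finset.mem_image.1 hp
      exact (h5 j (Finset.mem_range.1 hj)).2

end

end Pool.Agent.G16
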