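import Pool.Agent.G16.BBor
import Pool.Agent.G16.BFrc
import Pool.Agent.G16.Nam

/-!
# Group G16: covers in the two-valued models
-/

set_option autoImplicit false

open Pool.Agent.H46.BorelPow (tv OmegaDistributive bvSubset bvCover bvOmegaCover bvS1)

namespace Pool.Agent.G16

open CI BSet Ordinal

universe v

section

variable {B : Type} [CompleteBooleanAlgebra B] {G : Type v}

/-! ### the notions have truth values -/

theorem dfIsCtbl (V : G → BSet B) :
    Df (fun U g => IsCtbl (EU U) (cl U (oN B ω)) (cl U (V g))) := by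
  unfold IsCtbl
  exact Df.ex (Df.and (Df.IsFn _ _) (Df.all (Df.iff (Df.mem _ _) (Df.ex (Df.Rel _ _ _)))))

theorem dfIsBCov {Bo : ∀ U : Ult B, MU U → Prop}
    (hBo : Df (G := BSet B) (fun U x => Bo U (cl U x))) (X V : G → BSet B) :
    Df (fun U g => IsBCov (EU U) (cl U (oN B ω)) (Bo U) (cl U (X g)) (cl U (V g))) := by
  unfold IsBCov
  refine Df.and (dfIsCtbl _) (Df.and (Df.all (Df.imp (Df.mem _ _) ?_))
    (Df.and (Df.all (Df.imp (Df.mem _ _) (Df.not (Df.Sub _ _))))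
      (Df.all (Df.imp (Df.mem _ _) (Df.ex (Df.and (Df.mem _ _) (Df.mem _ _)))))))
  exact hBo.comp fun z : G × BSet B => z.2

theorem dfIsBOm {Bo : ∀ U : Ult B, MU U → Prop}
    (hBo : Df (G := BSet B) (fun U x => Bo U (cl U x))) (X V : G → BSet B) :
    Df (fun U g => IsBOm (EU U) (cl U (oN B ω)) (Bo U) (cl U (X g)) (cl U (V g))) := by
  unfold IsBOm
  exact Df.and (dfIsBCov hBo _ _) (Df.all (Df.imp (dfIsFinite _ _) (Df.imp (Df.Sub _ _)
    (Df.ex (Df.and (Df.mem _ _) (Df.Sub _ _))))))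

namespace PSys

variable {K : Type} (D : PSys B K)

/-- the Borel sets of the model -/
def Bo (U : Ult B) (x : MU U) : Prop := IsBor (EU U) (cl U (oN B ω)) (D.Y U) (D.Gen U) x

theorem dBo : Df (G := BSet B) (fun U x => D.Bo U (cl U x)) := Df_isBor D.dY D.dGen _

/-- the name of a set of points -/
def xN (X : K → B) : BSet B := BSet.mk K D.ck X

theorem mem_xN (X : K → B) (U : Ult B) (p : K) :
    EU U (cl U (D.ck p)) (cl U (D.xN X)) ↔ X p ∈ U.s := by
  constructor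
  · intro h
    refine U.mono ?_ h
    refine iSup_le fun q => ?_
    change X q ⊓ beq (D.ck p) (D.ck q) ≤ _
    by_cases hpq : p = q
    · subst hpq; exact inf_le_left
    · rw [D.beq_ne hpq]; simp
  · intro h
    exact mem_mk D.ck X U p h

theorem ball_xN (X : K → B) {R : ∀ U : Ult B, MU U → Prop}
    (hR : Df (G := BSet B) (fun U x => R U (cl U x))) (b : B)
    (hb : ∀ U : Ult B, b ∈ U.s → ∀ p, X p ∈ U.s → R U (cl U (D.ck p)))
    (U : Ult B) (hU : b ∈ U.s) (y : MU U) (hy : EU U y (cl U (D.xN X))) : R U y :=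
  ball_mk hR D.ck X b hb U hU y hy

theorem sub_xg (X : K → B) (U : Ult B) (A : Set K) :
    Sub (EU U) (cl U (D.xN X)) (cl U (D.g A)) ↔ bvSubset X A ∈ U.s := by
  constructor
  · intro h
    obtain ⟨P, hP⟩ := b_get (B := B) (T := fun U => Sub (EU U) (cl U (D.xN X)) (cl U (D.g A)))
      (Df.Sub _ _)
    refine U.mono (le_iInf fun p => ?_) ((hP U).1 h)
    rw [le_himp_iff, le_iff_ult]
    intro V hV
    rw [V.inf] at hV
    rw [tv_mem]
    exact (D.mem_g V A p).1 ((hP V).2 hV.1 _ ((D.mem_xN X V p).2 hV.2))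
  · intro h y hy
    refine D.ball_xN X (R := fun U y => EU U y (cl U (D.g A))) (Df.mem _ _) (bvSubset X A) ?_
      U h y hy
    intro V hV p hp
    have h1 := V.mono (iInf_le _ p) hV
    rw [V.himp, tv_mem] at h1
    exact (D.mem_g V A p).2 (h1 hp)

theorem isBCov_iff (X : K → B) (h : ℕ → Set K) (hh : ∀ n, D.Gm (h n)) (U : Ult B) :
    IsBCov (EU U) (cl U (oN B ω)) (D.Bo U) (cl U (D.xN X)) (cl U (famN' fun n => D.g (h n))) ↔
      bvCover X h ∈ U.s := by
  constructor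
  · intro h1
    obtain ⟨P, hP⟩ := b_get (B := B) (T := fun U => IsBCov (EU U) (cl U (oN B ω)) (D.Bo U)
      (cl U (D.xN X)) (cl U (famN' fun n => D.g (h n)))) (dfIsBCov D.dBo _ _)
    refine U.mono (le_inf (le_iInf fun p => ?_) (le_iInf fun m => ?_)) ((hP U).1 h1)
    · rw [le_himp_iff, le_iff_ult]
      intro V hV
      rw [V.inf] at hV
      rw [tv_mem]
      obtain ⟨v, hv, hpv⟩ := ((hP V).2 hV.1).2.2.2 _ ((D.mem_xN X V p).2 hV.2)
      refine b_fam (fun n => D.g (h n)) (R := fun U v => EU U (cl U (D.ck p)) v →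
        p ∈ ⋃ m, h m) (Df.imp (Df.mem _ _) (Df.const _)) ⊤ ?_ V V.top v hv hpv
      intro W _ n hn
      exact Set.mem_iUnion.2 ⟨n, (D.mem_g W _ p).1 hn⟩
    · rw [le_iff_ult]
      intro V hV
      rw [V.compl, ← D.sub_xg]
      exact ((hP V).2 hV).2.2.1 _ (mem_famN' _ V m)
  · intro h1
    have h2 : bvSubset X (⋃ m, h m) ∈ U.s := U.mono inf_le_left h1
    refine ⟨⟨cl U (bseqN fun n => D.g (h n)), isFn_bseqN _ U, fun v => b_range _ U v⟩, ?_, ?_,
      ?_⟩
    · intro v hv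
      exact b_fam (fun n => D.g (h n)) (R := D.Bo) D.dBo ⊤
        (fun V _ n => D.bor_g V (hh n)) U U.top v hv
    · intro v hv
      refine b_fam (fun n => D.g (h n)) (R := fun U v => ¬ Sub (EU U) (cl U (D.xN X)) v)
        (Df.not (Df.Sub _ _)) (bvCover X h) ?_ U h1 v hv
      intro V hV n
      rw [D.sub_xg, ← V.compl]
      exact V.mono (inf_le_right.trans (iInf_le _ n)) hV
    · intro x hx
      refine D.ball_xN X (R := fun U x => ∃ v, EU U v (cl U (famN' fun n => D.g (h n))) ∧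
        EU U x v) (Df.ex (Df.and (Df.mem _ _) (Df.mem _ _))) (bvCover X h) ?_ U h1 x hx
      intro V hV p hp
      have h3 := V.mono (inf_le_left.trans (iInf_le _ p)) hV
      rw [V.himp, tv_mem, Set.mem_iUnion] at h3
      obtain ⟨n, hn⟩ := h3 hp
      exact ⟨cl V (D.g (h n)), mem_famN' _ V n, (D.mem_g V _ p).2 hn⟩

/-- the failure of the selection principle for covers -/
theorem neg (hB : OmegaDistributive B) (X : K → B) [MeasurableSpace K]
    (hm : ∀ A : Set K, MeasurableSet A → D.Gm A) (hneg : bvS1 (bvCover X) = ⊥) (U : Ult B) :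
    ¬ S1 (EU U) (cl U (oN B ω)) (IsBCov (EU U) (cl U (oN B ω)) (D.Bo U) (cl U (D.xN X)))
      (IsBCov (EU U) (cl U (oN B ω)) (D.Bo U) (cl U (D.xN X))) := by
  intro hS
  obtain ⟨P, hP⟩ := b_get (B := B) (T := fun U => S1 (EU U) (cl U (oN B ω))
    (IsBCov (EU U) (cl U (oN B ω)) (D.Bo U) (cl U (D.xN X)))
    (IsBCov (EU U) (cl U (oN B ω)) (D.Bo U) (cl U (D.xN X)))) (by
      unfold S1
      exact Df.all (Df.imp (Df.IsFn _ _) (Df.imp (Df.all (Df.all (Df.imp (Df.Rel _ _ _)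
        (dfIsBCov D.dBo _ _)))) (Df.ex (Df.and (Df.IsFn _ _) (Df.and
          (Df.all (Df.all (Df.all (Df.imp (Df.Rel _ _ _) (Df.imp (Df.Rel _ _ _)
            (Df.mem _ _))))))
          (Df.ex (Df.and (Df.all (Df.iff (Df.mem _ _) (Df.ex (Df.Rel _ _ _))))
            (dfIsBCov D.dBo _ _)))))))))
  have hle : P ≤ bvS1 (bvCover X) := by
    refine le_iInf fun 𝒰 => ?_
    rw [le_himp_iff]
    set q : B := P ⊓ ⨅ n, bvCover X (𝒰.1 n) with hq
    have hm' : ∀ n m, D.Gm (𝒰.1 n m) := fun n m => hm _ (𝒰.2 n m)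
    let w : ℕ → BSet B := fun n => famN' fun m => D.g (𝒰.1 n m)
    have hex : ∀ V : Ult B, q ∈ V.s → ∃ c, IsFn (EU V) c (cl V (oN B ω)) ∧
        (∀ n A u, Rel (EU V) (cl V (bseqN w)) n A → Rel (EU V) c n u → EU V u A) ∧
        ∃ R, (∀ u, EU V u R ↔ ∃ n, Rel (EU V) c n u) ∧
          IsBCov (EU V) (cl V (oN B ω)) (D.Bo V) (cl V (D.xN X)) R := by
      intro V hV
      rw [hq, V.inf] at hV
      refine (hP V).2 hV.1 _ (isFn_bseqN w V) ?_
      intro n A hA
      refine b_seqval (R := fun U A => IsBCov (EU U) (cl U (oN B ω)) (D.Bo U) (cl U (D.xN X)) A)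
        (dfIsBCov D.dBo _ _) (bseqN w) (⨅ n, bvCover X (𝒰.1 n)) (fun W _ => isFn_bseqN w W)
        (fun W hW n y hy => ?_) V hV.2 n A hA
      rw [rel_bseqN] at hy
      rw [hy]
      exact (D.isBCov_iff X (𝒰.1 n) (hm' n) W).2 (W.mono (iInf_le _ n) hW)
    obtain ⟨c, hc⟩ := exists_name (R := fun U c => IsFn (EU U) c (cl U (oN B ω)) ∧
        (∀ n A u, Rel (EU U) (cl U (bseqN w)) n A → Rel (EU U) c n u → EU U u A) ∧
        ∃ R, (∀ u, EU U u R ↔ ∃ n, Rel (EU U) c n u) ∧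
          IsBCov (EU U) (cl U (oN B ω)) (D.Bo U) (cl U (D.xN X)) R)
      (Df.and (Df.IsFn _ _) (Df.and (Df.all (Df.all (Df.all (Df.imp (Df.Rel _ _ _)
        (Df.imp (Df.Rel _ _ _) (Df.mem _ _)))))) (Df.ex (Df.and (Df.all (Df.iff (Df.mem _ _)
          (Df.ex (Df.Rel _ _ _)))) (dfIsBCov D.dBo _ _))))) q hex
    choose y hy using fun n => b_exval q c (fun U hU => (hc U hU).1) n
    rw [le_iff_ult]
    intro V hV
    refine b_seq hB (fun n m => beq (y n) (D.g (𝒰.1 n m))) q (fun n => ?_)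
      (T := fun U => (⨆ c : ℕ → ℕ, bvCover X (fun n => 𝒰.1 n (c n))) ∈ U.s)
      (Df.val fun _ => _) (fun f W hW hf => ?_) V hV
    · rw [← b_mem_fam, le_iff_ult]
      intro W hW
      rw [← EU_cl]
      exact (hc W hW).2.1 (cl W (oN B n)) _ _ ((rel_bseqN w W n _).2 rfl) ((hy n W hW _).2 rfl)
    · refine W.mono (le_iSup (fun c : ℕ → ℕ => bvCover X (fun n => 𝒰.1 n (c n))) f) ?_
      rw [← D.isBCov_iff X (fun n => 𝒰.1 n (f n)) (fun n => hm' n _) W]
      obtain ⟨-, -, R, hR, hcov⟩ := hc W hW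
      have h1 : R = cl W (famN' fun n => D.g (𝒰.1 n (f n))) := by
        apply EU_ext
        intro z
        rw [hR, b_range]
        refine exists_congr fun i => ?_
        refine b_funeq (fun n => D.g (𝒰.1 n (f n))) c (q ⊓ ⨅ n, beq (y n) (D.g (𝒰.1 n (f n))))
          (fun W' hW' => (hc W' (W'.mono inf_le_left hW')).1) (fun W' hW' n z => ?_) W
          ((W.inf _ _).2 ⟨hW, hf⟩) i z
        rw [W'.inf] at hW'
        have h2 : cl W' (y n) = cl W' (D.g (𝒰.1 n (f n))) :=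
          cl_eq.2 (W'.mono (iInf_le _ n) hW'.2)
        rw [hy n W' hW'.1, h2]
      rw [← h1]
      exact hcov
  rw [hneg] at hle
  exact U.bot (U.mono hle ((hP U).1 hS))

end PSys

end

end Pool.Agent.G16
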