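import Pool.Agent.CI.T.Fam
import Pool.Agent.G16.Bv

/-!
# Group G16: names of ground model points, sets of points and sequences; distributivity
-/

set_option autoImplicit false

open Pool.Agent.H46.BorelPow (tv OmegaDistributive)

namespace Pool.Agent.G16

open CI BSet Ordinal

universe v

section

variable {B : Type} [CompleteBooleanAlgebra B] {G : Type v}

/-! ### induction rules -/

theorem b_get {T : Ult B → Prop} (h : Df (G := Unit) (fun U _ => T U)) :
    ∃ P : B, ∀ U, T U ↔ P ∈ U.s := by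
  obtain ⟨P, hP⟩ := h
  exact ⟨P (), fun U => hP U ()⟩

/-- bounded quantifiers over a name -/
theorem b_ball (v : BSet B) {R : ∀ U : Ult B, MU U → Prop}
    (hR : Df (G := BSet B) (fun U x => R U (cl U x))) (b : B)
    (hb : ∀ U : Ult B, b ∈ U.s → ∀ a : v.Ty, v.tv a ∈ U.s → R U (cl U (v.el a)))
    (U : Ult B) (hU : b ∈ U.s) (y : MU U) (hy : EU U y (cl U v)) : R U y := by
  obtain ⟨P, hP⟩ := hR
  have hL : Los P R := hP
  obtain ⟨y, rfl⟩ := cl_surj U y
  rw [EU_cl] at hy
  rw [hL U y]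
  have h1 : b ≤ ⨅ u, bmem u v ⇨ P u := by
    rw [ball_eq hL.ext v]
    refine le_iInf fun a => ?_
    rw [le_iff_ult]
    intro V hV
    rw [V.himp]
    intro hVa
    rw [← hL V]
    exact hb V hV a hVa
  have h2 := U.mono (h1.trans (iInf_le _ y)) hU
  rw [U.himp] at h2
  exact h2 hy

/-- case distinction over a supremum -/
theorem b_sup {I : Type*} (e : I → B) (d : B) (hd : d ≤ ⨆ i, e i) {T : Ult B → Prop}
    (hT : Df (G := Unit) (fun U _ => T U))
    (h : ∀ U : Ult B, d ∈ U.s → ∀ i, e i ∈ U.s → T U) (U : Ult B) (hU : d ∈ U.s) : T U := by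
  obtain ⟨P, hP⟩ := b_get hT
  rw [hP]
  refine U.mono ?_ hU
  calc d ≤ d ⊓ ⨆ i, e i := le_inf le_rfl hd
    _ = ⨆ i, d ⊓ e i := inf_iSup_eq _ _
    _ ≤ P := by
        refine iSup_le fun i => ?_
        rw [le_iff_ult]
        intro V hV
        rw [V.inf] at hV
        exact (hP V).1 (h V hV.1 i hV.2)

/-- countably many case distinctions at once -/
theorem b_seq (hB : OmegaDistributive B) {I : Type} (e : ℕ → I → B) (d : B)
    (hd : ∀ n, d ≤ ⨆ i, e n i) {T : Ult B → Prop} (hT : Df (G := Unit) (fun U _ => T U))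
    (h : ∀ (f : ℕ → I) (U : Ult B), d ∈ U.s → (⨅ n, e n (f n)) ∈ U.s → T U)
    (U : Ult B) (hU : d ∈ U.s) : T U := by
  refine b_sup (fun f : ℕ → I => ⨅ n, e n (f n)) d ?_ hT (fun V hV f hf => h f V hV hf) U hU
  rw [← hB I e]
  exact le_iInf hd

/-- double sequences -/
theorem b_seq2 (hB : OmegaDistributive B) {I : Type} (e : ℕ → ℕ → I → B) (d : B)
    (hd : ∀ n m, d ≤ ⨆ i, e n m i) {T : Ult B → Prop} (hT : Df (G := Unit) (fun U _ => T U))
    (h : ∀ (f : ℕ → ℕ → I) (U : Ult B), d ∈ U.s → (⨅ n, ⨅ m, e n m (f n m)) ∈ U.s → T U)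
    (U : Ult B) (hU : d ∈ U.s) : T U := by
  refine b_seq hB (fun n (g : ℕ → I) => ⨅ m, e n m (g m)) d (fun n => ?_) hT
    (fun f V hV hf => h f V hV hf) U hU
  rw [← hB I (e n)]
  exact le_iInf (hd n)

/-! ### ground model points -/

/-- the name of a ground model point of the Cantor space -/
noncomputable def ckp (B : Type) [CompleteBooleanAlgebra B] (p : Pt) : BSet B :=
  rN (fun n => if p n = true then ⊤ else ⊥)

theorem mem_ckp (U : Ult B) (n : ℕ) (p : Pt) :
    EU U (cl U (oN B n)) (cl U (ckp B p)) ↔ p n = true := by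
  rw [ckp, mem_rN]
  by_cases h : p n = true
  · simp [h, U.top]
  · simp [h, U.bot]

theorem ckp_sub (U : Ult B) (p : Pt) : Sub (EU U) (cl U (ckp B p)) (cl U (oN B ω)) := rN_sub U _

theorem ckp_inj (U : Ult B) {p q : Pt} : cl U (ckp B p) = cl U (ckp B q) ↔ p = q := by
  constructor
  · intro h
    funext n
    have h1 := mem_ckp U n p
    rw [h, mem_ckp] at h1
    cases hp : p n <;> cases hq : q n <;> simp [hp, hq] at h1 ⊢
  · rintro rfl
    rfl

/-- a subset of `ω` whose elements are given by `f` is the check of `f` -/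
theorem b_eq_ckp (y : BSet B) (f : Pt) (b : B)
    (h : ∀ U : Ult B, b ∈ U.s → Sub (EU U) (cl U y) (cl U (oN B ω)) ∧
      ∀ n : ℕ, EU U (cl U (oN B n)) (cl U y) ↔ f n = true)
    (U : Ult B) (hU : b ∈ U.s) : cl U y = cl U (ckp B f) := by
  apply EU_ext
  intro z
  have key : ∀ z, EU U z (cl U (oN B ω)) → (EU U z (cl U y) ↔ EU U z (cl U (ckp B f))) := by
    intro z hz
    refine ball_omega (R := fun U z => (EU U z (cl U y) ↔ EU U z (cl U (ckp B f))))
      (Df.iff (Df.mem _ _) (Df.mem _ _)) b ?_ U hU z hz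
    intro V hV n
    rw [(h V hV).2, mem_ckp]
  constructor
  · intro hz
    exact (key z ((h U hU).1 z hz)).1 hz
  · intro hz
    exact (key z (ckp_sub U f z hz)).2 hz

/-- every point of the Cantor space is locally a ground model point -/
theorem b_pt (hB : OmegaDistributive B) {R : ∀ U : Ult B, MU U → Prop}
    (hR : Df (G := BSet B) (fun U x => R U (cl U x))) (b : B)
    (hb : ∀ U : Ult B, b ∈ U.s → ∀ p : Pt, R U (cl U (ckp B p)))
    (U : Ult B) (hU : b ∈ U.s) (y : MU U) (hy : Sub (EU U) y (cl U (oN B ω))) : R U y := by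
  obtain ⟨y, rfl⟩ := cl_surj U y
  obtain ⟨S, hS⟩ := b_get (B := B) (T := fun U => b ∈ U.s ∧ Sub (EU U) (cl U y) (cl U (oN B ω)))
    (Df.and (Df.val (fun _ => b)) (Df.Sub _ _))
  have hSU := (hS U).1 ⟨hU, hy⟩
  refine b_seq hB (fun n (i : Bool) => if i = true then bmem (oN B n) y else (bmem (oN B n) y)ᶜ)
    S (fun n => ?_) (T := fun U => R U (cl U y)) (hR.comp fun _ => y) (fun f V hV hf => ?_) U hSU
  · refine le_trans le_top ?_
    rw [← sup_compl_eq_top (x := bmem (oN B n) y)]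
    refine sup_le ?_ ?_
    · exact le_iSup_of_le true (by simp)
    · exact le_iSup_of_le false (by simp)
  · have h1 : cl V y = cl V (ckp B f) := by
      refine b_eq_ckp y f (S ⊓ ⨅ n : ℕ, (if f n = true then bmem (oN B n) y else
        (bmem (oN B n) y)ᶜ)) (fun W hW => ?_) V ((V.inf _ _).2 ⟨hV, hf⟩)
      rw [W.inf] at hW
      refine ⟨((hS W).2 hW.1).2, fun n => ?_⟩
      have h2 := W.mono (iInf_le _ n) hW.2
      rw [EU_cl]
      by_cases hfn : f n = true
      · rw [if_pos hfn] at h2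
        exact ⟨fun _ => hfn, fun _ => h2⟩
      · rw [if_neg hfn, W.compl] at h2
        exact ⟨fun h => absurd h h2, fun h => absurd h hfn⟩
    rw [h1]
    exact hb V ((hS V).2 hV).1 f

/-! ### sequences -/

/-- the name of a sequence -/
noncomputable def bseqN (v : ℕ → BSet B) : BSet B :=
  relN (I := ℕ) (fun _ => ⊤) (fun n => oN B n) v

theorem rel_bseqN (v : ℕ → BSet B) (U : Ult B) (n : ℕ) (y : MU U) :
    Rel (EU U) (cl U (bseqN v)) (cl U (oN B n)) y ↔ y = cl U (v n) := by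
  obtain ⟨y, rfl⟩ := cl_surj U y
  rw [bseqN, rel_relN, cl_eq]
  have : (⨆ i : ℕ, (⊤ : B) ⊓ (beq (oN B n) (oN B i) ⊓ beq y (v i))) = beq y (v n) := by
    apply le_antisymm
    · refine iSup_le fun i => ?_
      by_cases h : n = i
      · subst h
        exact inf_le_right.trans inf_le_right
      · rw [beq_nat_ne h]; simp
    · refine le_iSup_of_le n ?_
      rw [beq_refl]; simp
  rw [this]

theorem isFn_bseqN (v : ℕ → BSet B) (U : Ult B) :
    IsFn (EU U) (cl U (bseqN v)) (cl U (oN B ω)) := by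
  constructor
  · intro p hp
    obtain ⟨s, t, rfl, h⟩ := mem_relN U _ _ _ p hp
    refine ⟨cl U s, cl U t, ?_, isPair_opN U s t⟩
    rw [EU_cl]
    refine U.mono ?_ h
    refine iSup_le fun i => ?_
    rw [le_iff_ult]
    intro V hV
    rw [V.inf, V.inf, ← cl_eq] at hV
    rw [← EU_cl, hV.2.1]
    exact nat_mem_omega V i
  · intro x hx
    refine ball_omega (R := fun U x => ∃! y, Rel (EU U) (cl U (bseqN v)) x y)
      (Df.exu (Df.Rel _ _ _)) ⊤ ?_ U U.top x hx
    intro U _ n
    exact ⟨cl U (v n), (rel_bseqN v U n _).2 rfl, fun y hy => (rel_bseqN v U n y).1 hy⟩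

/-- a property of the terms of a sequence -/
theorem b_seqval {R : ∀ U : Ult B, MU U → Prop}
    (hR : Df (G := BSet B) (fun U x => R U (cl U x))) (f : BSet B) (b : B)
    (hf : ∀ U : Ult B, b ∈ U.s → IsFn (EU U) (cl U f) (cl U (oN B ω)))
    (hb : ∀ U : Ult B, b ∈ U.s → ∀ (n : ℕ) (y : MU U), Rel (EU U) (cl U f) (cl U (oN B n)) y →
      R U y)
    (U : Ult B) (hU : b ∈ U.s) (i y : MU U) (hy : Rel (EU U) (cl U f) i y) : R U y := by
  refine ball_omega (R := fun U i => ∀ y, Rel (EU U) (cl U f) i y → R U y) ?_ b ?_ U hU i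
    ((hf U hU).dom (zfc U) hy) y hy
  · exact Df.all (Df.imp (Df.Rel _ _ _) (hR.comp fun z : BSet B × BSet B => z.2))
  · intro V hV n y hy
    exact hb V hV n y hy

/-- the names of the terms of a sequence -/
theorem b_exval (b : B) (f : BSet B)
    (hf : ∀ U : Ult B, b ∈ U.s → IsFn (EU U) (cl U f) (cl U (oN B ω))) (n : ℕ) :
    ∃ y : BSet B, ∀ U : Ult B, b ∈ U.s → ∀ z : MU U,
      Rel (EU U) (cl U f) (cl U (oN B n)) z ↔ z = cl U y := by
  obtain ⟨y, hy⟩ := exists_name (R := fun U y => Rel (EU U) (cl U f) (cl U (oN B n)) y)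
    (Df.Rel _ _ _) b (fun U hU => ((hf U hU).2 _ (nat_mem_omega U n)).exists)
  refine ⟨y, fun U hU z => ?_⟩
  constructor
  · intro hz
    exact ((hf U hU).2 _ (nat_mem_omega U n)).unique hz (hy U hU)
  · rintro rfl
    exact hy U hU

/-! ### the range of a ground model family -/

/-- the set of the terms of a family -/
def famN' {I : Type} (v : I → BSet B) : BSet B := mk I v (fun _ => ⊤)

theorem mem_famN' {I : Type} (v : I → BSet B) (U : Ult B) (i : I) :
    EU U (cl U (v i)) (cl U (famN' v)) := by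
  rw [EU_cl]
  exact U.mono (tv_le_bmem (famN' v) i) U.top

theorem b_fam {I : Type} (v : I → BSet B) {R : ∀ U : Ult B, MU U → Prop}
    (hR : Df (G := BSet B) (fun U x => R U (cl U x))) (b : B)
    (hb : ∀ U : Ult B, b ∈ U.s → ∀ i, R U (cl U (v i)))
    (U : Ult B) (hU : b ∈ U.s) (y : MU U) (hy : EU U y (cl U (famN' v))) : R U y :=
  b_ball (famN' v) hR b (fun V hV i _ => hb V hV i) U hU y hy

/-- the value of membership in a family -/
theorem b_mem_fam {I : Type} (v : I → BSet B) (y : BSet B) :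
    bmem y (famN' v) = ⨆ i, beq y (v i) := by
  have h : bmem y (famN' v) = ⨆ i : I, (⊤ : B) ⊓ beq y (v i) := rfl
  rw [h]
  exact iSup_congr fun i => top_inf_eq _

/-- the range of a sequence -/
theorem b_range (v : ℕ → BSet B) (U : Ult B) (y : MU U) : EU U y (cl U (famN' v)) ↔
    ∃ i, Rel (EU U) (cl U (bseqN v)) i y := by
  constructor
  · intro hy
    refine b_fam v (R := fun U y => ∃ i, Rel (EU U) (cl U (bseqN v)) i y)
      (Df.ex (Df.Rel _ _ _)) ⊤ (fun V _ n => ?_) U U.top y hy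
    exact ⟨cl V (oN B n), (rel_bseqN v V n _).2 rfl⟩
  · rintro ⟨i, hi⟩
    refine b_seqval (R := fun U y => EU U y (cl U (famN' v))) (Df.mem _ _) (bseqN v) ⊤
      (fun V _ => isFn_bseqN v V) (fun V _ n y hy => ?_) U U.top i y hi
    rw [rel_bseqN] at hy
    rw [hy]
    exact mem_famN' v V n

/-- a function with domain `ω` and values in a ground model family is locally a ground model
sequence -/
theorem b_fun (hB : OmegaDistributive B) {I : Type} (v : I → BSet B) (f : BSet B) (b : B)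
    (hf : ∀ U : Ult B, b ∈ U.s → IsFn (EU U) (cl U f) (cl U (oN B ω)) ∧
      ∀ i y, Rel (EU U) (cl U f) i y → EU U y (cl U (famN' v)))
    {T : Ult B → Prop} (hT : Df (G := Unit) (fun U _ => T U))
    (h : ∀ (g : ℕ → I) (d : B), d ≤ b → (∀ U : Ult B, d ∈ U.s → ∀ (n : ℕ) (y : MU U),
      Rel (EU U) (cl U f) (cl U (oN B n)) y ↔ y = cl U (v (g n))) →
      ∀ U : Ult B, d ∈ U.s → T U)
    (U : Ult B) (hU : b ∈ U.s) : T U := by
  choose y hy using fun n => b_exval b f (fun U hU => (hf U hU).1) n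
  refine b_seq hB (fun n i => beq (y n) (v i)) b (fun n => ?_) hT (fun g V hV hg => ?_) U hU
  · rw [← b_mem_fam, le_iff_ult]
    intro V hV
    rw [← EU_cl]
    exact (hf V hV).2 _ _ ((hy n V hV _).2 rfl)
  · refine h g (b ⊓ ⨅ n, beq (y n) (v (g n))) inf_le_left (fun W hW n z => ?_) V
      ((V.inf _ _).2 ⟨hV, hg⟩)
    rw [W.inf] at hW
    have h1 : cl W (y n) = cl W (v (g n)) := cl_eq.2 (W.mono (iInf_le _ n) hW.2)
    rw [hy n W hW.1, h1]

end

end Pool.Agent.G16
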