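import Pool.Agent.G16.BDefs

/-!
# Group G16: finite powers inside a model of set theory, the final statement for MP_b4c787
-/

set_option autoImplicit false

namespace Pool.Agent.G16

open CI

section

universe u

variable {M : Type u} (E : M → M → Prop)

/-- the points of the `n`-th power of the Cantor space are the functions with domain `n` whose
values are subsets of `w` -/
def YP (w n p : M) : Prop := IsFn E p n ∧ ∀ i x, Rel E p i x → Sub E x w

/-- the set of all points `p` of the `n`-th power with `m ∈ p i`, for some `i ∈ n` and `m ∈ w` -/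
def GenP (w n g : M) : Prop := ∃ i m, E i n ∧ E m w ∧
  ∀ p, E p g ↔ YP E w n p ∧ ∃ x, Rel E p i x ∧ E m x

/-- `A` is a Borel subset of the `n`-th power of the Cantor space -/
def IsBorP (w n A : M) : Prop := IsBor E w (YP E w n) (GenP E w n) A

/-- `Z` is the `n`-th power of `X`: the set of all functions from `n` to `X` -/
def IsPow (n X Z : M) : Prop := ∀ p, E p Z ↔ IsMap E p n X

/-- the natural number `n` is at least `2` -/
def GeTwo (n : M) : Prop := ∃ i j, E i n ∧ E j n ∧ i ≠ j

end

/-- the final statement for MP_b4c787: there is a model of ZFC in which some subset `X` of the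
Cantor space satisfies `S₁(ℬ_Ω, ℬ_Ω)` and all its finite powers `X ^ n`, `n ≥ 2`, fail
`S₁(ℬ, ℬ)` -/
def FinalP : Prop := ∃ (M : Type 1) (E : M → M → Prop), ZFC E ∧ ∃ w X : M, IsOmega E w ∧
  (∀ x, E x X → Sub E x w) ∧
  S1 E w (IsBOm E w (IsBor1 E w) X) (IsBOm E w (IsBor1 E w) X) ∧
  ∀ n, E n w → GeTwo E n → ∃ Z, IsPow E n X Z ∧
    ¬ S1 E w (IsBCov E w (IsBorP E w n) Z) (IsBCov E w (IsBorP E w n) Z)

end Pool.Agent.G16
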