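import Pool.Agent.G16.BFrc

/-!
# Group G16: the forcing part for MP_b4c787 on the Cantor space, all finite powers
-/

set_option autoImplicit false

open Pool.Agent.H46.BorelPow

namespace Pool.Agent.G16

section

variable {B : Type} [CompleteBooleanAlgebra B]

/-- the `n`-th power of `X` -/
def bvPw (X : Pt → B) (n : ℕ) (v : Fin n → Pt) : B := ⨅ i, X (v i)

/-- the result of the forcing part for MP_b4c787, all finite powers -/
structure FrcP (X : Pt → B) : Prop where
  dist : OmegaDistributive B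
  pos : bvS1 (bvOmegaCover X) = ⊤
  neg : ∀ n, 2 ≤ n → bvS1 (bvCover (bvPw X n)) = ⊥

end

theorem frcP : ∃ (B : Type) (_ : CompleteBooleanAlgebra B) (X : Pt → B), (⊥ : B) ≠ ⊤ ∧
    FrcP X := by
  obtain ⟨B, inst, hnt, hd, X, hX1, hX2⟩ := bv_main
  have hPt : ¬ Countable Pt := by
    intro h
    have h1 : Cardinal.mk Pt ≤ Cardinal.aleph0 := Cardinal.mk_le_aleph0_iff.2 h
    have h2 : Cardinal.mk Pt = Cardinal.continuum := by
      rw [show Cardinal.mk Pt = Cardinal.mk (ℕ → Bool) from rfl, ← Cardinal.power_def,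
        Cardinal.mk_bool, Cardinal.mk_nat, Cardinal.two_power_aleph0]
    rw [h2] at h1
    exact absurd h1 (not_le.2 Cardinal.aleph0_lt_continuum)
  have hR : ¬ Countable ℝ := by
    intro h
    exact not_countable (α := ℝ) h
  let e : ℝ ≃ᵐ Pt := PolishSpace.measurableEquivOfNotCountable hR hPt
  refine ⟨B, inst, fun x => X (e.symm x), bot_ne_top, hd, ?_, fun n hn => ?_⟩
  · rw [← hX1]
    exact bf_s1 e (bvOmegaCover X) _ (fun V => bf_om e.toEquiv X _ (fun a => by
      show X (e.symm (e a)) = X a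
      rw [e.symm_apply_apply]) V)
  · rw [← hX2 n hn]
    let e2 : (Fin n → ℝ) ≃ᵐ (Fin n → Pt) := MeasurableEquiv.piCongrRight (fun _ => e)
    refine bf_s1 e2 (bvCover (bvPower X n)) _ (fun V => bf_cov e2.toEquiv (bvPower X n) _
      (fun v => ?_) V)
    show (⨅ i, X (e.symm (e (v i)))) = ⨅ i, X (v i)
    exact iInf_congr fun i => by rw [e.symm_apply_apply]

end Pool.Agent.G16
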