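import Pool.Agent.G16.BSp

/-!
# Group G16: the selection principle for Borel omega-covers, and the final statement for MP_b4c787
-/

set_option autoImplicit false

open Pool.Agent.H46.BorelPow (tv OmegaDistributive bvSubset bvCover bvOmegaCover bvS1)

namespace Pool.Agent.G16

open CI BSet Ordinal

section

variable {B : Type} [CompleteBooleanAlgebra B]

theorem xN_eq (hB : OmegaDistributive B) (X : Pt → B) : (D1 hB).xN X = ptN X := rfl

theorem vFin_eq (X : Pt → B) (F : Finset Pt) : (⨅ x ∈ F, X x) = vFin X F := rfl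

theorem isBOm_iff (hB : OmegaDistributive B) (X : Pt → B) (h : ℕ → Set Pt)
    (hh : ∀ n, MeasurableSet (h n)) (U : Ult B) :
    IsBOm (EU U) (cl U (oN B ω)) ((D1 hB).Bo U) (cl U (ptN X))
      (cl U (famN' fun n => (D1 hB).g (h n))) ↔ bvOmegaCover X h ∈ U.s := by
  have hh' : ∀ n, (D1 hB).Gm (h n) := fun n => (gm1 hB _).2 (hh n)
  constructor
  · intro h1
    obtain ⟨P, hP⟩ := b_get (B := B) (T := fun U => IsBOm (EU U) (cl U (oN B ω)) ((D1 hB).Bo U)
      (cl U (ptN X)) (cl U (famN' fun n => (D1 hB).g (h n)))) (dfIsBOm (D1 hB).dBo _ _)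
    refine U.mono (le_inf ?_ (le_iInf fun F => ?_)) ((hP U).1 h1)
    · rw [le_iff_ult]
      intro V hV
      exact ((D1 hB).isBCov_iff X h hh' V).1 ((hP V).2 hV).1
    · rw [le_himp_iff, le_iff_ult]
      intro V hV
      rw [V.inf, vFin_eq] at hV
      rw [tv_mem]
      obtain ⟨v, hv, hFv⟩ := ((hP V).2 hV.1).2 _ (isFinite_gN F V) ((sub_gN X F V).2 hV.2)
      refine b_fam (fun n => (D1 hB).g (h n)) (R := fun U v =>
        Sub (EU U) (cl U (gN B (↑F : Set Pt))) v → ∃ m, (↑F : Set Pt) ⊆ h m)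
        (Df.imp (Df.Sub _ _) (Df.const _)) ⊤ ?_ V V.top v hv hFv
      intro W _ n hn
      exact ⟨n, fun p hp => ((D1 hB).mem_g W _ p).1 (hn _ ((mem_gN _ W p).2 hp))⟩
  · intro h1
    refine ⟨((D1 hB).isBCov_iff X h hh' U).2 (U.mono inf_le_left h1), ?_⟩
    intro F hF hFX
    refine ball_fin hB X (R := fun U F => ∃ v, EU U v (cl U (famN' fun n => (D1 hB).g (h n))) ∧
      Sub (EU U) F v) (Df.ex (Df.and (Df.mem _ _) (Df.Sub _ _))) (bvOmegaCover X h) ?_ U h1 F hF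
      hFX
    intro V hV F hF
    have h2 := V.mono (inf_le_right.trans (iInf_le _ F)) hV
    rw [V.himp, tv_mem, vFin_eq] at h2
    obtain ⟨m, hm⟩ := h2 hF
    refine ⟨cl V ((D1 hB).g (h m)), mem_famN' _ V m, ?_⟩
    intro y hy
    rw [gN_eq_fam, mem_fam_fin] at hy
    obtain ⟨p, hp, rfl⟩ := hy
    exact ((D1 hB).mem_g V _ p).2 (hm hp)

/-- the selection principle in the two-valued models -/
theorem PSys.pos {K : Type} (D : PSys B K) (hB : OmegaDistributive B) [MeasurableSpace K]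
    (hm : ∀ A : Set K, D.Gm A → MeasurableSet A) (Q : ∀ U : Ult B, MU U → Prop)
    (dQ : Df (G := BSet B) (fun U x => Q U (cl U x)))
    (hQc : ∀ (U : Ult B) (A : MU U), Q U A → IsCtbl (EU U) (cl U (oN B ω)) A ∧
      ∀ v, EU U v A → D.Bo U v)
    (q : (ℕ → Set K) → B)
    (hQ : ∀ h : ℕ → Set K, (∀ n, MeasurableSet (h n)) → ∀ U : Ult B,
      (Q U (cl U (famN' fun n => D.g (h n))) ↔ q h ∈ U.s))
    (hpos : bvS1 q = ⊤) (U : Ult B) : S1 (EU U) (cl U (oN B ω)) (Q U) (Q U) := by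
  intro S hS hA
  obtain ⟨S, rfl⟩ := cl_surj U S
  obtain ⟨d, hd⟩ := b_get (B := B) (T := fun U => IsFn (EU U) (cl U S) (cl U (oN B ω)) ∧
    ∀ n A, Rel (EU U) (cl U S) n A → Q U A)
    (Df.and (Df.IsFn _ _) (Df.all (Df.all (Df.imp (Df.Rel _ _ _)
      (dQ.comp fun z : (Unit × BSet B) × BSet B => z.2)))))
  choose A hAn using fun n => b_exval d S (fun V hV => ((hd V).2 hV).1) n
  have hom : ∀ n (V : Ult B), d ∈ V.s → Q V (cl V (A n)) :=
    fun n V hV => ((hd V).2 hV).2 _ _ ((hAn n V hV _).2 rfl)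
  have hf : ∀ n, ∃ f : BSet B, ∀ V : Ult B, d ∈ V.s → IsFn (EU V) (cl V f) (cl V (oN B ω)) ∧
      ∀ v, EU V v (cl V (A n)) ↔ ∃ i, Rel (EU V) (cl V f) i v := fun n =>
    exists_name (R := fun V f => IsFn (EU V) f (cl V (oN B ω)) ∧
      ∀ v, EU V v (cl V (A n)) ↔ ∃ i, Rel (EU V) f i v)
      (Df.and (Df.IsFn _ _) (Df.all (Df.iff (Df.mem _ _) (Df.ex (Df.Rel _ _ _))))) d
      (fun V hV => (hQc V _ (hom n V hV)).1)
  choose f hf using hf
  choose y hy using fun n m => b_exval d (f n) (fun V hV => (hf n V hV).1) m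
  have hyA : ∀ n m (V : Ult B), d ∈ V.s → EU V (cl V (y n m)) (cl V (A n)) := fun n m V hV =>
    ((hf n V hV).2 _).2 ⟨_, (hy n m V hV _).2 rfl⟩
  have hT : Df (G := Unit) (fun (U : Ult B) (_ : Unit) => ∃ c, IsFn (EU U) c (cl U (oN B ω)) ∧
      (∀ n A u, Rel (EU U) (cl U S) n A → Rel (EU U) c n u → EU U u A) ∧
      ∃ R, (∀ u, EU U u R ↔ ∃ n, Rel (EU U) c n u) ∧ Q U R) :=
    Df.ex (Df.and (Df.IsFn _ _) (Df.and (Df.all (Df.all (Df.all (Df.imp (Df.Rel _ _ _)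
      (Df.imp (Df.Rel _ _ _) (Df.mem _ _)))))) (Df.ex (Df.and (Df.all (Df.iff (Df.mem _ _)
        (Df.ex (Df.Rel _ _ _)))) (dQ.comp fun z : (Unit × BSet B) × BSet B => z.2)))))
  refine b_seq2 hB (I := {A : Set K // D.Gm A}) (fun n m i => beq (y n m) (D.g i.1))
    d (fun n m => ?_) hT (fun H V hV hH => ?_) U ((hd U).1 ⟨hS, hA⟩)
  · rw [← b_mem_fam (I := {A : Set K // D.Gm A}) (fun A => D.g A.1), le_iff_ult]
    intro V hV
    exact D.bor_bo hB V (cl V (y n m)) ((hQc V _ (hom n V hV)).2 _ (hyA n m V hV))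
  · have hm' : ∀ n m, MeasurableSet (H n m).1 := fun n m => hm _ (H n m).2
    obtain ⟨d', hd'⟩ : ∃ d' : B, d' = d ⊓ ⨅ n, ⨅ m, beq (y n m) (D.g (H n m).1) := ⟨_, rfl⟩
    have heq : ∀ n m (W : Ult B), d' ∈ W.s → cl W (y n m) = cl W (D.g (H n m).1) := by
      intro n m W hW
      rw [hd', W.inf] at hW
      exact cl_eq.2 (W.mono ((iInf_le _ n).trans (iInf_le _ m)) hW.2)
    have hd'd : ∀ W : Ult B, d' ∈ W.s → d ∈ W.s := by
      intro W hW
      rw [hd', W.inf] at hW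
      exact hW.1
    have hAeq : ∀ n (W : Ult B), d' ∈ W.s →
        cl W (A n) = cl W (famN' fun m => D.g (H n m).1) := by
      intro n W hW
      have hWd : d ∈ W.s := hd'd W hW
      apply EU_ext
      intro z
      rw [(hf n W hWd).2, b_range]
      refine exists_congr fun i => ?_
      refine b_funeq (fun m => D.g (H n m).1) (f n) d'
        (fun W' hW' => (hf n W' (hd'd W' hW')).1) (fun W' hW' m z => ?_) W hW i z
      rw [hy n m W' (hd'd W' hW'), heq n m W' hW']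
    have hle : d' ≤ ⨆ c : ℕ → ℕ, q (fun n => (H n (c n)).1) := by
      have h1 : bvS1 q ≤ ((⨅ n, q (fun m => (H n m).1)) ⇨
          ⨆ c : ℕ → ℕ, q (fun n => (H n (c n)).1)) := 
        iInf_le (fun 𝒰 : {𝒰 : ℕ → ℕ → Set K // ∀ n m, MeasurableSet (𝒰 n m)} =>
          ((⨅ n, q (𝒰.1 n)) ⇨ ⨆ c : ℕ → ℕ, q (fun n => 𝒰.1 n (c n)))) ⟨fun n m => (H n m).1, hm'⟩
      rw [hpos, le_himp_iff, top_inf_eq] at h1
      refine le_trans (le_iInf fun n => ?_) h1
      rw [le_iff_ult]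
      intro W hW
      rw [← hQ (fun m => (H n m).1) (hm' n) W, ← hAeq n W hW]
      exact hom n W (hd'd W hW)
    have hV' : d' ∈ V.s := by
      rw [hd', V.inf]
      exact ⟨hV, hH⟩
    refine b_sup (fun c : ℕ → ℕ => q (fun n => (H n (c n)).1)) d' hle hT
      (fun W hW c hc => ?_) V hV'
    refine ⟨cl W (bseqN fun n => D.g (H n (c n)).1), isFn_bseqN _ W, ?_,
      cl W (famN' fun n => D.g (H n (c n)).1), fun u => b_range _ W u,
      (hQ (fun n => (H n (c n)).1) (fun n => hm' n _) W).2 hc⟩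
    intro n A' u hA' hu
    have hWd : d ∈ W.s := hd'd W hW
    refine ball_omega (R := fun U n => ∀ A' u, Rel (EU U) (cl U S) n A' →
      Rel (EU U) (cl U (bseqN fun n => D.g (H n (c n)).1)) n u → EU U u A')
      (Df.all (Df.all (Df.imp (Df.Rel _ _ _) (Df.imp (Df.Rel _ _ _) (Df.mem _ _))))) d'
      (fun W' hW' n A' u hA' hu => ?_) W hW n (((hd W).2 hWd).1.dom (zfc W) hA') A' u hA' hu
    have hWd' : d ∈ W'.s := hd'd W' hW'
    rw [hAn n W' hWd'] at hA'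
    rw [rel_bseqN] at hu
    rw [hA', hu, ← heq n (c n) W' hW']
    exact hyA n (c n) W' hWd'

/-- the selection principle for Borel omega-covers -/
theorem pos (hB : OmegaDistributive B) (X : Pt → B) (hpos : bvS1 (bvOmegaCover X) = ⊤)
    (U : Ult B) :
    S1 (EU U) (cl U (oN B ω)) (IsBOm (EU U) (cl U (oN B ω)) ((D1 hB).Bo U) (cl U (ptN X)))
      (IsBOm (EU U) (cl U (oN B ω)) ((D1 hB).Bo U) (cl U (ptN X))) :=
  (D1 hB).pos hB (fun A hA => (gm1 hB A).1 hA)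
    (fun U => IsBOm (EU U) (cl U (oN B ω)) ((D1 hB).Bo U) (cl U (ptN X)))
    (dfIsBOm (D1 hB).dBo _ _) (fun _ _ h => ⟨h.1.1, h.1.2.1⟩) (bvOmegaCover X)
    (fun h hh U => isBOm_iff hB X h hh U) hpos U

theorem isSq_N (hB : OmegaDistributive B) (X : Pt → B) (U : Ult B) :
    IsSq (EU U) (cl U (ptN X)) (cl U ((D2 hB).xN (bvSq X))) := by
  intro p
  constructor
  · intro h
    refine (D2 hB).ball_xN (bvSq X) (R := fun U p => ∃ x y, EU U x (cl U (ptN X)) ∧
      EU U y (cl U (ptN X)) ∧ IsPair (EU U) p x y) (Df.ex (Df.ex (Df.and (Df.mem _ _)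
        (Df.and (Df.mem _ _) (Df.IsPair _ _ _))))) ⊤ (fun V _ p hp => ?_) U U.top p h
    rw [bvSq, V.inf] at hp
    exact ⟨_, _, (mem_ptN X V p.1).2 hp.1, (mem_ptN X V p.2).2 hp.2, isPair_ck2 V p⟩
  · rintro ⟨x, y, hx, hy, hp⟩
    refine ball_ptN (R := fun U x => ∀ y, EU U y (cl U (ptN X)) → ∀ p, IsPair (EU U) p x y →
      EU U p (cl U ((D2 hB).xN (bvSq X)))) (Df.all (Df.imp (Df.mem _ _) (Df.all (Df.imp
        (Df.IsPair _ _ _) (Df.mem _ _))))) X ⊤ (fun V _ x hx y hy p hp => ?_) U U.top x hx y hy p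
      hp
    refine ball_ptN (R := fun U y => ∀ p, IsPair (EU U) p (cl U (ck B x)) y →
      EU U p (cl U ((D2 hB).xN (bvSq X)))) (Df.all (Df.imp (Df.IsPair _ _ _) (Df.mem _ _))) X
      (X x) (fun W hW y hy p hp => ?_) V hx y hy p hp
    rw [hp.uniq (zfc W) (isPair_ck2 W (x, y))]
    exact ((D2 hB).mem_xN (bvSq X) W (x, y)).2 ((W.inf _ _).2 ⟨hW, hy⟩)

end

/-- there is a model of ZFC with a subset of the Cantor space which satisfies `S₁(ℬ_Ω, ℬ_Ω)` and
whose square fails `S₁(ℬ, ℬ)` -/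
theorem finalB : FinalB := by
  obtain ⟨B, _, X, hne, hF⟩ := frcB
  obtain ⟨U, -⟩ := exists_ult (B := B) hne.symm
  exact ⟨MU U, EU U, zfc U, cl U (oN B ω), cl U (ptN X), cl U ((D2 hF.dist).xN (bvSq X)),
    isOmega_oN U, fun x hx => ptN_sub X U x hx, isSq_N hF.dist X U, pos hF.dist X hF.pos U,
    (D2 hF.dist).neg hF.dist (bvSq X) (gm2 hF.dist) hF.neg U⟩

end Pool.Agent.G16
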