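import Pool.Agent.G16.BPos
import Pool.Agent.G16.BPDefs
import Pool.Agent.G16.BPFrc

/-!
# Group G16: finite powers of the Cantor space in the two-valued models
-/

set_option autoImplicit false

open Pool.Agent.H46.BorelPow (tv OmegaDistributive bvSubset bvCover bvOmegaCover bvS1)

namespace Pool.Agent.G16

open CI BSet Ordinal

universe v

/-- two functions with the same domain, one of which extends the other -/
theorem fn_ext {M : Type*} {E : M → M → Prop} (hE : ZFC E) {f g a : M} (hf : IsFn E f a)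
    (hg : IsFn E g a) (h : ∀ x y, Rel E f x y → Rel E g x y) : f = g := by
  apply hE.ext
  intro z
  constructor
  · intro hz
    obtain ⟨x, y, -, hp⟩ := hf.1 z hz
    obtain ⟨z', hp', hz'⟩ := h x y ⟨z, hp, hz⟩
    rw [hp.uniq hE hp']
    exact hz'
  · intro hz
    obtain ⟨x, y, hx, hp⟩ := hg.1 z hz
    obtain ⟨y', hy', -⟩ := hf.2 x hx
    have h1 : y = y' := (hg.2 x hx).unique ⟨z, hp, hz⟩ (h x y' hy')
    rw [← h1] at hy'
    obtain ⟨z', hp', hz'⟩ := hy'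
    rw [hp.uniq hE hp']
    exact hz'

section

variable {B : Type} [CompleteBooleanAlgebra B] {G : Type v}

/-! ### truth values -/

theorem dfYP (n p : G → BSet B) :
    Df (fun U g => YP (EU U) (cl U (oN B ω)) (cl U (n g)) (cl U (p g))) := by
  unfold YP
  exact Df.and (Df.IsFn _ _) (Df.all (Df.all (Df.imp (Df.Rel _ _ _) (Df.Sub _ _))))

theorem dfGenP (n p : G → BSet B) :
    Df (fun U g => GenP (EU U) (cl U (oN B ω)) (cl U (n g)) (cl U (p g))) := by
  unfold GenP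
  exact Df.ex (Df.ex (Df.and (Df.mem _ _) (Df.and (Df.mem _ _) (Df.all (Df.iff (Df.mem _ _)
    (Df.and (dfYP _ _) (Df.ex (Df.and (Df.Rel _ _ _) (Df.mem _ _)))))))))

theorem dfIsSig {Y Gen : ∀ U : Ult B, G → MU U → Prop}
    (hY : Df (G := G × BSet B) (fun U x => Y U x.1 (cl U x.2)))
    (hGen : Df (G := G × BSet B) (fun U x => Gen U x.1 (cl U x.2))) (S : G → BSet B) :
    Df (fun U g => IsSig (EU U) (cl U (oN B ω)) (Y U g) (Gen U g) (cl U (S g))) := by
  have h : ∀ (U : Ult B) (g : G), IsSig (EU U) (cl U (oN B ω)) (Y U g) (Gen U g) (cl U (S g)) ↔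
      ((∀ x, Gen U g x → EU U x (cl U (S g))) ∧
        (∀ a c, EU U a (cl U (S g)) → (∀ x, EU U x c ↔ Y U g x ∧ ¬ EU U x a) →
          EU U c (cl U (S g))) ∧
        ∀ f c, IsFn (EU U) f (cl U (oN B ω)) → (∀ i a, Rel (EU U) f i a →
          EU U a (cl U (S g))) → (∀ x, EU U x c ↔ ∃ i a, Rel (EU U) f i a ∧ EU U x a) →
          EU U c (cl U (S g))) := fun U g =>
    ⟨fun h => ⟨h.gen, h.compl, h.union⟩, fun h => ⟨h.1, h.2.1, h.2.2⟩⟩
  simp only [h]
  refine Df.and (Df.all (Df.imp hGen (Df.mem _ _)))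
    (Df.and (Df.all (Df.all (Df.imp (Df.mem _ _) (Df.imp (Df.all (Df.iff (Df.mem _ _)
      (Df.and ?_ (Df.not (Df.mem _ _))))) (Df.mem _ _)))))
      (Df.all (Df.all (Df.imp (Df.IsFn _ _) (Df.imp (Df.all (Df.all (Df.imp (Df.Rel _ _ _)
        (Df.mem _ _)))) (Df.imp (Df.all (Df.iff (Df.mem _ _) (Df.ex (Df.ex
          (Df.and (Df.Rel _ _ _) (Df.mem _ _)))))) (Df.mem _ _)))))))
  exact hY.comp fun z : ((G × BSet B) × BSet B) × BSet B => (z.1.1.1, z.2)

theorem dfIsBorP (n A : G → BSet B) :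
    Df (fun U g => IsBorP (EU U) (cl U (oN B ω)) (cl U (n g)) (cl U (A g))) := by
  unfold IsBorP IsBor
  refine Df.all (Df.imp ?_ (Df.mem _ _))
  exact dfIsSig (G := G × BSet B)
    (Y := fun U g => YP (EU U) (cl U (oN B ω)) (cl U (n g.1)))
    (Gen := fun U g => GenP (EU U) (cl U (oN B ω)) (cl U (n g.1))) (dfYP _ _) (dfGenP _ _) _

theorem dfIsBCovP (n X V : G → BSet B) :
    Df (fun U g => IsBCov (EU U) (cl U (oN B ω)) (IsBorP (EU U) (cl U (oN B ω)) (cl U (n g)))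
      (cl U (X g)) (cl U (V g))) := by
  unfold IsBCov
  exact Df.and (dfIsCtbl _) (Df.and (Df.all (Df.imp (Df.mem _ _) (dfIsBorP _ _)))
    (Df.and (Df.all (Df.imp (Df.mem _ _) (Df.not (Df.Sub _ _))))
      (Df.all (Df.imp (Df.mem _ _) (Df.ex (Df.and (Df.mem _ _) (Df.mem _ _)))))))

/-! ### points -/

/-- the name of a ground model point of the `n`-th power -/
noncomputable def ckP (B : Type) [CompleteBooleanAlgebra B] {n : ℕ} (p : Fin n → Pt) : BSet B :=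
  relN (I := Fin n) (fun _ => ⊤) (fun j => oN B ((j : ℕ) : Ordinal)) (fun j => ck B (p j))

theorem rel_ckP {n : ℕ} (U : Ult B) (p : Fin n → Pt) (x y : MU U) :
    Rel (EU U) (cl U (ckP B p)) x y ↔
      ∃ j : Fin n, x = cl U (oN B ((j : ℕ) : Ordinal)) ∧ y = cl U (ck B (p j)) := by
  obtain ⟨x, rfl⟩ := cl_surj U x
  obtain ⟨y, rfl⟩ := cl_surj U y
  rw [ckP, rel_relN, U.iSup_fin]
  simp only [top_inf_eq, U.inf, cl_eq]

theorem isFn_ckP {n : ℕ} (U : Ult B) (p : Fin n → Pt) :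
    IsFn (EU U) (cl U (ckP B p)) (cl U (oN B (n : Ordinal))) := by
  constructor
  · intro q hq
    obtain ⟨s, t, rfl, h⟩ := mem_relN U _ _ _ q hq
    rw [← rel_relN] at h
    obtain ⟨j, hj, -⟩ := (rel_ckP U p _ _).1 h
    exact ⟨cl U s, cl U t, by rw [hj, EU_oN, Nat.cast_lt]; exact j.2, isPair_opN U s t⟩
  · intro x hx
    obtain ⟨m, hm, rfl⟩ := (EU_nat U _ x).1 hx
    refine ⟨cl U (ck B (p ⟨m, hm⟩)), (rel_ckP U p _ _).2 ⟨⟨m, hm⟩, rfl, rfl⟩, ?_⟩
    intro y hy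
    obtain ⟨j, hj, rfl⟩ := (rel_ckP U p _ _).1 hy
    rw [nat_inj] at hj
    have : (⟨m, hm⟩ : Fin n) = j := Fin.ext hj
    rw [this]

theorem yP_ckP {n : ℕ} (U : Ult B) (p : Fin n → Pt) :
    YP (EU U) (cl U (oN B ω)) (cl U (oN B (n : Ordinal))) (cl U (ckP B p)) := by
  refine ⟨isFn_ckP U p, fun i x h => ?_⟩
  obtain ⟨j, -, rfl⟩ := (rel_ckP U p _ _).1 h
  exact ck_sub U _

theorem ckP_inj {n : ℕ} (U : Ult B) (p q : Fin n → Pt)
    (h : cl U (ckP B p) = cl U (ckP B q)) : p = q := by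
  funext j
  have h1 : Rel (EU U) (cl U (ckP B p)) (cl U (oN B ((j : ℕ) : Ordinal))) (cl U (ck B (p j))) :=
    (rel_ckP U p _ _).2 ⟨j, rfl, rfl⟩
  rw [h, rel_ckP] at h1
  obtain ⟨j', hj, hp⟩ := h1
  rw [nat_inj] at hj
  rw [Fin.ext hj]
  rw [ck_inj] at hp
  rw [← hp, Fin.ext hj]

/-- every point of the `n`-th power is locally a ground model point -/
theorem ball_ptP (hB : OmegaDistributive B) {n : ℕ} {R : ∀ U : Ult B, MU U → Prop}
    (hR : Df (G := BSet B) (fun U x => R U (cl U x))) (b : B)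
    (hb : ∀ U : Ult B, b ∈ U.s → ∀ p : Fin n → Pt, R U (cl U (ckP B p)))
    (U : Ult B) (hU : b ∈ U.s) (y : MU U)
    (hy : YP (EU U) (cl U (oN B ω)) (cl U (oN B (n : Ordinal))) y) : R U y := by
  obtain ⟨y, rfl⟩ := cl_surj U y
  obtain ⟨d, hd⟩ := b_get (B := B) (T := fun U => b ∈ U.s ∧
    YP (EU U) (cl U (oN B ω)) (cl U (oN B (n : Ordinal))) (cl U y))
    (Df.and (Df.val fun _ => b) (dfYP _ _))
  have h1 : ∀ (i : ℕ) (p : Pt), ∃ P : B, ∀ U : Ult B,
      Rel (EU U) (cl U y) (cl U (oN B ((i : ℕ) : Ordinal))) (cl U (ck B p)) ↔ P ∈ U.s :=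
    fun i p => Df.get (Df.Rel _ _ _)
  choose P hP using h1
  refine b_seq hB (I := Pt) (fun i p => if i < n then P i p else ⊤) d (fun i => ?_)
    (T := fun U => R U (cl U y)) (hR.comp fun _ => y) (fun c V hV hc => ?_) U
    ((hd U).1 ⟨hU, hy⟩)
  · by_cases hi : i < n
    · simp only [hi, if_true]
      rw [le_iff_ult]
      intro V hV
      obtain ⟨-, hfn, hval⟩ := (hd V).2 hV
      obtain ⟨x, hx, -⟩ := hfn.2 (cl V (oN B ((i : ℕ) : Ordinal)))
        (by rw [EU_oN, Nat.cast_lt]; exact hi)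
      exact ball_pt hB (R := fun U x => Rel (EU U) (cl U y) (cl U (oN B ((i : ℕ) : Ordinal))) x →
        (⨆ p, P i p) ∈ U.s) (Df.imp (Df.Rel _ _ _) (Df.val fun _ => _)) ⊤
        (fun W _ p hp => W.mono (le_iSup (P i) p) ((hP i p W).1 hp)) V V.top x (hval _ _ hx) hx
    · simp only [hi, if_false]
      exact le_top.trans (le_iSup_of_le (fun _ => false) le_rfl)
  · obtain ⟨hVb, hfn, hval⟩ := (hd V).2 hV
    have h2 : cl V y = cl V (ckP B (fun j : Fin n => c j)) := by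
      symm
      refine fn_ext (zfc V) (isFn_ckP V _) hfn ?_
      intro x z hxz
      rw [rel_ckP] at hxz
      obtain ⟨j, rfl, rfl⟩ := hxz
      have h3 := V.mono (iInf_le _ (j : ℕ)) hc
      simp only [j.2, if_true] at h3
      exact (hP _ _ V).2 h3
    rw [h2]
    exact hb V hVb _

/-! ### basic sets -/

/-- the basic sets -/
def basP {n : ℕ} (j : Fin n × ℕ) : Set (Fin n → Pt) := {p | p j.1 j.2 = true}

theorem mem_basP (hB : OmegaDistributive B) {n : ℕ} (U : Ult B) (j : Fin n) (m : ℕ) (y : MU U) :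
    EU U y (cl U (bgN (ckP B) (basP (j, m)))) ↔
      YP (EU U) (cl U (oN B ω)) (cl U (oN B (n : Ordinal))) y ∧
        ∃ x, Rel (EU U) y (cl U (oN B ((j : ℕ) : Ordinal))) x ∧ EU U (cl U (oN B m)) x := by
  constructor
  · intro h
    refine b_fam (I := basP (j, m)) (fun p => ckP B p.1) (R := fun U y =>
      YP (EU U) (cl U (oN B ω)) (cl U (oN B (n : Ordinal))) y ∧
        ∃ x, Rel (EU U) y (cl U (oN B ((j : ℕ) : Ordinal))) x ∧ EU U (cl U (oN B m)) x)
      (Df.and (dfYP _ _) (Df.ex (Df.and (Df.Rel _ _ _) (Df.mem _ _)))) ⊤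
      (fun V _ p => ?_) U U.top y h
    exact ⟨yP_ckP V p.1, cl V (ck B (p.1 j)), (rel_ckP V p.1 _ _).2 ⟨j, rfl, rfl⟩,
      (nat_mem_ck V (p.1 j) m).2 p.2⟩
  · rintro ⟨h1, h2⟩
    refine ball_ptP hB (R := fun U y => (∃ x, Rel (EU U) y (cl U (oN B ((j : ℕ) : Ordinal))) x ∧
      EU U (cl U (oN B m)) x) → EU U y (cl U (bgN (ckP B) (basP (j, m)))))
      (Df.imp (Df.ex (Df.and (Df.Rel _ _ _) (Df.mem _ _))) (Df.mem _ _)) ⊤
      (fun V _ p hp => ?_) U U.top y h1 h2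
    obtain ⟨x, hx, hm⟩ := hp
    obtain ⟨j', hj, rfl⟩ := (rel_ckP V p _ _).1 hx
    rw [nat_inj] at hj
    rw [← Fin.ext hj] at hm
    exact mem_famN' (I := basP (j, m)) (fun p => ckP B p.1) V ⟨p, (nat_mem_ck V (p j) m).1 hm⟩

/-- the `n`-th power of the Cantor space -/
noncomputable def DP (hB : OmegaDistributive B) (n : ℕ) (hn : 0 < n) : PSys B (Fin n → Pt) where
  ck := ckP B
  Y := fun U => YP (EU U) (cl U (oN B ω)) (cl U (oN B (n : Ordinal)))
  dY := dfYP _ _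
  ckY := yP_ckP
  inj := ckP_inj
  pt := fun _ hR b hb U hU y hy => ball_ptP hB hR b hb U hU y hy
  J := Fin n × ℕ
  j0 := (⟨0, hn⟩, 0)
  bas := basP
  Gen := fun U => GenP (EU U) (cl U (oN B ω)) (cl U (oN B (n : Ordinal)))
  dGen := dfGenP _ _
  genOf := fun U j => ⟨cl U (oN B ((j.1 : ℕ) : Ordinal)), cl U (oN B (j.2 : ℕ)),
    by rw [EU_oN, Nat.cast_lt]; exact j.1.2, nat_mem_omega U j.2, mem_basP hB U j.1 j.2⟩
  gen := fun R hR b hb U hU g hg => by
    obtain ⟨i, m, hi, hm, hg⟩ := hg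
    obtain ⟨i, hin, rfl⟩ := (EU_nat U _ i).1 hi
    refine ball_omega (R := fun U m => ∀ g, (∀ p, EU U p g ↔
      YP (EU U) (cl U (oN B ω)) (cl U (oN B (n : Ordinal))) p ∧
        ∃ x, Rel (EU U) p (cl U (oN B (i : Ordinal))) x ∧ EU U m x) → R U g) ?_ b
      (fun V hV m g hg => ?_) U hU m hm g hg
    · refine Df.all (Df.imp (Df.all (Df.iff (Df.mem _ _) (Df.and (dfYP _ _)
        (Df.ex (Df.and (Df.Rel _ _ _) (Df.mem _ _)))))) ?_)
      exact hR.comp fun z : BSet B × BSet B => z.2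
    · have h1 : g = cl V (bgN (ckP B) (basP (⟨i, hin⟩, m))) := by
        apply EU_ext
        intro z
        rw [hg, mem_basP hB]
      rw [h1]
      exact hb V hV (⟨i, hin⟩, m)

theorem gmP (hB : OmegaDistributive B) (n : ℕ) (hn : 0 < n) (A : Set (Fin n → Pt))
    (hA : MeasurableSet A) : (DP hB n hn).Gm A := by
  have h1 : (MeasurableSpace.pi : MeasurableSpace (Fin n → Pt)) ≤
      MeasurableSpace.generateFrom (Set.range basP) := by
    refine iSup_le fun j => ?_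
    rw [← measurable_iff_comap_le]
    refine @measurable_pi_lambda _ _ _ (MeasurableSpace.generateFrom (Set.range basP)) _ _
      fun m => ?_
    refine @measurable_to_bool _ (MeasurableSpace.generateFrom (Set.range basP)) _ ?_
    exact MeasurableSpace.measurableSet_generateFrom ⟨(j, m), rfl⟩
  exact h1 A hA

theorem isPow_N (hB : OmegaDistributive B) (n : ℕ) (hn : 0 < n) (X : Pt → B) (U : Ult B) :
    IsPow (EU U) (cl U (oN B (n : Ordinal))) (cl U (ptN X))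
      (cl U ((DP hB n hn).xN (bvPw X n))) := by
  intro p
  constructor
  · intro h
    refine (DP hB n hn).ball_xN (bvPw X n) (R := fun U p =>
      IsMap (EU U) p (cl U (oN B (n : Ordinal))) (cl U (ptN X))) (Df.IsMap _ _ _) ⊤
      (fun V _ p hp => ?_) U U.top p h
    refine ⟨isFn_ckP V p, fun i x hx => ?_⟩
    obtain ⟨j, -, rfl⟩ := (rel_ckP V p _ _).1 hx
    rw [bvPw, V.iInf_fin] at hp
    exact (mem_ptN X V (p j)).2 (hp j)
  · intro h
    refine ball_ptP hB (R := fun U p => IsMap (EU U) p (cl U (oN B (n : Ordinal)))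
      (cl U (ptN X)) → EU U p (cl U ((DP hB n hn).xN (bvPw X n))))
      (Df.imp (Df.IsMap _ _ _) (Df.mem _ _)) ⊤ (fun V _ p hp => ?_) U U.top p
      ⟨h.1, fun i x hx => ptN_sub X U x (h.2 i x hx)⟩ h
    refine ((DP hB n hn).mem_xN (bvPw X n) V p).2 ?_
    rw [bvPw, V.iInf_fin]
    intro j
    exact (mem_ptN X V (p j)).1 (hp.2 _ _ ((rel_ckP V p _ _).2 ⟨j, rfl, rfl⟩))

theorem negP (X : Pt → B) (hF : FrcP X) (U : Ult B) (n : MU U) (hn : EU U n (cl U (oN B ω)))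
    (h2 : GeTwo (EU U) n) : ∃ Z, IsPow (EU U) n (cl U (ptN X)) Z ∧
      ¬ S1 (EU U) (cl U (oN B ω))
        (IsBCov (EU U) (cl U (oN B ω)) (IsBorP (EU U) (cl U (oN B ω)) n) Z)
        (IsBCov (EU U) (cl U (oN B ω)) (IsBorP (EU U) (cl U (oN B ω)) n) Z) := by
  refine ball_omega (R := fun U n => GeTwo (EU U) n → ∃ Z, IsPow (EU U) n (cl U (ptN X)) Z ∧
      ¬ S1 (EU U) (cl U (oN B ω))
        (IsBCov (EU U) (cl U (oN B ω)) (IsBorP (EU U) (cl U (oN B ω)) n) Z)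
        (IsBCov (EU U) (cl U (oN B ω)) (IsBorP (EU U) (cl U (oN B ω)) n) Z)) ?_ ⊤
      (fun V _ n h => ?_) U U.top n hn h2
  · unfold GeTwo IsPow S1
    exact Df.imp (Df.ex (Df.ex (Df.and (Df.mem _ _) (Df.and (Df.mem _ _)
      (Df.not (Df.eq _ _)))))) (Df.ex (Df.and (Df.all (Df.iff (Df.mem _ _) (Df.IsMap _ _ _)))
      (Df.not (Df.all (Df.imp (Df.IsFn _ _) (Df.imp (Df.all (Df.all (Df.imp (Df.Rel _ _ _)
        (dfIsBCovP _ _ _)))) (Df.ex (Df.and (Df.IsFn _ _) (Df.and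
          (Df.all (Df.all (Df.all (Df.imp (Df.Rel _ _ _) (Df.imp (Df.Rel _ _ _)
            (Df.mem _ _))))))
          (Df.ex (Df.and (Df.all (Df.iff (Df.mem _ _) (Df.ex (Df.Rel _ _ _))))
            (dfIsBCovP _ _ _))))))))))))
  · obtain ⟨i, j, hi, hj, hij⟩ := h
    obtain ⟨a, ha, rfl⟩ := (EU_nat V _ i).1 hi
    obtain ⟨b, hb, rfl⟩ := (EU_nat V _ j).1 hj
    have hab : a ≠ b := fun h => hij (by rw [h])
    have hn2 : 2 ≤ n := by omega
    have hn0 : 0 < n := by omega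
    exact ⟨cl V ((DP hF.dist n hn0).xN (bvPw X n)), isPow_N hF.dist n hn0 X V,
      (DP hF.dist n hn0).neg hF.dist (bvPw X n) (gmP hF.dist n hn0) (hF.neg n hn2) V⟩

end

/-- there is a model of ZFC with a subset of the Cantor space which satisfies `S₁(ℬ_Ω, ℬ_Ω)` and
whose finite powers `X ^ n`, `n ≥ 2`, fail `S₁(ℬ, ℬ)` -/
theorem finalP : FinalP := by
  obtain ⟨B, _, X, hne, hF⟩ := frcP
  obtain ⟨U, -⟩ := exists_ult (B := B) hne.symm
  exact ⟨MU U, EU U, zfc U, cl U (oN B ω), cl U (ptN X), isOmega_oN U,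
    fun x hx => ptN_sub X U x hx, pos hF.dist X hF.pos U,
    fun n hn h2 => negP X hF U n hn h2⟩

end Pool.Agent.G16
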