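import Pool.Agent.G16.BCov

/-!
# Group G16: the Cantor space and its square in the two-valued models
-/

set_option autoImplicit false

open Pool.Agent.H46.BorelPow (tv OmegaDistributive bvSubset bvCover bvOmegaCover bvS1)

namespace Pool.Agent.G16

open CI BSet Ordinal

section

variable {B : Type} [CompleteBooleanAlgebra B]

/-! ### the Cantor space -/

theorem dGen1 : Df (G := BSet B) (fun U x => Gen1 (EU U) (cl U (oN B ω)) (cl U x)) := by
  unfold Gen1
  exact Df.ex (Df.and (Df.mem _ _) (Df.all (Df.iff (Df.mem _ _) (Df.and (Df.Sub _ _)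
    (Df.mem _ _)))))

/-- the basic sets -/
def bas1 (n : ℕ) : Set Pt := {p | p n = true}

theorem mem_bas1 (hB : OmegaDistributive B) (U : Ult B) (n : ℕ) (x : MU U) :
    EU U x (cl U (bgN (ck B) (bas1 n))) ↔ Sub (EU U) x (cl U (oN B ω)) ∧
      EU U (cl U (oN B n)) x := by
  constructor
  · intro h
    refine b_fam (I := bas1 n) (fun p => ck B p.1) (R := fun U x =>
      Sub (EU U) x (cl U (oN B ω)) ∧ EU U (cl U (oN B n)) x) (Df.and (Df.Sub _ _) (Df.mem _ _)) ⊤
      (fun V _ p => ?_) U U.top x h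
    exact ⟨ck_sub V p.1, (nat_mem_ck V p.1 n).2 p.2⟩
  · rintro ⟨h1, h2⟩
    refine ball_pt hB (R := fun U x => EU U (cl U (oN B n)) x →
      EU U x (cl U (bgN (ck B) (bas1 n)))) (Df.imp (Df.mem _ _) (Df.mem _ _)) ⊤
      (fun V _ p hp => ?_) U U.top x h1 h2
    exact mem_famN' (I := bas1 n) (fun p => ck B p.1) V ⟨p, (nat_mem_ck V p n).1 hp⟩

/-- the Cantor space -/
noncomputable def D1 (hB : OmegaDistributive B) : PSys B Pt where
  ck := ck B
  Y := fun U => Y1 (EU U) (cl U (oN B ω))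
  dY := Df.Sub _ _
  ckY := ck_sub
  inj := fun U _ _ h => (ck_inj U).1 h
  pt := fun _ hR b hb U hU y hy => ball_pt hB hR b hb U hU y hy
  J := ℕ
  j0 := 0
  bas := bas1
  Gen := fun U => Gen1 (EU U) (cl U (oN B ω))
  dGen := dGen1
  genOf := fun U n => ⟨cl U (oN B n), nat_mem_omega U n, mem_bas1 hB U n⟩
  gen := fun R hR b hb U hU g hg => by
    obtain ⟨n, hn, hg⟩ := hg
    refine ball_omega (R := fun U n => ∀ g, (∀ x, EU U x g ↔ Sub (EU U) x (cl U (oN B ω)) ∧
      EU U n x) → R U g) ?_ b (fun V hV n g hg => ?_) U hU n hn g hg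
    · refine Df.all (Df.imp (Df.all (Df.iff (Df.mem _ _) (Df.and (Df.Sub _ _) (Df.mem _ _)))) ?_)
      exact hR.comp fun z : BSet B × BSet B => z.2
    · have h1 : g = cl V (bgN (ck B) (bas1 n)) := by
        apply EU_ext
        intro z
        rw [hg, mem_bas1 hB]
      rw [h1]
      exact hb V hV n

theorem gm1 (hB : OmegaDistributive B) (A : Set Pt) : (D1 hB).Gm A ↔ MeasurableSet A := by
  constructor
  · intro h
    have h1 : MeasurableSpace.generateFrom (Set.range bas1) ≤ MeasurableSpace.pi := by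
      refine MeasurableSpace.generateFrom_le ?_
      rintro _ ⟨n, rfl⟩
      have h2 : Measurable (fun p : Pt => p n) := measurable_pi_apply n
      exact h2 (MeasurableSet.singleton true)
    exact h1 A h
  · intro h
    have h1 : (MeasurableSpace.pi : MeasurableSpace Pt) ≤
        MeasurableSpace.generateFrom (Set.range bas1) := by
      refine iSup_le fun n => ?_
      rw [← measurable_iff_comap_le]
      refine @measurable_to_bool _ (MeasurableSpace.generateFrom (Set.range bas1)) _ ?_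
      exact MeasurableSpace.measurableSet_generateFrom ⟨n, rfl⟩
    exact h1 A h

/-! ### the square of the Cantor space -/

theorem dY2 : Df (G := BSet B) (fun U x => Y2 (EU U) (cl U (oN B ω)) (cl U x)) := by
  unfold Y2
  exact Df.ex (Df.ex (Df.and (Df.Sub _ _) (Df.and (Df.Sub _ _) (Df.IsPair _ _ _))))

theorem dGen2 : Df (G := BSet B) (fun U x => Gen2 (EU U) (cl U (oN B ω)) (cl U x)) := by
  unfold Gen2
  exact Df.ex (Df.and (Df.mem _ _) (Df.or
    (Df.all (Df.iff (Df.mem _ _) (Df.ex (Df.ex (Df.and (Df.Sub _ _) (Df.and (Df.Sub _ _)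
      (Df.and (Df.IsPair _ _ _) (Df.mem _ _))))))))
    (Df.all (Df.iff (Df.mem _ _) (Df.ex (Df.ex (Df.and (Df.Sub _ _) (Df.and (Df.Sub _ _)
      (Df.and (Df.IsPair _ _ _) (Df.mem _ _))))))))))

/-- the name of a pair of ground model points -/
noncomputable def ck2 (B : Type) [CompleteBooleanAlgebra B] (p : Pt × Pt) : BSet B :=
  opN (ck B p.1) (ck B p.2)

theorem isPair_ck2 (U : Ult B) (p : Pt × Pt) :
    IsPair (EU U) (cl U (ck2 B p)) (cl U (ck B p.1)) (cl U (ck B p.2)) := isPair_opN U _ _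

theorem ball_pt2 (hB : OmegaDistributive B) {R : ∀ U : Ult B, MU U → Prop}
    (hR : Df (G := BSet B) (fun U x => R U (cl U x))) (b : B)
    (hb : ∀ U : Ult B, b ∈ U.s → ∀ p : Pt × Pt, R U (cl U (ck2 B p)))
    (U : Ult B) (hU : b ∈ U.s) (y : MU U) (hy : Y2 (EU U) (cl U (oN B ω)) y) : R U y := by
  obtain ⟨x, x', hx, hx', hp⟩ := hy
  refine ball_pt hB (R := fun U x => ∀ x', Sub (EU U) x' (cl U (oN B ω)) → ∀ y,
    IsPair (EU U) y x x' → R U y) ?_ b (fun V hV p x' hx' y hy => ?_) U hU x hx x' hx' y hp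
  · refine Df.all (Df.imp (Df.Sub _ _) (Df.all (Df.imp (Df.IsPair _ _ _) ?_)))
    exact hR.comp fun z : (BSet B × BSet B) × BSet B => z.2
  · refine ball_pt hB (R := fun U x' => ∀ y, IsPair (EU U) y (cl U (ck B p)) x' → R U y) ?_ b
      (fun W hW p' y hy => ?_) V hV x' hx' y hy
    · refine Df.all (Df.imp (Df.IsPair _ _ _) ?_)
      exact hR.comp fun z : BSet B × BSet B => z.2
    · rw [hy.uniq (zfc W) (isPair_ck2 W (p, p'))]
      exact hb W hW (p, p')

/-- the basic sets -/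
def bas2 (j : ℕ × Bool) : Set (Pt × Pt) := {p | (if j.2 = true then p.2 else p.1) j.1 = true}

theorem mem_bas2a (hB : OmegaDistributive B) (U : Ult B) (n : ℕ) (y : MU U) :
    EU U y (cl U (bgN (ck2 B) (bas2 (n, false)))) ↔ ∃ x x', Sub (EU U) x (cl U (oN B ω)) ∧
      Sub (EU U) x' (cl U (oN B ω)) ∧ IsPair (EU U) y x x' ∧ EU U (cl U (oN B n)) x := by
  constructor
  · intro h
    refine b_fam (I := bas2 (n, false)) (fun p => ck2 B p.1) (R := fun U y => ∃ x x',
      Sub (EU U) x (cl U (oN B ω)) ∧ Sub (EU U) x' (cl U (oN B ω)) ∧ IsPair (EU U) y x x' ∧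
      EU U (cl U (oN B n)) x) (Df.ex (Df.ex (Df.and (Df.Sub _ _) (Df.and (Df.Sub _ _)
        (Df.and (Df.IsPair _ _ _) (Df.mem _ _)))))) ⊤
      (fun V _ p => ?_) U U.top y h
    exact ⟨_, _, ck_sub V p.1.1, ck_sub V p.1.2, isPair_ck2 V p.1, (nat_mem_ck V p.1.1 n).2 p.2⟩
  · rintro ⟨x, x', h1, h2, h3, h4⟩
    refine ball_pt2 hB (R := fun U y => ∀ x x', IsPair (EU U) y x x' →
      EU U (cl U (oN B n)) x → EU U y (cl U (bgN (ck2 B) (bas2 (n, false)))))
      (Df.all (Df.all (Df.imp (Df.IsPair _ _ _) (Df.imp (Df.mem _ _) (Df.mem _ _))))) ⊤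
      (fun V _ p x x' h3 h4 => ?_) U U.top y ⟨x, x', h1, h2, h3⟩ x x' h3 h4
    rw [(h3.inj (zfc V) (isPair_ck2 V p)).1] at h4
    exact mem_famN' (I := bas2 (n, false)) (fun p => ck2 B p.1) V
      ⟨p, (nat_mem_ck V p.1 n).1 h4⟩

theorem mem_bas2b (hB : OmegaDistributive B) (U : Ult B) (n : ℕ) (y : MU U) :
    EU U y (cl U (bgN (ck2 B) (bas2 (n, true)))) ↔ ∃ x x', Sub (EU U) x (cl U (oN B ω)) ∧
      Sub (EU U) x' (cl U (oN B ω)) ∧ IsPair (EU U) y x x' ∧ EU U (cl U (oN B n)) x' := by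
  constructor
  · intro h
    refine b_fam (I := bas2 (n, true)) (fun p => ck2 B p.1) (R := fun U y => ∃ x x',
      Sub (EU U) x (cl U (oN B ω)) ∧ Sub (EU U) x' (cl U (oN B ω)) ∧ IsPair (EU U) y x x' ∧
      EU U (cl U (oN B n)) x') (Df.ex (Df.ex (Df.and (Df.Sub _ _) (Df.and (Df.Sub _ _)
        (Df.and (Df.IsPair _ _ _) (Df.mem _ _)))))) ⊤
      (fun V _ p => ?_) U U.top y h
    exact ⟨_, _, ck_sub V p.1.1, ck_sub V p.1.2, isPair_ck2 V p.1, (nat_mem_ck V p.1.2 n).2 p.2⟩
  · rintro ⟨x, x', h1, h2, h3, h4⟩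
    refine ball_pt2 hB (R := fun U y => ∀ x x', IsPair (EU U) y x x' →
      EU U (cl U (oN B n)) x' → EU U y (cl U (bgN (ck2 B) (bas2 (n, true)))))
      (Df.all (Df.all (Df.imp (Df.IsPair _ _ _) (Df.imp (Df.mem _ _) (Df.mem _ _))))) ⊤
      (fun V _ p x x' h3 h4 => ?_) U U.top y ⟨x, x', h1, h2, h3⟩ x x' h3 h4
    rw [(h3.inj (zfc V) (isPair_ck2 V p)).2] at h4
    exact mem_famN' (I := bas2 (n, true)) (fun p => ck2 B p.1) V
      ⟨p, (nat_mem_ck V p.2 n).1 h4⟩

/-- the square of the Cantor space -/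
noncomputable def D2 (hB : OmegaDistributive B) : PSys B (Pt × Pt) where
  ck := ck2 B
  Y := fun U => Y2 (EU U) (cl U (oN B ω))
  dY := dY2
  ckY := fun U p => ⟨_, _, ck_sub U p.1, ck_sub U p.2, isPair_ck2 U p⟩
  inj := fun U p q h => by
    have h1 := isPair_ck2 U p
    rw [h] at h1
    obtain ⟨h2, h3⟩ := h1.inj (zfc U) (isPair_ck2 U q)
    exact Prod.ext ((ck_inj U).1 h2) ((ck_inj U).1 h3)
  pt := fun _ hR b hb U hU y hy => ball_pt2 hB hR b hb U hU y hy
  J := ℕ × Bool
  j0 := (0, false)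
  bas := bas2
  Gen := fun U => Gen2 (EU U) (cl U (oN B ω))
  dGen := dGen2
  genOf := fun U j => by
    obtain ⟨n, i⟩ := j
    refine ⟨cl U (oN B n), nat_mem_omega U n, ?_⟩
    cases i with
    | false => exact Or.inl (mem_bas2a hB U n)
    | true => exact Or.inr (mem_bas2b hB U n)
  gen := fun R hR b hb U hU g hg => by
    obtain ⟨n, hn, hg⟩ := hg
    refine ball_omega (R := fun U n => ∀ g, ((∀ p, EU U p g ↔ ∃ x y,
      Sub (EU U) x (cl U (oN B ω)) ∧ Sub (EU U) y (cl U (oN B ω)) ∧ IsPair (EU U) p x y ∧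
        EU U n x) ∨ ∀ p, EU U p g ↔ ∃ x y, Sub (EU U) x (cl U (oN B ω)) ∧
          Sub (EU U) y (cl U (oN B ω)) ∧ IsPair (EU U) p x y ∧ EU U n y) → R U g) ?_ b
        (fun V hV n g hg => ?_) U hU n hn g hg
    · refine Df.all (Df.imp (Df.or
        (Df.all (Df.iff (Df.mem _ _) (Df.ex (Df.ex (Df.and (Df.Sub _ _) (Df.and (Df.Sub _ _)
          (Df.and (Df.IsPair _ _ _) (Df.mem _ _))))))))
        (Df.all (Df.iff (Df.mem _ _) (Df.ex (Df.ex (Df.and (Df.Sub _ _) (Df.and (Df.Sub _ _)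
          (Df.and (Df.IsPair _ _ _) (Df.mem _ _)))))))))
        ?_)
      exact hR.comp fun z : BSet B × BSet B => z.2
    · rcases hg with hg | hg
      · have h1 : g = cl V (bgN (ck2 B) (bas2 (n, false))) := by
          apply EU_ext
          intro z
          rw [hg, mem_bas2a hB]
        rw [h1]
        exact hb V hV (n, false)
      · have h1 : g = cl V (bgN (ck2 B) (bas2 (n, true))) := by
          apply EU_ext
          intro z
          rw [hg, mem_bas2b hB]
        rw [h1]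
        exact hb V hV (n, true)

theorem gm2 (hB : OmegaDistributive B) (A : Set (Pt × Pt)) (hA : MeasurableSet A) :
    (D2 hB).Gm A := by
  have h1 : (Prod.instMeasurableSpace : MeasurableSpace (Pt × Pt)) ≤
      MeasurableSpace.generateFrom (Set.range bas2) := by
    refine sup_le ?_ ?_
    · rw [← measurable_iff_comap_le]
      refine @measurable_pi_lambda _ _ _ (MeasurableSpace.generateFrom (Set.range bas2)) _ _
        fun n => ?_
      refine @measurable_to_bool _ (MeasurableSpace.generateFrom (Set.range bas2)) _ ?_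
      exact MeasurableSpace.measurableSet_generateFrom ⟨(n, false), rfl⟩
    · rw [← measurable_iff_comap_le]
      refine @measurable_pi_lambda _ _ _ (MeasurableSpace.generateFrom (Set.range bas2)) _ _
        fun n => ?_
      refine @measurable_to_bool _ (MeasurableSpace.generateFrom (Set.range bas2)) _ ?_
      exact MeasurableSpace.measurableSet_generateFrom ⟨(n, true), rfl⟩
  exact h1 A hA

end

end Pool.Agent.G16
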