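import Pool.Agent.G16.Stm

/-!
# Group G16: the two halves for MP_ef066b and the final statement
-/

set_option autoImplicit false

open CI Ordinal
open CI.BSet (beq bmem)
open TopologicalSpace (Opens)
open Pool.Agent.H46.BorelPow (tv OmegaDistributive)

namespace Pool.Agent.G16

section

variable {B : Type} [CompleteBooleanAlgebra B] (X : Pt → B)

/-- `X` is equal to its trace on `G` iff `X ⊆ G` -/
theorem f_ptN_eq (G : Set Pt) (U : Ult B) :
    cl U (ptN X) = cl U (trN X G) ↔ vSub X G ∈ U.s := by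
  rw [trN, eq_ptN]
  have h1 : (⨅ p, (X p ⇨ X p ⊓ tv B (p ∈ G))) = vSub X G := by
    rw [vSub]
    refine iInf_congr fun p => ?_
    rw [himp_inf_distrib, himp_self, top_inf_eq]
  have h2 : (⨅ p, (X p ⊓ tv B (p ∈ G) ⇨ X p)) = ⊤ := by
    rw [eq_top_iff]
    refine le_iInf fun p => ?_
    rw [le_himp_iff]
    exact inf_le_right.trans inf_le_left
  rw [h1, h2]
  exact ⟨fun h => h.1, fun h => ⟨h, U.top⟩⟩

/-- M5 -/
theorem omA (h3 : OpISt X) : OmASt X := by
  intro A d hA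
  refine le_inf (le_iInf fun O => ?_) (le_iInf fun F => ?_)
  · rw [le_himp_iff, le_iff_ult]
    intro V hV
    rw [V.inf] at hV
    rw [V.compl]
    intro h
    apply (hA V hV.1).2.1
    rw [(f_ptN_eq X (O : Set Pt) V).2 h]
    exact hV.2
  · rw [le_himp_iff, le_iff_ult]
    intro V hV
    rw [V.inf] at hV
    obtain ⟨u, hu, huF⟩ := (hA V hV.1).2.2 _ (isFinite_gN F V) ((sub_gN X F V).2 hV.2)
    refine h3.2 (fun V u => EU V u (cl V A) → Sub (EU V) (cl V (gN B (↑F : Set Pt))) u →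
      (⨆ O : Opens Pt, (bmem (trN X (O : Set Pt)) A ⊓
        tv B ((↑F : Set Pt) ⊆ (O : Set Pt)))) ∈ V.s) ?_ ⊤ ?_ V V.top u ((hA V hV.1).1 u hu) hu huF
    · exact Df.imp (Df.mem _ _) (Df.imp (Df.Sub _ _) (Df.val (fun _ => _)))
    · intro W _ O h1 h2
      refine W.mono (le_iSup (fun O : Opens Pt => bmem (trN X (O : Set Pt)) A ⊓
        tv B ((↑F : Set Pt) ⊆ (O : Set Pt))) O) ?_
      rw [W.inf, tv_mem]
      exact ⟨h1, ((sub_gN_trN X F _ W).1 h2).2⟩

/-- M7 -/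
theorem posSt (hF : FrcO X) (h5 : OmASt X) (h6 : GpSt X) : PosSt X := by
  intro U S hS hA
  obtain ⟨S, rfl⟩ := cl_surj U S
  obtain ⟨d, hd⟩ := Df.get (B := B) (P' := fun U => IsFn (EU U) (cl U S) (cl U (OmN B)) ∧
    ∀ n A, Rel (EU U) (cl U S) n A → IsOmegaCover (EU U) (cl U (OmN B)) (cl U (ptN X)) A)
    (Df.and (Df.IsFn _ _) (Df.all (Df.all (Df.imp (Df.Rel _ _ _) (dfIsOmegaCover _ _ _)))))
  have h1 : ∀ n : ℕ, ∃ A : BSet B, ∀ U : Ult B, d ∈ U.s →
      Rel (EU U) (cl U S) (cl U (oN B (n : Ordinal))) (cl U A) := by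
    intro n
    refine exists_name (R := fun U y => Rel (EU U) (cl U S) (cl U (oN B n)) y)
      (Df.Rel _ _ _) d ?_
    intro V hV
    exact (((hd V).2 hV).1.2 _ (nat_mem_omega V n)).exists
  choose A hAn using h1
  have h2 : ∀ n, d ≤ vOm X (fun O : Opens Pt => (O : Set Pt))
      (fun O => bmem (trN X (O : Set Pt)) (A n)) :=
    fun n => h5 (A n) d fun V hV => ((hd V).2 hV).2 _ _ (hAn n V hV)
  refine sup_ind (T := fun U => ∃ c, IsFn (EU U) c (cl U (OmN B)) ∧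
    (∀ n A u, Rel (EU U) (cl U S) n A → Rel (EU U) c n u → EU U u A) ∧
      ∃ R, (∀ u, EU U u R ↔ ∃ n, Rel (EU U) c n u) ∧
        IsGpCover (EU U) (cl U (OmN B)) (cl U (ptN X)) R) ?_
    (fun c : ℕ → Opens Pt => (⨅ n, bmem (trN X (c n : Set Pt)) (A n)) ⊓
      vGp X (fun n => (c n : Set Pt))) d ((le_iInf h2).trans (hF.gp _)) ?_ U ((hd U).1 ⟨hS, hA⟩)
  · exact Df.ex (Df.and (Df.IsFn _ _) (Df.and (Df.all (Df.all (Df.all (Df.imp (Df.Rel _ _ _)
      (Df.imp (Df.Rel _ _ _) (Df.mem _ _)))))) (Df.ex (Df.and (Df.all (Df.iff (Df.mem _ _)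
        (Df.ex (Df.Rel _ _ _)))) (dfIsGpCover _ _ _)))))
  · intro c V hV hc
    refine ⟨cl V (seqN (fun n => trN X (c n : Set Pt))), isFn_seqN _ V, ?_,
      cl V (rgN (fun n => trN X (c n : Set Pt))), fun u => mem_rgN _ V u, ?_⟩
    · intro n A' u hA' hu
      refine ball_seqN (R := fun V x y => ∀ A', Rel (EU V) (cl V S) x A' → EU V y A') ?_
        (fun n => trN X (c n : Set Pt)) (d ⊓ ((⨅ n, bmem (trN X (c n : Set Pt)) (A n)) ⊓
      vGp X (fun n => (c n : Set Pt)))) ?_ V ((V.inf _ _).2 ⟨hV, hc⟩) n u hu A' hA'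
      · exact Df.all (Df.imp (Df.Rel _ _ _) (Df.mem _ _))
      · intro W hW n A' hA'
        simp only [W.inf] at hW
        have h3 : A' = cl W (A n) := (((hd W).2 hW.1).1.2 _ (nat_mem_omega W n)).unique hA'
          (hAn n W hW.1)
        rw [h3]
        exact W.mono (iInf_le (fun n => bmem (trN X (c n : Set Pt)) (A n)) n) hW.2.1
    · rw [V.inf] at hc
      exact h6 c V hc.2

/-- M8 -/
theorem negSt (hF : FrcO X) (h4 : OmSt X) : NegSt X := by
  intro U hS1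
  obtain ⟨Sm, h1, h2⟩ := hF.neg
  set w : ℕ → BSet B := fun n =>
    fam (fun O : Opens Pt => trN X (O : Set Pt)) (fun O => tv B (Sm n O)) with hw
  obtain ⟨c, hc, hsel, R, hR, hOm⟩ := hS1 (cl U (seqN w)) (isFn_seqN w U) (by
    intro n A hA
    refine ball_seqN (R := fun U _ A => IsOmegaCover (EU U) (cl U (OmN B)) (cl U (ptN X)) A)
      (dfIsOmegaCover _ _ _) w ⊤ ?_ U U.top n A hA
    intro V _ n
    refine (h4 (Opens Pt) id (fun O => tv B (Sm n O)) V).2 ?_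
    have h3 := h1 n
    simp only [id]
    rw [h3]
    exact V.top)
  obtain ⟨c, rfl⟩ := cl_surj U c
  obtain ⟨R, rfl⟩ := cl_surj U R
  obtain ⟨d, hd⟩ := Df.get (B := B) (P' := fun U => IsFn (EU U) (cl U c) (cl U (OmN B)) ∧
    (∀ n A u, Rel (EU U) (cl U (seqN w)) n A → Rel (EU U) (cl U c) n u → EU U u A) ∧
    (∀ u, EU U u (cl U R) ↔ ∃ n, Rel (EU U) (cl U c) n u) ∧
    IsOmegaCover (EU U) (cl U (OmN B)) (cl U (ptN X)) (cl U R))
    (Df.and (Df.IsFn _ _) (Df.and (Df.all (Df.all (Df.all (Df.imp (Df.Rel _ _ _)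
      (Df.imp (Df.Rel _ _ _) (Df.mem _ _)))))) (Df.and (Df.all (Df.iff (Df.mem _ _)
        (Df.ex (Df.Rel _ _ _)))) (dfIsOmegaCover _ _ _))))
  refine seq_loc hF.dist (T := fun _ => False) (Df.const False) (ι := Opens Pt)
    (fun _ O => trN X (O : Set Pt)) (fun n O => tv B (Sm n O)) c d ?_ ?_ ?_ U
    ((hd U).1 ⟨hc, hsel, hR, hOm⟩)
  · intro V hV
    exact ((hd V).2 hV).1
  · intro n V hV y hy
    exact ((hd V).2 hV).2.1 _ _ y ((rel_seqN w V n _).2 rfl) hy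
  · intro f V hV hf hcf
    obtain ⟨-, -, h5, h6⟩ := (hd V).2 hV
    have h7 : ∀ n, Sm n (f n) := fun n =>
      (tv_mem V (Sm n (f n))).1 (V.mono (iInf_le (fun n => tv B (Sm n (f n))) n) hf)
    have h8 : cl V R = cl V (rgN (fun n => trN X (f n : Set Pt))) := by
      apply EU_ext
      intro u
      rw [h5 u, mem_rgN, hcf]
    rw [h8] at h6
    have h9 := (h4 ℕ f (fun _ => ⊤) V).1 h6
    rw [h2 f h7] at h9
    exact V.bot h9

end

/-- M9: the final statement from the forcing part and the translation -/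
theorem finalO_of (h : FrcOSt)
    (h3 : ∀ (B : Type) [CompleteBooleanAlgebra B] (X : Pt → B), OmegaDistributive B → OpISt X)
    (h4 : ∀ (B : Type) [CompleteBooleanAlgebra B] (X : Pt → B), OmegaDistributive B → OmSt X)
    (h6 : ∀ (B : Type) [CompleteBooleanAlgebra B] (X : Pt → B), OmegaDistributive B → GpSt X) :
    FinalO := by
  obtain ⟨B, _, X, hne, hF⟩ := h
  obtain ⟨U, -⟩ := exists_ult hne.symm
  exact ⟨MU U, EU U, zfc U, cl U (OmN B), cl U (ptN X), isOmega_oN U, fun x hx => ptN_sub X U x hx,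
    posSt X hF (omA X (h3 B X hF.dist)) (h6 B X hF.dist) U, negSt X hF (h4 B X hF.dist) U⟩

end Pool.Agent.G16
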