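import Pool.Agent.G16.FrcO2

set_option autoImplicit false

/-!
# Group G16, forcing part: the two truth values
-/

open Set
open TopologicalSpace (Opens)
open Pool.Agent.H46.BorelPow (tv RO IsReg reg isReg_reg OmegaDistributive)

namespace Pool.Agent.G16

namespace FO

theorem exists_block {c : ℕ → ℕ} (hc : StrictMono c) (h0 : c 0 = 0) (x : ℕ) :
    ∃ b, c b ≤ x ∧ x < c (b + 1) := by
  classical
  have hex : ∃ b, x < c (b + 1) := ⟨x, lt_of_lt_of_le (Nat.lt_succ_self x) (hc.id_le (x + 1))⟩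
  refine ⟨Nat.find hex, ?_, Nat.find_spec hex⟩
  rcases Nat.eq_zero_or_pos (Nat.find hex) with hz | hp
  · rw [hz, h0]; exact Nat.zero_le x
  · have := Nat.find_min hex (Nat.sub_lt hp one_pos)
    rw [show Nat.find hex - 1 + 1 = Nat.find hex from by omega] at this
    exact not_lt.1 this

lemma block_unique {c : ℕ → ℕ} (hc : StrictMono c) {x b b' : ℕ} (h1 : c b ≤ x) (h2 : x < c (b + 1))
    (h3 : c b' ≤ x) (h4 : x < c (b' + 1)) : b = b' := by
  have h5 : b < b' + 1 := hc.lt_iff_lt.1 (h1.trans_lt h4)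
  have h6 : b' < b + 1 := hc.lt_iff_lt.1 (h3.trans_lt h2)
  omega

theorem gp (𝒰 : ℕ → Opens Pt → RO Cond) :
    (⨅ n, vOm XG (fun O : Opens Pt => (O : Set Pt)) (𝒰 n)) ≤
      ⨆ c : ℕ → Opens Pt, ((⨅ n, 𝒰 n (c n)) ⊓ vGp XG (fun n => (c n : Set Pt))) := by
  classical
  intro p0 h0
  rw [RO.mem_iInf] at h0
  rw [RO.mem_iSup]
  intro q0 hq0
  obtain ⟨q, c, y, a, hq, ha, ha0, hc, hyA, hyc, hyc', hV, hold⟩ :=
    exists_selection (p0 := q0) (𝒰 := 𝒰) (fun n => (RO.isReg _).up (h0 n) hq0)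
  set V : ℕ → Set Pt := fun m => ⋃ n ∈ Ico (a m) (a (m + 1)), (c n : Set Pt) with hVdef
  have hq1 := le_addPromise q V hV
  have hpr := mem_addPromise q V hV
  obtain ⟨s, hs, hdec⟩ := decide_all V (addPromise q V hV)
  have hqs : q ≤ s := hq1.trans hs
  refine ⟨s, hq.trans hqs, c, ?_⟩
  -- finite sets are captured infinitely often
  have hcap : ∀ r, s ≤ r → ∀ F : Set Pt, F.Finite → F ⊆ r.A → ∀ N, ∃ m ≥ N, F ⊆ V m := by
    intro r hr F hF hFr N
    obtain ⟨M, hM⟩ : ∃ M, ∀ m ≥ M, ∀ x ∈ F ∩ q.A, x ∈ V m := by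
      choose! m0 hm0 using hold
      obtain ⟨M, hM⟩ := ((hF.subset (inter_subset_left (t := q.A))).image m0).bddAbove
      exact ⟨M, fun m hm x hx => hm0 x hx.2 m ((hM ⟨x, hx, rfl⟩).trans hm)⟩
    obtain ⟨m, hm, hFm⟩ := r.ok (V, q.A) ((hs.trans hr).2 hpr) (F \ q.A) (hF.subset sdiff_subset)
      (fun x hx => ⟨hFr hx.1, hx.2⟩) (max N M)
    refine ⟨m, le_trans (le_max_left _ _) hm, fun x hx => ?_⟩
    by_cases hxq : x ∈ q.A
    · exact hM m (le_trans (le_max_right _ _) hm) x ⟨hx, hxq⟩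
    · exact hFm ⟨hx, hxq⟩
  have hne : ∀ n r, s ≤ r → r ∈ ((vSub XG (c n : Set Pt))ᶜ).S := fun n r hr =>
    mem_vSub_compl_of (hqs.1.trans hr.1 (hyA n)) (hyc n)
  have hdis : ∀ n m, n ≠ m → ∀ r, s ≤ r → r ∉ (vSame XG (c n : Set Pt) (c m)).S := by
    intro n m hnm r hr h
    rw [mem_vSame] at h
    rcases lt_or_gt_of_ne hnm with hlt | hlt
    · exact hyc n ((h r le_rfl (y n) (hqs.1.trans hr.1 (hyA n))).2 (hyc' n m hlt))
    · exact hyc m ((h r le_rfl (y m) (hqs.1.trans hr.1 (hyA m))).1 (hyc' m n hlt))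
  have hVc : ∀ m, V m ⊆ ⋃ n, (c n : Set Pt) := fun m =>
    iUnion₂_subset fun n _ => subset_iUnion (fun n => (c n : Set Pt)) n
  choose g hg1 hg2 using exists_block ha ha0
  have hgeq : ∀ m n, n ∈ Ico (a m) (a (m + 1)) → g n = m := fun m n hn =>
    block_unique ha (hg1 n) (hg2 n) hn.1 hn.2
  rw [RO.mem_inf]
  refine ⟨?_, ?_⟩
  · rw [RO.mem_iInf]
    exact fun n => (RO.isReg _).up (hc n) hqs
  unfold vGp vCov
  rw [RO.mem_inf, RO.mem_inf, RO.mem_inf]
  refine ⟨⟨⟨?_, ?_⟩, ?_⟩, ?_⟩
  · rw [RO.mem_iInf]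
    exact fun n => hne n s le_rfl
  · rw [mem_vSub]
    intro r hr x hx
    obtain ⟨m, -, hm⟩ := hcap r hr {x} (finite_singleton x) (by simpa using hx) 0
    exact hVc m (hm rfl)
  · simp only [RO.mem_iInf]
    intro n m hnm
    rw [RO.mem_compl]
    exact fun r hr => hdis n m hnm r hr
  rw [RO.mem_iSup]
  intro r hr
  by_cases hinf : {m | s ∈ (vSub XG (V m)).S}.Infinite
  · -- every block contains the set
    set D : ℕ → Prop := fun m => s ∈ (vSub XG (V m)).S with hD
    have hDinf : {m | D m}.Infinite := hinf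
    let β : ℕ → ℕ := fun n => Nat.count D (g n)
    have hβ : ∀ k n, n ∈ Ico (a (Nat.nth D k)) (a (Nat.nth D k + 1)) → β n = k := by
      intro k n hn
      simp only [β, hgeq _ n hn]
      exact Nat.count_nth_of_infinite hDinf k
    have hsur : Function.Surjective β := fun k =>
      ⟨a (Nat.nth D k), hβ k _ ⟨le_rfl, ha (Nat.lt_succ_self _)⟩⟩
    have hfin : ∀ k, {n | β n = k}.Finite := by
      intro k
      refine (finite_Iio (a (Nat.nth D k + 1))).subset fun n hn => ?_
      by_contra hlt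
      have hlt' : a (Nat.nth D k + 1) ≤ n := not_lt.1 hlt
      have h1 : Nat.nth D k + 1 ≤ g n := by
        by_contra h2
        have h3 : g n + 1 ≤ Nat.nth D k + 1 := by omega
        have h4 := ha.monotone h3
        have h5 := hg2 n
        omega
      have h2 : Nat.count D (Nat.nth D k + 1) ≤ Nat.count D (g n) := Nat.count_monotone D h1
      rw [Nat.count_succ, Nat.count_nth_of_infinite hDinf k,
        if_pos (Nat.nth_mem_of_infinite hDinf k)] at h2
      have h6 : Nat.count D (g n) = k := hn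
      omega
    refine ⟨r, le_rfl, ⟨β, hsur, hfin⟩, ?_⟩
    refine (show (⨅ k, vSub XG (blk (fun n => (c n : Set Pt)) β k)) ≤ _ from le_sup_left) ?_
    rw [RO.mem_iInf]
    intro k
    rw [mem_vSub]
    intro t ht
    have h1 : s ∈ (vSub XG (V (Nat.nth D k))).S := Nat.nth_mem_of_infinite hDinf k
    refine (mem_vSub.1 h1 t (hr.trans ht)).trans ?_
    intro x hx
    simp only [V, mem_iUnion, exists_prop] at hx
    obtain ⟨n, hn, hx⟩ := hx
    exact mem_biUnion (hβ k n hn) hx
  · -- the blocks are an omega-cover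
    rw [not_infinite] at hinf
    obtain ⟨N0, hN0⟩ : ∃ N0, ∀ m ≥ N0, s ∈ ((vSub XG (V m))ᶜ).S := by
      obtain ⟨M, hM⟩ := hinf.bddAbove
      refine ⟨M + 1, fun m hm => ?_⟩
      rcases hdec m with h | h
      · have h2 : m ≤ M := hM h
        omega
      · exact h
    let β : ℕ → ℕ := fun n => if n < a N0 then n else a N0 + (g n - N0)
    have hβ1 : ∀ n, n < a N0 → β n = n := fun n hn => if_pos hn
    have hβ2 : ∀ n, ¬ n < a N0 → β n = a N0 + (g n - N0) := fun n hn => if_neg hn
    have hgN : ∀ n, ¬ n < a N0 → N0 ≤ g n := by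
      intro n hn
      by_contra hlt
      have h1 : g n + 1 ≤ N0 := by omega
      have h2 := ha.monotone h1
      have h3 := hg2 n
      omega
    have hβ3 : ∀ m n, N0 ≤ m → n ∈ Ico (a m) (a (m + 1)) → β n = a N0 + (m - N0) := by
      intro m n hm hn
      rw [hβ2 n (by have := ha.monotone hm; have := hn.1; omega), hgeq m n hn]
    have hsur : Function.Surjective β := by
      intro k
      by_cases hk : k < a N0
      · exact ⟨k, hβ1 k hk⟩
      · refine ⟨a (N0 + (k - a N0)), ?_⟩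
        rw [hβ3 (N0 + (k - a N0)) _ (by omega) ⟨le_rfl, ha (Nat.lt_succ_self _)⟩]
        omega
    have hfin : ∀ k, {n | β n = k}.Finite := by
      intro k
      refine (finite_Iio (max (a N0) (a (N0 + (k - a N0) + 1)))).subset fun n hn => ?_
      have hn' : β n = k := hn
      rw [mem_Iio]
      by_cases h : n < a N0
      · exact lt_of_lt_of_le h (le_max_left _ _)
      · refine lt_of_lt_of_le ?_ (le_max_right _ _)
        rw [hβ2 n h] at hn'
        have h1 := hgN n h
        have h2 : g n = N0 + (k - a N0) := by omega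
        rw [← h2]
        exact hg2 n
    refine ⟨r, le_rfl, ⟨β, hsur, hfin⟩, ?_⟩
    refine (show vOm XG (blk (fun n => (c n : Set Pt)) β) (fun _ => ⊤) ≤ _ from le_sup_right) ?_
    rw [mem_vOm_top]
    have hbl : ∀ m, N0 ≤ m → blk (fun n => (c n : Set Pt)) β (a N0 + (m - N0)) = V m := by
      intro m hm
      ext x
      simp only [blk, V, mem_iUnion, mem_ofPred_eq, exists_prop]
      constructor
      · rintro ⟨n, hn, hx⟩
        refine ⟨n, ?_, hx⟩
        by_cases h : n < a N0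
        · rw [hβ1 n h] at hn; omega
        · rw [hβ2 n h] at hn
          have h1 := hgN n h
          have h2 : g n = m := by omega
          rw [← h2]
          exact ⟨hg1 n, hg2 n⟩
      · rintro ⟨n, hn, hx⟩
        exact ⟨n, hβ3 m n hm hn, hx⟩
    constructor
    · intro k
      by_cases hk : k < a N0
      · have : blk (fun n => (c n : Set Pt)) β k = c k := by
          ext x
          simp only [blk, mem_iUnion, mem_ofPred_eq, exists_prop]
          constructor
          · rintro ⟨n, hn, hx⟩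
            by_cases h : n < a N0
            · rw [hβ1 n h] at hn; rw [← hn]; exact hx
            · rw [hβ2 n h] at hn; omega
          · intro hx
            exact ⟨k, hβ1 k hk, hx⟩
        rw [this]
        exact hne k r hr
      · have h1 := hbl (N0 + (k - a N0)) (by omega)
        rw [show a N0 + (N0 + (k - a N0) - N0) = k by omega] at h1
        rw [h1]
        exact (RO.isReg _).up (hN0 _ (by omega)) hr
    · intro t ht F hF hFt
      obtain ⟨m, hm, hFm⟩ := hcap t (hr.trans ht) F hF hFt N0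
      refine ⟨a N0 + (m - N0), ?_⟩
      rw [hbl m hm]
      exact hFm

/-! ## The negative half -/

/-- small open sets: the differences lie in few cylinders of some level `k` -/
def Sm (n : ℕ) (O : Opens Pt) : Prop :=
  ∃ k, n + 2 ≤ k ∧ ∃ W : Finset ℕ, W.card ≤ 2 ^ (k - (n + 2)) ∧
    ∀ a ∈ O, ∀ b ∈ O, ∃ w ∈ W, ∀ i < k, xr a b i = w.testBit i

/-- at most `W.card * 2 ^ (K - k)` numbers below `2 ^ K` have the first `k` binary digits of an
element of `W` -/
lemma card_le {K k : ℕ} (hk : k ≤ K) (W : Finset ℕ) (S : Finset ℕ)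
    (hS : ∀ j ∈ S, j < 2 ^ K ∧ ∃ w ∈ W, ∀ i < k, j.testBit i = w.testBit i) :
    S.card ≤ W.card * 2 ^ (K - k) := by
  classical
  have h1 : S.card ≤ (W.image (fun w => w % 2 ^ k) ×ˢ Finset.range (2 ^ (K - k))).card := by
    refine Finset.card_le_card_of_injOn (fun j => (j % 2 ^ k, j / 2 ^ k)) ?_ ?_
    · intro j hj
      obtain ⟨hj1, w, hw, hjw⟩ := hS j hj
      refine Finset.mem_product.2 ⟨Finset.mem_image.2 ⟨w, hw, ?_⟩, Finset.mem_range.2 ?_⟩
      · apply Nat.eq_of_testBit_eq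
        intro i
        rw [Nat.testBit_mod_two_pow, Nat.testBit_mod_two_pow]
        by_cases hi : i < k
        · simp [hi, hjw i hi]
        · simp [hi]
      · rw [Nat.div_lt_iff_lt_mul (by positivity), ← pow_add, Nat.sub_add_cancel hk]
        exact hj1
    · intro j _ j' _ h
      have h1 := congrArg Prod.fst h
      have h2 := congrArg Prod.snd h
      simp only at h1 h2
      rw [← Nat.div_add_mod j (2 ^ k), ← Nat.div_add_mod j' (2 ^ k), h1, h2]
  refine h1.trans ?_
  rw [Finset.card_product, Finset.card_range]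
  exact Nat.mul_le_mul_right _ Finset.card_image_le

lemma sum_two_pow (M : ℕ) : ∑ n ∈ Finset.range M, 2 ^ (M - n) + 2 = 2 ^ (M + 1) := by
  induction M with
  | zero => simp
  | succ M ih =>
    rw [Finset.sum_range_succ]
    have h1 : ∑ n ∈ Finset.range M, 2 ^ (M + 1 - n) = 2 * ∑ n ∈ Finset.range M, 2 ^ (M - n) := by
      rw [Finset.mul_sum]
      refine Finset.sum_congr rfl fun n hn => ?_
      have := Finset.mem_range.1 hn
      rw [← pow_succ', show M + 1 - n = M - n + 1 by omega]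
    rw [h1, show M + 1 - M = 1 by omega, pow_succ 2 (M + 1)]
    omega

/-- the sets of differences of small open sets do not cover the space -/
lemma not_cover (c : ℕ → Opens Pt) (hc : ∀ n, Sm n (c n)) :
    ∃ z : Pt, ∀ n, ∀ a ∈ c n, ∀ b ∈ c n, xr a b ≠ z := by
  classical
  by_contra hcon
  push Not at hcon
  choose k hk W hW hcW using hc
  let C : ℕ → Set Pt := fun n => ⋃ w ∈ W n, {z | ∀ i < k n, z i = w.testBit i}
  have hCo : ∀ n, IsOpen (C n) := by
    intro n
    refine isOpen_biUnion fun w _ => ?_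
    have : {z : Pt | ∀ i < k n, z i = w.testBit i} =
        ⋂ i ∈ Iio (k n), (fun z : Pt => z i) ⁻¹' {w.testBit i} := by
      ext z
      simp
    rw [this]
    exact (finite_Iio (k n)).isOpen_biInter fun i _ =>
      (isOpen_discrete _).preimage (continuous_apply i)
  have hCu : (univ : Set Pt) ⊆ ⋃ n, C n := by
    intro z _
    obtain ⟨n, a, ha, b, hb, rfl⟩ := hcon z
    obtain ⟨w, hw, h⟩ := hcW n a ha b hb
    exact mem_iUnion.2 ⟨n, mem_biUnion hw h⟩
  obtain ⟨t, ht⟩ := (isCompact_univ (X := Pt)).elim_finite_subcover C hCo hCu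
  obtain ⟨M, hM⟩ : ∃ M, ∀ n ∈ t, n < M := ⟨t.sup id + 1, fun n hn => by
    have : n ≤ t.sup id := Finset.le_sup (f := id) hn
    omega⟩
  obtain ⟨K, hK⟩ : ∃ K, ∀ n < M, k n ≤ K := ⟨∑ n ∈ Finset.range M, k n, fun n hn =>
    Finset.single_le_sum (f := k) (fun _ _ => Nat.zero_le _) (Finset.mem_range.2 hn)⟩
  set K' := max K (M + 2) with hK'
  have hcov : ∀ j < 2 ^ K', ∃ n < M, ∃ w ∈ W n, ∀ i < k n, j.testBit i = w.testBit i := by
    intro j _
    have h1 := ht (mem_univ (fun i => j.testBit i : Pt))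
    simp only [mem_iUnion, exists_prop] at h1
    obtain ⟨n, hn, h2⟩ := h1
    simp only [C, mem_iUnion, exists_prop, mem_ofPred_eq] at h2
    obtain ⟨w, hw, h3⟩ := h2
    exact ⟨n, hM n hn, w, hw, h3⟩
  have hsub : Finset.range (2 ^ K') ⊆ (Finset.range M).biUnion fun n =>
      (Finset.range (2 ^ K')).filter fun j => ∃ w ∈ W n, ∀ i < k n, j.testBit i = w.testBit i := by
    intro j hj
    obtain ⟨n, hn, h⟩ := hcov j (Finset.mem_range.1 hj)
    exact Finset.mem_biUnion.2 ⟨n, Finset.mem_range.2 hn, Finset.mem_filter.2 ⟨hj, h⟩⟩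
  have h1 := (Finset.card_le_card hsub).trans Finset.card_biUnion_le
  rw [Finset.card_range] at h1
  have h2 : ∀ n ∈ Finset.range M, ((Finset.range (2 ^ K')).filter fun j =>
      ∃ w ∈ W n, ∀ i < k n, j.testBit i = w.testBit i).card ≤ 2 ^ (K' - (n + 2)) := by
    intro n hn
    have hkn : k n ≤ K' := (hK n (Finset.mem_range.1 hn)).trans (le_max_left _ _)
    refine (card_le (K := K') hkn (W n) _ ?_).trans ?_
    · intro j hj
      obtain ⟨h3, h4⟩ := Finset.mem_filter.1 hj
      exact ⟨Finset.mem_range.1 h3, h4⟩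
    · refine (Nat.mul_le_mul_right _ (hW n)).trans ?_
      rw [← pow_add]
      have := hk n
      rw [show k n - (n + 2) + (K' - k n) = K' - (n + 2) by omega]
  have h3 := h1.trans (Finset.sum_le_sum h2)
  have h4 : ∑ n ∈ Finset.range M, 2 ^ (K' - (n + 2)) =
      2 ^ (K' - (M + 2)) * ∑ n ∈ Finset.range M, 2 ^ (M - n) := by
    rw [Finset.mul_sum]
    refine Finset.sum_congr rfl fun n hn => ?_
    have := Finset.mem_range.1 hn
    have h5 : M + 2 ≤ K' := le_max_right _ _
    rw [← pow_add, show K' - (M + 2) + (M - n) = K' - (n + 2) by omega]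
  have h5 := sum_two_pow M
  have h6 : (2 : ℕ) ^ K' = 2 ^ (K' - (M + 2)) * 2 ^ (M + 2) := by
    rw [← pow_add, Nat.sub_add_cancel (le_max_right _ _)]
  rw [h4, h6] at h3
  have h7 := Nat.le_of_mul_le_mul_left h3 (by positivity)
  rw [pow_succ 2 (M + 1)] at h7
  omega

lemma exists_small (n : ℕ) (F : Finset Pt) : ∃ O : Opens Pt, Sm n O ∧ (↑F : Set Pt) ⊆ O := by
  classical
  set k := n + 2 + F.card * F.card with hk
  let W : Finset ℕ := (F ×ˢ F).image fun ab => Nat.ofBits (fun i : Fin k => xr ab.1 ab.2 i)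
  let O : Set Pt := ⋃ x ∈ F, {y | ∀ i < k, y i = x i}
  have hO : IsOpen O := by
    refine isOpen_biUnion fun x _ => ?_
    have : {y : Pt | ∀ i < k, y i = x i} = ⋂ i ∈ Iio k, (fun y : Pt => y i) ⁻¹' {x i} := by
      ext y
      simp
    rw [this]
    exact (finite_Iio k).isOpen_biInter fun i _ =>
      (isOpen_discrete _).preimage (continuous_apply i)
  refine ⟨⟨O, hO⟩, ⟨k, by omega, W, ?_, ?_⟩, ?_⟩
  · refine Finset.card_image_le.trans ?_
    rw [Finset.card_product, show k - (n + 2) = F.card * F.card by omega]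
    exact Nat.lt_two_pow_self.le
  · intro a ha b hb
    have ha' : a ∈ O := ha
    have hb' : b ∈ O := hb
    simp only [O, mem_iUnion, exists_prop, mem_ofPred_eq] at ha' hb'
    obtain ⟨x, hx, hax⟩ := ha'
    obtain ⟨y, hy, hby⟩ := hb'
    refine ⟨_, Finset.mem_image.2 ⟨(x, y), Finset.mem_product.2 ⟨hx, hy⟩, rfl⟩, fun i hi => ?_⟩
    rw [Nat.testBit_ofBits_lt _ _ hi]
    simp only [xr, hax i hi, hby i hi]
  · intro x hx
    exact mem_biUnion hx (fun i _ => rfl)

theorem neg : ∃ Sm : ℕ → Opens Pt → Prop,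
    (∀ n, vOm XG (fun O : Opens Pt => (O : Set Pt)) (fun O => tv (RO Cond) (Sm n O)) = ⊤) ∧
    ∀ c : ℕ → Opens Pt, (∀ n, Sm n (c n)) →
      vOm XG (fun n => (c n : Set Pt)) (fun _ : ℕ => (⊤ : RO Cond)) = ⊥ := by
  classical
  refine ⟨Sm, fun n => ?_, fun c hc => ?_⟩
  · rw [RO.eq_top_iff']
    intro p
    rw [mem_vOm]
    constructor
    · intro O q _ hq
      rw [mem_tv] at hq
      obtain ⟨z, hz⟩ : ∃ z : Pt, ∀ a ∈ O, ∀ b ∈ O, xr a b ≠ z := by
        obtain ⟨k, hk, W, hW, h⟩ := hq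
        by_contra hcon
        push Not at hcon
        have h1 := card_le (K := k) le_rfl W (Finset.range (2 ^ k)) (by
          intro j hj
          refine ⟨Finset.mem_range.1 hj, ?_⟩
          obtain ⟨a, ha, b, hb, hab⟩ := hcon (fun i => j.testBit i)
          obtain ⟨w, hw, h2⟩ := h a ha b hb
          refine ⟨w, hw, fun i hi => ?_⟩
          rw [← h2 i hi, hab])
        rw [Finset.card_range, Nat.sub_self, pow_zero, mul_one] at h1
        have h2 := h1.trans hW
        have h3 : (2 : ℕ) ^ (k - (n + 2)) < 2 ^ k := Nat.pow_lt_pow_right (by norm_num) (by omega)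
        omega
      rw [mem_vSub_compl]
      intro r _
      obtain ⟨s, hs, x, hx, hxz⟩ := exists_pair r z
      by_cases hxO : x ∈ (O : Set Pt)
      · refine ⟨s, hs, xr x z, hxz, fun h => hz x hxO (xr x z) h (xr_left x z)⟩
      · exact ⟨s, hs, x, hx, hxO⟩
    · intro F q _ _
      obtain ⟨O, hO, hFO⟩ := exists_small n F
      rw [RO.mem_iSup]
      intro r _
      refine ⟨r, le_rfl, O, ?_⟩
      rw [RO.mem_inf]
      exact ⟨mem_tv.2 hO, mem_tv.2 hFO⟩
  · rw [RO.eq_bot_iff']
    intro p hp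
    rw [mem_vOm_top] at hp
    obtain ⟨z, hz⟩ := not_cover c hc
    obtain ⟨r, hr, x, hx, hxz⟩ := exists_pair p z
    obtain ⟨n, hn⟩ := hp.2 r hr {x, xr x z} (by simp) (by
      intro t ht
      rcases ht with rfl | ht
      · exact hx
      · rw [mem_singleton_iff] at ht
        rw [ht]; exact hxz)
    exact hz n x (hn (by simp)) (xr x z) (hn (by simp)) (xr_left x z)

end FO

/-- the forcing part for MP_ef066b -/
theorem frcO : FrcOSt := by
  refine ⟨RO FO.Cond, inferInstance, FO.XG, ?_, FO.omegaDistributive, FO.gp, FO.neg⟩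
  intro h
  have h1 : (Classical.arbitrary FO.Cond) ∈ (⊤ : RO FO.Cond).S := trivial
  rw [← h] at h1
  exact h1

end Pool.Agent.G16
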