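import Pool.Agent.G16.Stm

/-!
# Group G16, row M6: omega-groupable covers
-/

set_option autoImplicit false

open CI Ordinal
open CI.BSet (beq bmem)
open TopologicalSpace (Opens)
open Pool.Agent.H46.BorelPow (tv OmegaDistributive)

namespace Pool.Agent.G16

section

variable {B : Type} [CompleteBooleanAlgebra B] (X : Pt → B)

/-! ### truth values -/

theorem gp_ptN_trN (G : Set Pt) (U : Ult B) :
    cl U (ptN X) = cl U (trN X G) ↔ vSub X G ∈ U.s := by
  rw [trN, eq_ptN]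
  have h1 : (⨅ p, (X p ⇨ X p ⊓ tv B (p ∈ G))) = vSub X G := by
    rw [vSub]
    refine iInf_congr fun p => ?_
    rw [himp_inf_distrib, himp_self, top_inf_eq]
  have h2 : (⨅ p, (X p ⊓ tv B (p ∈ G) ⇨ X p)) = (⊤ : B) := by
    rw [iInf_eq_top]
    intro p
    rw [himp_eq_top_iff]
    exact inf_le_left
  rw [h1, h2]
  exact ⟨fun h => h.1, fun h => ⟨h, U.top⟩⟩

theorem gp_same (G G' : Set Pt) (U : Ult B) :
    cl U (trN X G) = cl U (trN X G') ↔ vSame X G G' ∈ U.s := by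
  rw [trN, trN, eq_ptN, ← U.inf, ← iInf_inf_eq, vSame]
  have h : ∀ p, (X p ⊓ tv B (p ∈ G) ⇨ X p ⊓ tv B (p ∈ G')) ⊓
      (X p ⊓ tv B (p ∈ G') ⇨ X p ⊓ tv B (p ∈ G)) = X p ⇨ tv B (p ∈ G ↔ p ∈ G') := by
    intro p
    by_cases h1 : p ∈ G <;> by_cases h2 : p ∈ G' <;> simp [tv, h1, h2]
  simp only [h]

theorem gp_sub_trN {G G' : Set Pt} (h : G ⊆ G') (U : Ult B) :
    Sub (EU U) (cl U (trN X G)) (cl U (trN X G')) := by
  rw [trN, trN, sub_ptN]
  refine U.mono ?_ U.top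
  refine le_iInf fun p => ?_
  rw [le_himp_iff, top_inf_eq]
  refine inf_le_inf_left _ ?_
  by_cases h1 : p ∈ G
  · simp [tv, h1, h h1]
  · simp [tv, h1]

/-! ### the blocks -/

/-- the name of a block -/
noncomputable def gpB (w : ℕ → BSet B) (β : ℕ → ℕ) (k : ℕ) : BSet B :=
  fam w (fun n => tv B (β n = k))

theorem gpB_eq (w : ℕ → BSet B) (β : ℕ → ℕ) (k : ℕ) (hf : {n | β n = k}.Finite) :
    gpB w β k = fam w (fun n => tv B (n ∈ hf.toFinset)) := by
  unfold gpB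
  congr 1
  funext n
  rw [Set.Finite.mem_toFinset]
  rfl

theorem gp_mem_B (w : ℕ → BSet B) (β : ℕ → ℕ) (k : ℕ) (hf : {n | β n = k}.Finite) (U : Ult B)
    (y : MU U) : EU U y (cl U (gpB w β k)) ↔ ∃ n, β n = k ∧ y = cl U (w n) := by
  rw [gpB_eq w β k hf, mem_fam_fin]
  constructor
  · rintro ⟨i, hi, h⟩
    rw [Set.Finite.mem_toFinset] at hi
    exact ⟨i, hi, h⟩
  · rintro ⟨i, hi, h⟩
    refine ⟨i, ?_, h⟩
    rw [Set.Finite.mem_toFinset]
    exact hi

theorem gp_fin_B (w : ℕ → BSet B) (β : ℕ → ℕ) (k : ℕ) (hf : {n | β n = k}.Finite) (U : Ult B) :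
    IsFinite (EU U) (cl U (OmN B)) (cl U (gpB w β k)) := by
  rw [gpB_eq w β k hf]
  exact isFinite_fam _ _ _

/-- the sequence of the blocks is a partition -/
theorem gp_part (c : ℕ → Set Pt) (β : BlockFn) (U : Ult B)
    (hU : (⨅ n, ⨅ m, ⨅ _ : n ≠ m, (vSame X (c n) (c m))ᶜ) ∈ U.s) :
    IsPartition (EU U) (cl U (OmN B)) (cl U (rgN (fun n => trN X (c n))))
      (cl U (seqN (gpB (fun n => trN X (c n)) β.1))) := by
  obtain ⟨β, hs, hf⟩ := β
  set w : ℕ → BSet B := fun n => trN X (c n) with hw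
  refine ⟨isFn_seqN _ U, ?_, ?_, ?_⟩
  · intro n v hv
    refine ball_seqN (R := fun U _ v => IsFinite (EU U) (cl U (OmN B)) v ∧ ∃ u, EU U u v)
      (Df.and (dfIsFinite _ _) (Df.ex (Df.mem _ _))) (gpB w β) ⊤ ?_ U U.top n v hv
    intro V _ k
    refine ⟨gp_fin_B w β k (hf k) V, ?_⟩
    obtain ⟨i, hi⟩ := hs k
    exact ⟨cl V (w i), (gp_mem_B w β k (hf k) V _).2 ⟨i, hi, rfl⟩⟩
  · intro n m v v' u hv hv' hnm
    refine ball_seqN (R := fun U n v => ∀ m v' u,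
      Rel (EU U) (cl U (seqN (gpB w β))) m v' → n ≠ m → ¬ (EU U u v ∧ EU U u v')) ?_ (gpB w β)
      (⨅ n, ⨅ m, ⨅ _ : n ≠ m, (vSame X (c n) (c m))ᶜ) ?_ U hU n v hv m v' u hv' hnm
    · exact Df.all (Df.all (Df.all (Df.imp (Df.Rel _ _ _) (Df.imp (Df.not (Df.eq _ _))
        (Df.not (Df.and (Df.mem _ _) (Df.mem _ _)))))))
    · intro V hV k m v' u hv' hnm
      refine ball_seqN (R := fun U m v' => ∀ u, cl U (oN B (k : Ordinal)) ≠ m →
        ¬ (EU U u (cl U (gpB w β k)) ∧ EU U u v')) ?_ (gpB w β)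
        (⨅ n, ⨅ m, ⨅ _ : n ≠ m, (vSame X (c n) (c m))ᶜ) ?_ V hV m v' hv' u hnm
      · exact Df.all (Df.imp (Df.not (Df.eq _ _)) (Df.not (Df.and (Df.mem _ _) (Df.mem _ _))))
      · intro W hW l u hkl
        rw [Ne, nat_inj] at hkl
        rintro ⟨h1, h2⟩
        obtain ⟨i, hi, rfl⟩ := (gp_mem_B w β k (hf k) W u).1 h1
        obtain ⟨j, hj, hij⟩ := (gp_mem_B w β l (hf l) W _).1 h2
        have hne : i ≠ j := by
          rintro rfl
          exact hkl (hi.symm.trans hj)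
        have h3 : (vSame X (c i) (c j))ᶜ ∈ W.s :=
          W.mono ((iInf_le _ i).trans ((iInf_le _ j).trans (iInf_le _ hne))) hW
        rw [W.compl] at h3
        exact h3 ((gp_same X (c i) (c j) W).1 hij)
  · intro u
    constructor
    · intro hu
      refine ball_rgN (R := fun U u => ∃ n v, Rel (EU U) (cl U (seqN (gpB w β))) n v ∧
        EU U u v) (Df.ex (Df.ex (Df.and (Df.Rel _ _ _) (Df.mem _ _)))) w ⊤ ?_ U U.top u hu
      intro V _ i
      exact ⟨cl V (oN B (β i : ℕ)), cl V (gpB w β (β i)), (rel_seqN _ V _ _).2 rfl,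
        (gp_mem_B w β (β i) (hf _) V _).2 ⟨i, rfl, rfl⟩⟩
    · rintro ⟨n, v, hv, hu⟩
      refine ball_seqN (R := fun U _ v => ∀ u, EU U u v → EU U u (cl U (rgN w)))
        (Df.all (Df.imp (Df.mem _ _) (Df.mem _ _))) (gpB w β) ⊤ ?_ U U.top n v hv u hu
      intro V _ k u hu
      obtain ⟨i, -, rfl⟩ := (gp_mem_B w β k (hf k) V u).1 hu
      exact rgN_mem w V i

theorem gp_blk_mem (c : ℕ → Set Pt) (β : ℕ → ℕ) (k : ℕ) (p : Pt) :
    p ∈ blk c β k ↔ ∃ n, β n = k ∧ p ∈ c n := by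
  unfold blk
  simp

/-- a block which covers `X` -/
theorem gp_covers (c : ℕ → Set Pt) (β : ℕ → ℕ) (k : ℕ) (hf : {n | β n = k}.Finite) (U : Ult B)
    (hU : vSub X (blk c β k) ∈ U.s) :
    Covers (EU U) (cl U (ptN X)) (cl U (gpB (fun n => trN X (c n)) β k)) := by
  intro x hx
  refine ball_ptN (R := fun U x => ∃ u, EU U u (cl U (gpB (fun n => trN X (c n)) β k)) ∧
    EU U x u) (Df.ex (Df.and (Df.mem _ _) (Df.mem _ _))) X (vSub X (blk c β k)) ?_ U hU x hx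
  intro V hV p hp
  have h1 := V.mono (iInf_le _ p) hV
  rw [V.himp, tv_mem, gp_blk_mem] at h1
  obtain ⟨n, hn, hpn⟩ := h1 hp
  exact ⟨cl V (trN X (c n)), (gp_mem_B _ β k hf V _).2 ⟨n, hn, rfl⟩,
    (mem_trN' X (c n) V p).2 ⟨hp, hpn⟩⟩

/-- the union of a block -/
theorem gp_union (c : ℕ → Set Pt) (β : ℕ → ℕ) (k : ℕ) (hf : {n | β n = k}.Finite) (U : Ult B) :
    IsUnion (EU U) (cl U (trN X (blk c β k))) (cl U (gpB (fun n => trN X (c n)) β k)) := by
  intro x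
  constructor
  · intro hx
    refine ball_ptN (R := fun U x => ∃ u, EU U u (cl U (gpB (fun n => trN X (c n)) β k)) ∧
      EU U x u) (Df.ex (Df.and (Df.mem _ _) (Df.mem _ _))) _ ⊤ ?_ U U.top x hx
    intro V _ p hp
    rw [V.inf, tv_mem, gp_blk_mem] at hp
    obtain ⟨hp, n, hn, hpn⟩ := hp
    exact ⟨cl V (trN X (c n)), (gp_mem_B _ β k hf V _).2 ⟨n, hn, rfl⟩,
      (mem_trN' X (c n) V p).2 ⟨hp, hpn⟩⟩
  · rintro ⟨u, hu, hx⟩
    obtain ⟨n, hn, rfl⟩ := (gp_mem_B _ β k hf U u).1 hu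
    refine gp_sub_trN X ?_ U x hx
    intro p hp
    exact (gp_blk_mem c β k p).2 ⟨n, hn, hp⟩

/-- the union of open sets -/
def gpO (c : ℕ → Opens Pt) (β : ℕ → ℕ) (k : ℕ) : Opens Pt :=
  ⟨blk (fun n => (c n : Set Pt)) β k, isOpen_biUnion fun n _ => (c n).2⟩

/-- the blocks which are omega-covers -/
theorem gp_groups (h4 : OmSt X) (c : ℕ → Opens Pt) (β : BlockFn) (U : Ult B)
    (hU : (⨅ n, ⨅ m, ⨅ _ : n ≠ m, (vSame X (c n : Set Pt) (c m))ᶜ) ∈ U.s)
    (hO : vOm X (blk (fun n => (c n : Set Pt)) β.1) (fun _ => ⊤) ∈ U.s) :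
    Groups (EU U) (cl U (OmN B)) (cl U (ptN X)) (cl U (rgN (fun n => trN X (c n : Set Pt)))) := by
  refine ⟨_, gp_part X (fun n => (c n : Set Pt)) β U hU,
    cl U (rgN (fun k => trN X (blk (fun n => (c n : Set Pt)) β.1 k))), ?_, ?_⟩
  · obtain ⟨β, hs, hf⟩ := β
    intro s
    constructor
    · intro h
      refine ball_rgN (R := fun U s => ∃ n v, Rel (EU U) (cl U (seqN (gpB
        (fun n => trN X (c n : Set Pt)) β))) n v ∧ IsUnion (EU U) s v)
        (Df.ex (Df.ex (Df.and (Df.Rel _ _ _) (dfIsUnion _ _)))) _ ⊤ ?_ U U.top s h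
      intro V _ k
      exact ⟨cl V (oN B (k : ℕ)), cl V (gpB (fun n => trN X (c n : Set Pt)) β k),
        (rel_seqN _ V _ _).2 rfl, gp_union X (fun n => (c n : Set Pt)) β k (hf k) V⟩
    · rintro ⟨n, v, hv, hs⟩
      refine ball_seqN (R := fun U _ v => ∀ s, IsUnion (EU U) s v → EU U s
        (cl U (rgN (fun k => trN X (blk (fun n => (c n : Set Pt)) β k)))))
        (Df.all (Df.imp (dfIsUnion _ _) (Df.mem _ _))) _ ⊤ ?_ U U.top n v hv s hs
      intro V _ k s hs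
      have h1 : s = cl V (trN X (blk (fun n => (c n : Set Pt)) β k)) := by
        apply EU_ext
        intro z
        rw [hs z, gp_union X (fun n => (c n : Set Pt)) β k (hf k) V z]
      rw [h1]
      exact rgN_mem _ V k
  · exact (h4 ℕ (gpO c β.1) (fun _ => ⊤) U).2 hO

/-- M6: omega-groupable covers -/
theorem gpSt (hD : OmegaDistributive B) (h3 : OpISt X) (h4 : OmSt X) : GpSt X := by
  have _ := hD
  intro c U hU
  set w : ℕ → BSet B := fun n => trN X (c n : Set Pt) with hw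
  have hU2 := hU
  unfold vGp at hU2
  rw [U.inf, U.inf] at hU2
  obtain ⟨⟨hcov, -⟩, -⟩ := hU2
  refine ⟨⟨?_, ?_, ?_⟩, ?_⟩
  · intro u hu
    refine ball_rgN (R := fun U u => OpnIn (EU U) (cl U (OmN B)) (cl U (ptN X)) u)
      (dfOpnIn _ _ _) w ⊤ ?_ U U.top u hu
    intro V _ n
    exact h3.1 (c n) V
  · intro h
    refine ball_rgN (R := fun U u => ¬ cl U (ptN X) = u) (Df.not (Df.eq _ _)) w
      (vCov X (fun n => (c n : Set Pt))) ?_ U hcov _ h rfl
    intro V hV n h1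
    rw [hw, gp_ptN_trN] at h1
    unfold vCov at hV
    rw [V.inf] at hV
    have h2 := V.mono (iInf_le _ n) hV.1
    rw [V.compl] at h2
    exact h2 h1
  · intro x hx
    refine ball_ptN (R := fun U x => ∃ u, EU U u (cl U (rgN w)) ∧ EU U x u)
      (Df.ex (Df.and (Df.mem _ _) (Df.mem _ _))) X (vCov X (fun n => (c n : Set Pt))) ?_ U hcov
      x hx
    intro V hV p hp
    unfold vCov at hV
    rw [V.inf] at hV
    have h1 := V.mono (iInf_le _ p) hV.2
    rw [V.himp, tv_mem, Set.mem_iUnion] at h1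
    obtain ⟨n, hn⟩ := h1 hp
    exact ⟨cl V (w n), rgN_mem w V n, (mem_trN' X (c n) V p).2 ⟨hp, hn⟩⟩
  · refine sup_ind (T := fun U => Multifinite (EU U) (cl U (OmN B)) (cl U (ptN X))
      (cl U (rgN w)) ∨ Groups (EU U) (cl U (OmN B)) (cl U (ptN X)) (cl U (rgN w)))
      (Df.or (dfMultifinite _ _ _) (dfGroups _ _ _))
      (fun β : BlockFn => (⨅ k, vSub X (blk (fun n => (c n : Set Pt)) β.1 k)) ⊔
        vOm X (blk (fun n => (c n : Set Pt)) β.1) (fun _ => ⊤))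
      (vGp X (fun n => (c n : Set Pt))) inf_le_right ?_ U hU
    intro β V hV hβ
    unfold vGp at hV
    rw [V.inf, V.inf] at hV
    obtain ⟨⟨-, hsame⟩, -⟩ := hV
    rw [V.sup] at hβ
    rcases hβ with hβ | hβ
    · left
      refine ⟨_, gp_part X (fun n => (c n : Set Pt)) β V hsame, ?_⟩
      intro n v hv
      refine ball_seqN (R := fun U _ v => Covers (EU U) (cl U (ptN X)) v) (dfCovers _ _) _
        (⨅ k, vSub X (blk (fun n => (c n : Set Pt)) β.1 k)) ?_ V hβ n v hv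
      intro W hW k
      exact gp_covers X (fun n => (c n : Set Pt)) β.1 k (β.2.2 k) W
        (W.mono (iInf_le _ k) hW)
    · right
      exact gp_groups X h4 c β V hsame hβ

end

end Pool.Agent.G16
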