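import Pool.Agent.G16.Fin

/-!
# Group G16: relatively open sets and omega-covers
-/

set_option autoImplicit false

open CI Ordinal
open CI.BSet (beq bmem)
open TopologicalSpace (Opens)
open Pool.Agent.H46.BorelPow (tv OmegaDistributive)

namespace Pool.Agent.G16

section

variable {B : Type} [CompleteBooleanAlgebra B] (X : Pt → B)

/-- M3 -/
theorem opI (hD : OmegaDistributive B) (h1 : OpGSt B) (h2 : OpLSt B) : OpISt X := by
  refine ⟨fun G U => ⟨cl U (gN B (G : Set Pt)), h1 hD G U, fun x => mem_trN X _ U x⟩, ?_⟩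
  intro R hR d hd U hU u hu
  obtain ⟨O, hO, hu⟩ := hu
  refine h2 hD (fun U O => ∀ u, (∀ x, EU U x u ↔ EU U x (cl U (ptN X)) ∧ EU U x O) → R U u) ?_
    d ?_ U hU O hO u hu
  · refine Df.all (Df.imp (Df.all (Df.iff (Df.mem _ _) (Df.and (Df.mem _ _) (Df.mem _ _)))) ?_)
    exact hR.comp (fun z : BSet B × BSet B => z.2)
  · intro V hV G u hu
    have h3 : u = cl V (trN X (G : Set Pt)) := by
      apply EU_ext
      intro z
      rw [hu z, mem_trN]
    rw [h3]
    exact hd V hV G

/-- M4 -/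
theorem om (hD : OmegaDistributive B) (h3 : OpISt X) : OmSt X := by
  intro I G b U
  set A : BSet B := fam (fun i => trN X (G i : Set Pt)) b with hAdef
  constructor
  · intro hA
    obtain ⟨e, he⟩ := Df.get (B := B) (P' := fun U => IsOmegaCover (EU U) (cl U (OmN B))
      (cl U (ptN X)) (cl U A)) (dfIsOmegaCover _ _ _)
    refine U.mono ?_ ((he U).1 hA)
    refine le_inf (le_iInf fun i => ?_) (le_iInf fun F => ?_)
    · rw [le_himp_iff, le_iff_ult]
      intro V hV
      rw [V.inf, ← he V] at hV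
      rw [V.compl]
      intro h
      apply hV.1.2.1
      rw [(f_ptN_eq X (G i : Set Pt) V).2 h]
      exact mem_mk (fun i => trN X (G i : Set Pt)) b V i hV.2
    · rw [le_himp_iff, le_iff_ult]
      intro V hV
      rw [V.inf, ← he V] at hV
      obtain ⟨u, hu, huF⟩ := hV.1.2.2 _ (isFinite_gN F V) ((sub_gN X F V).2 hV.2)
      refine ball_mk (R := fun V u => Sub (EU V) (cl V (gN B (↑F : Set Pt))) u →
        (⨆ i, (b i ⊓ tv B ((↑F : Set Pt) ⊆ (G i : Set Pt)))) ∈ V.s) ?_
        (fun i => trN X (G i : Set Pt)) b ⊤ ?_ V V.top u hu huF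
      · exact Df.imp (Df.Sub _ _) (Df.val (fun _ => _))
      · intro W _ i hi h2
        refine W.mono (le_iSup (fun i => b i ⊓ tv B ((↑F : Set Pt) ⊆ (G i : Set Pt))) i) ?_
        rw [W.inf, tv_mem]
        exact ⟨hi, ((sub_gN_trN X F _ W).1 h2).2⟩
  · intro hv
    refine ⟨?_, ?_, ?_⟩
    · intro u hu
      refine ball_mk (R := fun U u => OpnIn (EU U) (cl U (OmN B)) (cl U (ptN X)) u)
        (dfOpnIn _ _ _) (fun i => trN X (G i : Set Pt)) b ⊤ ?_ U U.top u hu
      intro V _ i _
      exact h3.1 (G i) V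
    · intro hX
      refine ball_mk (R := fun U u => ¬ cl U (ptN X) = u) (Df.not (Df.eq _ _))
        (fun i => trN X (G i : Set Pt)) b (vOm X (fun i => (G i : Set Pt)) b) ?_ U hv _ hX rfl
      intro V hV i hi h
      rw [f_ptN_eq] at h
      have h1 := V.mono (inf_le_left.trans (iInf_le _ i)) hV
      rw [V.himp, V.compl] at h1
      exact h1 hi h
    · intro F hF hFX
      refine ball_fin hD X (R := fun U F => ∃ u, EU U u (cl U A) ∧ Sub (EU U) F u) ?_
        (vOm X (fun i => (G i : Set Pt)) b) ?_ U hv F hF hFX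
      · exact Df.ex (Df.and (Df.mem _ _) (Df.Sub _ _))
      · intro V hV F hF
        have h1 := V.mono (inf_le_right.trans (iInf_le _ F)) hV
        rw [V.himp] at h1
        have h2 := h1 hF
        refine sup_ind (T := fun V => ∃ u, EU V u (cl V A) ∧
          Sub (EU V) (cl V (gN B (↑F : Set Pt))) u) (Df.ex (Df.and (Df.mem _ _) (Df.Sub _ _)))
          (fun i => b i ⊓ tv B ((↑F : Set Pt) ⊆ (G i : Set Pt)))
          ((⨆ i, (b i ⊓ tv B ((↑F : Set Pt) ⊆ (G i : Set Pt)))) ⊓ vFin X F) inf_le_left ?_ V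
          ((V.inf _ _).2 ⟨h2, hF⟩)
        intro i W hW hi
        rw [W.inf, tv_mem] at hi
        rw [W.inf] at hW
        exact ⟨cl W (trN X (G i : Set Pt)), mem_mk (fun i => trN X (G i : Set Pt)) b W i hi.1,
          (sub_gN_trN X F _ W).2 ⟨hW.2, hi.2⟩⟩

end

end Pool.Agent.G16
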