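import Pool.Agent.G16.Stm

/-!
# Group G16: ground model open sets are open sets of the model
-/

set_option autoImplicit false

open CI Ordinal
open CI.BSet (beq bmem)
open TopologicalSpace (Opens)
open Pool.Agent.H46.BorelPow (tv OmegaDistributive)

namespace Pool.Agent.G16

/-- open sets contain cylinders -/
theorem exists_cyl (G : Opens Pt) (p : Pt) (hp : p ∈ G) :
    ∃ n : ℕ, ∀ q : Pt, (∀ i < n, q i = p i) → q ∈ G := by
  have h := (PiNat.isOpen_iff_dist (E := fun _ : ℕ => Bool) (s := (G : Set Pt))).1 G.isOpen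
  obtain ⟨ε, hε, hG⟩ := h p hp
  obtain ⟨n, hn⟩ := exists_pow_lt_of_lt_one hε (show (1 / 2 : ℝ) < 1 by norm_num)
  refine ⟨n, fun q hq => hG q ?_⟩
  refine lt_of_le_of_lt ?_ hn
  have h1 : q ∈ PiNat.cylinder (E := fun _ : ℕ => Bool) p n := fun i hi => hq i hi
  have h2 := (PiNat.mem_cylinder_iff_dist_le (E := fun _ : ℕ => Bool)).1 h1
  rw [PiNat.dist_comm]
  exact h2

theorem opGround (B : Type) [CompleteBooleanAlgebra B] : OpGSt B := by
  classical
  intro hD G U
  refine ⟨fun x hx => ptN_sub _ U x hx, fun x hx => ?_⟩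
  refine ball_ptN (R := fun U x => ∃ n a, EU U n (cl U (OmN B)) ∧ Cut (EU U) x n a ∧
    CylIn (EU U) (cl U (OmN B)) n a (cl U (gN B (G : Set Pt)))) ?_ _ ⊤ ?_ U U.top x hx
  · exact Df.ex (Df.ex (Df.and (Df.mem _ _) (Df.and (Df.Cut _ _ _) (Df.CylIn _ _ _ _))))
  · intro V _ p hp
    rw [tv_mem] at hp
    obtain ⟨n, hn⟩ := exists_cyl G p hp
    set a0 : Finset ℕ := (Finset.range n).filter (fun i => p i = true) with ha0
    have hcut : ∀ (W : Ult B) (q : Pt), Cut (EU W) (cl W (ck B q)) (cl W (oN B n))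
        (cl W (fN B a0)) ↔ ∀ i < n, q i = p i := by
      intro W q
      constructor
      · intro h i hi
        have h1 := h (cl W (oN B i))
        rw [nat_mem_fN, nat_mem_ck, EU_oN, Nat.cast_lt] at h1
        rw [ha0, Finset.mem_filter, Finset.mem_range] at h1
        cases hq : q i <;> cases hp' : p i <;> simp_all
      · intro h z
        rw [EU_fN, EU_nat]
        constructor
        · rintro ⟨m, hm, rfl⟩
          rw [ha0, Finset.mem_filter, Finset.mem_range] at hm
          exact ⟨(nat_mem_ck W q m).2 (by rw [h m hm.1]; exact hm.2), m, hm.1, rfl⟩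
        · rintro ⟨h1, m, hmn, rfl⟩
          rw [nat_mem_ck] at h1
          refine ⟨m, ?_, rfl⟩
          rw [ha0, Finset.mem_filter, Finset.mem_range]
          exact ⟨hmn, by rw [← h m hmn]; exact h1⟩
    refine ⟨cl V (oN B n), cl V (fN B a0), nat_mem_omega V n, (hcut V p).2 fun _ _ => rfl, ?_⟩
    intro y hy hc
    refine ball_pt hD (R := fun V y => Cut (EU V) y (cl V (oN B n)) (cl V (fN B a0)) →
      EU V y (cl V (gN B (G : Set Pt)))) (Df.imp (Df.Cut _ _ _) (Df.mem _ _)) ⊤ ?_ V V.top y hy hc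
    intro W _ q hq
    rw [mem_gN]
    exact hn q ((hcut W q).1 hq)

end Pool.Agent.G16
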