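import Pool.Agent.G16.Stm

/-!
# Group G16, row M2: every open set of the model is locally a ground model open set
-/

set_option autoImplicit false

open CI Ordinal
open CI.BSet (beq bmem)
open TopologicalSpace (Opens)
open Pool.Agent.H46.BorelPow (tv OmegaDistributive)

namespace Pool.Agent.G16

section

variable {B : Type} [CompleteBooleanAlgebra B]

/-- the pairs of a natural number and a finite set -/
noncomputable def opE : ℕ ≃ ℕ × Finset ℕ := (Denumerable.eqv (ℕ × Finset ℕ)).symm

/-- the cylinder of `a` -/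
def opC (n : ℕ) (a : Finset ℕ) : Set Pt := {q | ∀ i < n, (i ∈ a ↔ q i = true)}

theorem opC_open (n : ℕ) (a : Finset ℕ) : IsOpen (opC n a) := by
  have h : opC n a = ⋂ i ∈ Finset.range n, {q : Pt | i ∈ a ↔ q i = true} := by
    ext q
    simp [opC]
  rw [h]
  refine isOpen_biInter_finset fun i _ => ?_
  have h1 : Continuous fun q : Pt => q i := continuous_apply i
  exact (isOpen_discrete {b : Bool | i ∈ a ↔ b = true}).preimage h1

/-- the open set of a code -/
def opG (f : ℕ → Bool) : Opens Pt :=
  ⟨⋃ k ∈ {k | f k = true ∧ (opE k).2 ⊆ Finset.range (opE k).1}, opC (opE k).1 (opE k).2,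
    isOpen_biUnion fun _ _ => opC_open _ _⟩

theorem mem_opG (f : ℕ → Bool) (q : Pt) : q ∈ (opG f : Set Pt) ↔ ∃ k, f k = true ∧
    (opE k).2 ⊆ Finset.range (opE k).1 ∧ ∀ i < (opE k).1, (i ∈ (opE k).2 ↔ q i = true) := by
  unfold opG opC
  simp only [Opens.coe_mk, Set.mem_iUnion, Set.mem_ofPred_eq, exists_prop, and_assoc]

/-- the cut of a ground model point -/
theorem op_cut (U : Ult B) (p : Pt) (n : ℕ) (a : Finset ℕ) (ha : a ⊆ Finset.range n) :
    Cut (EU U) (cl U (ck B p)) (cl U (oN B n)) (cl U (fN B a)) ↔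
      ∀ i < n, (i ∈ a ↔ p i = true) := by
  rw [ck, cut_iff U _ n a ha, cutV_mem]
  simp only [tv_mem]

/-- M2: every open set of the model is locally a ground model open set -/
theorem opL (B : Type) [CompleteBooleanAlgebra B] : OpLSt B := by
  intro hD R hR d hd U hU O hO
  obtain ⟨O, rfl⟩ := cl_surj U O
  obtain ⟨e, he⟩ := Df.get (B := B) (P' := fun U => IsOpn (EU U) (cl U (OmN B)) (cl U O))
    (Df.IsOpn _ _)
  have h1 : ∀ (n : ℕ) (a : Finset ℕ), ∃ P : B, ∀ U : Ult B,
      CylIn (EU U) (cl U (OmN B)) (cl U (oN B ((n : ℕ) : Ordinal))) (cl U (fN B a)) (cl U O) ↔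
        P ∈ U.s := fun n a => Df.get (Df.CylIn _ _ _ _)
  choose P hP using h1
  refine seq_ind hD (T := fun V => R V (cl V O)) (hR.comp (fun _ => O)) (ι := Bool)
    (fun k i => if i = true then P (opE k).1 (opE k).2 else (P (opE k).1 (opE k).2)ᶜ) (d ⊓ e)
    ?_ ?_ U ((U.inf _ _).2 ⟨hU, (he U).1 hO⟩)
  · intro k
    refine le_top.trans ?_
    rw [← sup_compl_eq_top (x := P (opE k).1 (opE k).2)]
    refine sup_le ?_ ?_
    · exact le_iSup_of_le true (by simp)
    · exact le_iSup_of_le false (by simp)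
  · intro f V hV hf
    rw [V.inf] at hV
    set D : B := e ⊓ ⨅ k, if f k = true then P (opE k).1 (opE k).2 else
      (P (opE k).1 (opE k).2)ᶜ with hDd
    have hVD : D ∈ V.s := (V.inf _ _).2 ⟨hV.2, hf⟩
    have hDe : ∀ W : Ult B, D ∈ W.s → IsOpn (EU W) (cl W (OmN B)) (cl W O) := by
      intro W hW
      rw [hDd, W.inf] at hW
      exact (he W).2 hW.1
    have hDk : ∀ W : Ult B, D ∈ W.s → ∀ k, (f k = true ↔ P (opE k).1 (opE k).2 ∈ W.s) := by
      intro W hW k
      rw [hDd, W.inf] at hW
      have h2 := W.mono (iInf_le _ k) hW.2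
      by_cases h3 : f k = true
      · simp only [h3, if_true] at h2
        exact ⟨fun _ => h2, fun _ => h3⟩
      · simp only [h3] at h2
        rw [if_neg (by simp), W.compl] at h2
        exact ⟨fun h => absurd h h3, fun h => absurd h h2⟩
    have key : cl V O = cl V (gN B (opG f : Set Pt)) := by
      apply EU_ext
      intro y
      constructor
      · intro hy
        have hs := (hDe V hVD).1 y hy
        refine ball_pt hD (R := fun U y => EU U y (cl U O) → EU U y (cl U (gN B
          (opG f : Set Pt)))) (Df.imp (Df.mem _ _) (Df.mem _ _)) D ?_ V hVD y hs hy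
        intro W hW p hp
        obtain ⟨n, a, hn, hcut, hcyl⟩ := (hDe W hW).2 _ hp
        refine ball_omega (R := fun U n => ∀ a, Cut (EU U) (cl U (ck B p)) n a →
          CylIn (EU U) (cl U (OmN B)) n a (cl U O) →
          EU U (cl U (ck B p)) (cl U (gN B (opG f : Set Pt))))
          (Df.all (Df.imp (Df.Cut _ _ _) (Df.imp (Df.CylIn _ _ _ _) (Df.mem _ _)))) D ?_ W hW n
          hn a hcut hcyl
        intro W' hW' m a hcut hcyl
        obtain ⟨a₀, ha₀, rfl⟩ := cut_exists W' _ m a hcut
        rw [op_cut W' p m a₀ ha₀] at hcut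
        rw [hP] at hcyl
        rw [mem_gN, mem_opG]
        have e1 : opE (opE.symm (m, a₀)) = (m, a₀) := opE.apply_symm_apply _
        refine ⟨opE.symm (m, a₀), ?_, ?_, ?_⟩
        · rw [hDk W' hW', e1]
          exact hcyl
        · rw [e1]
          exact ha₀
        · rw [e1]
          exact hcut
      · intro hy
        refine ball_ptN (R := fun U y => EU U y (cl U O)) (Df.mem _ _)
          (fun p => tv B (p ∈ (opG f : Set Pt))) D ?_ V hVD y hy
        intro W hW p hp
        rw [tv_mem, mem_opG] at hp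
        obtain ⟨k, hk, hs, hc⟩ := hp
        rw [hDk W hW, ← hP] at hk
        exact hk _ (ck_sub W p) ((op_cut W p _ _ hs).2 hc)
    rw [key]
    exact hd V hV.1 (opG f)

end

end Pool.Agent.G16
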