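import Pool.Agent.G16.Nam

/-!
# Group G16: statements of the model part for MP_ef066b

`B` is an `(ω, ∞)`-distributive complete Boolean algebra, `X : Pt → B`. All statements are about
the two-valued models `MU U` for all ultrafilters `U` of `B`. `OmN B` is the name of `ω`.
-/

set_option autoImplicit false

open CI Ordinal
open CI.BSet (beq bmem)
open TopologicalSpace (Opens)
open Pool.Agent.H46.BorelPow (tv OmegaDistributive)

namespace Pool.Agent.G16

/-- the name of the set of natural numbers -/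
noncomputable abbrev OmN (B : Type) [CompleteBooleanAlgebra B] : BSet B := oN B ω

section

variable (B : Type) [CompleteBooleanAlgebra B]

/-- M1: ground model open sets are open sets of the model -/
def OpGSt : Prop := OmegaDistributive B → ∀ (G : Opens Pt) (U : Ult B),
  IsOpn (EU U) (cl U (OmN B)) (cl U (gN B (G : Set Pt)))

/-- M2: every open set of the model is locally a ground model open set -/
def OpLSt : Prop := OmegaDistributive B → ∀ R : ∀ U : Ult B, MU U → Prop,
  Df (G := BSet B) (fun U x => R U (cl U x)) → ∀ d : B,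
    (∀ U : Ult B, d ∈ U.s → ∀ G : Opens Pt, R U (cl U (gN B (G : Set Pt)))) →
      ∀ U : Ult B, d ∈ U.s → ∀ O : MU U, IsOpn (EU U) (cl U (OmN B)) O → R U O

end

section

variable {B : Type} [CompleteBooleanAlgebra B] (X : Pt → B)

/-- M3: open subsets of the subspace `X` -/
def OpISt : Prop :=
  (∀ (G : Opens Pt) (U : Ult B),
    OpnIn (EU U) (cl U (OmN B)) (cl U (ptN X)) (cl U (trN X (G : Set Pt)))) ∧
  ∀ R : ∀ U : Ult B, MU U → Prop, Df (G := BSet B) (fun U x => R U (cl U x)) → ∀ d : B,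
    (∀ U : Ult B, d ∈ U.s → ∀ G : Opens Pt, R U (cl U (trN X (G : Set Pt)))) →
      ∀ U : Ult B, d ∈ U.s → ∀ u : MU U, OpnIn (EU U) (cl U (OmN B)) (cl U (ptN X)) u → R U u

/-- M4: omega-covers given by families of ground model open sets -/
def OmSt : Prop := ∀ (I : Type) (G : I → Opens Pt) (b : I → B) (U : Ult B),
  IsOmegaCover (EU U) (cl U (OmN B)) (cl U (ptN X))
    (cl U (fam (fun i => trN X (G i : Set Pt)) b)) ↔ vOm X (fun i => (G i : Set Pt)) b ∈ U.s

/-- M5: arbitrary omega-covers of the model -/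
def OmASt : Prop := ∀ (A : BSet B) (d : B),
  (∀ U : Ult B, d ∈ U.s → IsOmegaCover (EU U) (cl U (OmN B)) (cl U (ptN X)) (cl U A)) →
    d ≤ vOm X (fun O : Opens Pt => (O : Set Pt)) (fun O => bmem (trN X (O : Set Pt)) A)

/-- M6: omega-groupable covers -/
def GpSt : Prop := ∀ (c : ℕ → Opens Pt) (U : Ult B), vGp X (fun n => (c n : Set Pt)) ∈ U.s →
  IsGpCover (EU U) (cl U (OmN B)) (cl U (ptN X)) (cl U (rgN (fun n => trN X (c n : Set Pt))))

/-- M7: the selection principle `S₁(Ω, 𝒪^{ω-gp})` -/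
def PosSt : Prop := ∀ U : Ult B, S1 (EU U) (cl U (OmN B))
  (IsOmegaCover (EU U) (cl U (OmN B)) (cl U (ptN X)))
  (IsGpCover (EU U) (cl U (OmN B)) (cl U (ptN X)))

/-- M8: the selection principle `S₁(Ω, Ω)` -/
def NegSt : Prop := ∀ U : Ult B, ¬ S1 (EU U) (cl U (OmN B))
  (IsOmegaCover (EU U) (cl U (OmN B)) (cl U (ptN X)))
  (IsOmegaCover (EU U) (cl U (OmN B)) (cl U (ptN X)))

end

end Pool.Agent.G16
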